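import Mathlib
import Pool.Agent.Y1.KN.Stm5
import Pool.Agent.Q29.TD.Classes
import Pool.Agent.Q29.TD.Kernel

/-!
# Statements of the lemma jobs of project TE (owner helper29)

Each statement `S_X` is to be proved as `theorem t_X : Pool.Agent.Q29.TE.S_X`.
-/

set_option linter.unusedVariables false

namespace Pool.Agent.Q29.TE

open Finset Module NumberField Pool.Agent.H204R3.CM Pool.Agent.TH170.MF Pool.Agent.TH170.QC
  Pool.Agent.TH170.QE Pool.Agent.TH170.FW Pool.Agent.TH170.GC Pool.Agent.Y1.KN Pool.Agent.Q29.TD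

/-- **NUM** (numerical lemma). Write `T = m g`, `ℓ = 1 + log T ≥ 1 + log g`.

Proof. If `T ≤ n ^ 2` then `N ≤ 1` and `T ^ (3/2) ≤ n ^ 3 ≤ n ^ 4`, `h d / e ≥ 1` give the claim
(`C ≥ 1`). So let `n ^ 2 ≤ T`; then `log n ≤ ℓ / 2`. Put `L = log (Gc n)`.

(1) The threshold `(10^4 + 10 L)^2 log (4 d) d ≤ 4 T` of `boundB` holds. Then `N ≤ √y ^ c` with
`y = 32 log (4 d) d / T ≤ 128 / 10^8 ≤ 10^-5` and `log (4 d) ≤ 2 ℓ`.
 (1a) If `e √d ≤ h` then `√y ^ c ≤ √y ^ 3 = y ^ (3/2) ≤ (64 ℓ) ^ (3/2) (d / T) √d / √T` and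
 `√d ≤ h / e`.
 (1b) If `h < e √d` then `e > h / √d`, so `c = e + d - h ≥ h / √d + d - h ≥ √d` (as `h ≤ d`), and
 `√y ^ c = √y ^ 3 √y ^ (c - 3)` with `√y ≤ 1/316`, so `√y ^ (c - 3) ≤ 316 ^ 3 316 ^ (-√d) ≤
 316 ^ 3 / √d`, and `y ^ (3/2) / √d ≤ (64 ℓ) ^ (3/2) (d / T) / √T`, `1 ≤ h / e`.

(2) The threshold fails: `4 T < (10^4 + 10 L)^2 log (4 d) d`.
 (2a) `2 h ≥ d`. Take `b = Nat.log 2 d + 1`: `d (1 - h/d) ^ b ≤ d 2 ^ (-b) < 1`, so `Gc ≤ (2 g) ^ b`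
 and `L ≤ 4 ℓ ^ 2`. Hence `4 T ≤ (10^4 + 40 ℓ^2)^2 (2 ℓ) d`, and as `d ≤ g`: `m ≤ C₁ ℓ ^ 5`. Now the
 last hypothesis gives `N ≤ C₅ n^2 m (h d / (e m g)) (ℓ ^ 16 / √T)`, done (`21 = 5 + 16`).
 (2b) `2 h < d`. If `m ≤ C₂ ℓ ^ 5` (`C₂` a large constant, e.g. `4 * 10 ^ 8`) conclude as in (2a).
 So let `m > C₂ ℓ ^ 5`. Put `ρ = d / h > 2`. With `b = ⌊ρ log d⌋ + 1`, using
 `(1 - 1/ρ) ^ b ≤ exp (- b / ρ) < 1 / d`: `Gc ≤ (2 g) ^ b`, `log Gc ≤ (ρ log d + 1) log (2 g) ≤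
 2 ρ ℓ ^ 2` and `L ≤ 3 ρ ℓ ^ 2`. Take `P = 10 ^ 4 ρ ℓ ^ 2` in the `P`-hypothesis. Let
 `ε = √(2 d / (π T)) ≤ 1 / √m ≤ 1 / (√C₂ ℓ ^ 2)`. As `ρ ≥ 2`: `P ^ (1/ρ) (4 / P) ≤ 4 / √P ≤ 4 / 100`,
 `P ^ (1/ρ) = (10 ^ 4 ℓ ^ 2) ^ (1/ρ) ρ ^ (1/ρ) ≤ 100 ℓ * 2`, so `P ^ (1/ρ) ε ≤ 1 / 100` and
 `N ≤ (P ^ (1/ρ) (4 / P + ε)) ^ d ≤ (1 / 20) ^ d`. If `20 ^ d ≥ T ^ (3/2)` this gives the claim
 (`h d / e ≥ 1`). Otherwise `d ≤ ℓ` (as `d log 20 < (3/2) log T`), `ρ ≤ d ≤ ℓ`, `L ≤ 3 ℓ ^ 3`, and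
 the failing threshold gives `4 T < (10^4 + 30 ℓ^3)^2 (2 ℓ) ℓ ≤ C₃ ℓ ^ 8`, so `T ^ (3/2) ≤ C₄ ℓ ^ 12`
 and `N ≤ 1` is enough. -/
def S_NUM : Prop :=
  ∀ C₅ : ℝ, 0 ≤ C₅ → ∃ C : ℝ, 0 ≤ C ∧ ∀ (g m d h e c n Gc : ℕ) (N : ℝ),
    1 ≤ n → 1 ≤ m → 1 ≤ h → h ≤ d → d ≤ g → 1 ≤ e → e ≤ h → h * d ≤ e * g →
    c = e + (d - h) → 3 ≤ c → 2 * g ≤ Gc → Gc ≤ (2 * g) ^ (2 * g) →
    (∀ b : ℕ, (d : ℝ) * (1 - (h : ℝ) / d) ^ b < 1 → Gc ≤ (2 * g) ^ b) → N ≤ 1 →
    N ≤ boundB (m * g) d c (Real.log ((Gc * n : ℕ) : ℝ)) →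
    (∀ P : ℝ, 10 ^ 4 ≤ P → 10 * Real.log ((Gc * n : ℕ) : ℝ) ≤ P →
      N ≤ P ^ h * (4 / P + √(2 * d / (Real.pi * (m * g)))) ^ d) →
    N ≤ C₅ * (n : ℝ) ^ 2 * (h * d / (e * g)) * ((1 + Real.log g) ^ 16 / √(m * g)) →
    N ≤ C * (n : ℝ) ^ 4 * (h * d / (e * (m * g))) * ((1 + Real.log (m * g)) ^ 21 / √(m * g))

/-- **CHAIN** (finite groups). Let `H` be a subgroup of `G` and `𝒦` a finite set of normal
subgroups `K` of `G` such that `[H : H ∩ K] ≤ 2` and every `h ∈ H` which is central modulo `K` is in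
`K`. Let `L = ⋂ K`. Then `[G : L] = [G : H L] 2 ^ a` with `a ≤ Ω([G : H L])`.

Proof: induction on `𝒦` (`Finset.induction_on`). `[G : L] = [G : H L] [H L : L]` and
`[H L : L] = [H : H ∩ L]` (`L.relIndex H`), so the claim is `[H : H ∩ L] = 2 ^ a`. Let `L' = L ∩ K`.
If `H ∩ L ≤ K` then `H ∩ L' = H ∩ L`, and `Ω([G : H L']) ≥ Ω([G : H L])` because `[G : H L]` divides
`[G : H L']`. Otherwise `[H : H ∩ L'] = 2 [H : H ∩ L]` and we show `H L' ≠ H L`, so that the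
quotient `[G : H L'] / [G : H L]` is `> 1` and `Ω` grows by at least one: if `L ≤ H L'` then
`L ≤ H K`. Take `h ∈ H ∩ L`, `h ∉ K`. All conjugates `x h x⁻¹` are in `L ≤ H K`, so modulo `K` they
are in the image of `H`, which has at most two elements; they are not in `K`; so they are all equal
to `h` modulo `K`, i.e. `x h x⁻¹ h⁻¹ ∈ K`: a contradiction to the second hypothesis. -/
def S_CHAIN : Prop :=
  ∀ (G : Type) [Group G] [Finite G] (H : Subgroup G) (𝒦 : Finset (Subgroup G)),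
    (∀ K ∈ 𝒦, K.Normal) → (∀ K ∈ 𝒦, K.relIndex H ≤ 2) →
    (∀ K ∈ 𝒦, ∀ h ∈ H, (∀ x : G, x * h * x⁻¹ * h⁻¹ ∈ K) → h ∈ K) →
    ∃ a : ℕ, (𝒦.inf id).index = (H ⊔ 𝒦.inf id).index * 2 ^ a ∧
      a ≤ (H ⊔ 𝒦.inf id).index.primeFactorsList.length

/-- **FS** (Frobenius and Schur; Burnside). A group of order `2 k`, `k` odd, with a central
involution `c`, acts transitively on `X`; `S` is a minimal invariant space of odd functions whose
equivariant endomorphisms are the rational numbers. Then `dim S = 1`.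

Proof. Let `d = dim S`, `γ · u = u ∘ γ⁻¹`, and `(u, v) = ∑ u x v x` (`dot X`), an invariant
positive definite form. For `w, u ∈ S` the map `z ↦ ∑ γ, (γ w, z) γ u` is an equivariant
endomorphism of `S`, so it is a scalar (`edim = 1`), and its trace is `|G| (w, u)`; so
`∑ γ, (γ w, z) γ u = (|G| / d) (w, u) z`. Let `u_j`, `u^j` be dual bases of `S`, `(u_i, u^j) = δ`.
Then `∑ γ, (γ⁻¹ u, γ u) = ∑ j, ∑ γ, (γ u, u^j) (u_j, γ⁻¹ u) = ∑ j, (u, ∑ γ, (γ u, u^j) γ u_j) =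
(|G| / d) ∑ j, (u, u_j) (u, u^j) = (|G| / d) (u, u)`, that is `(u, ∑ γ, γ ^ 2 u) = (|G| / d) (u, u)`,
not zero for `u ≠ 0`. Now `G = N × {1, c}` with a normal subgroup `N` of odd order `k` (Burnside:
the Sylow 2-subgroup `{1, c}` is central, `MonoidHom.ker_transferSylow_isComplement'`; or Cayley).
`γ ^ 2` for `γ = ν c ^ i` is `ν ^ 2` and `ν ↦ ν ^ 2` is bijective on `N`, so
`∑ γ, γ ^ 2 u = 2 ∑ ν ∈ N, ν u` is a nonzero vector of `S` fixed by `N`. The vectors of `S` fixed by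
`N` are an invariant subspace (`N` is normal), so all of `S`; `c` acts by `-1`; so every line in
`S` is invariant, and `d = 1` by minimality. -/
def S_FS : Prop :=
  ∀ (G X : Type) [Group G] [Fintype G] [MulAction G X] [Fintype X] [DecidableEq X]
    [MulAction.IsPretransitive G X] (c : G), c * c = 1 → (∀ x, c * x = x * c) →
    (∀ x : X, c • x ≠ x) → ∀ S ∈ MinInv G (fun x : X => c • x), edim G S = 1 →
    ∀ k : ℕ, Nat.card G = 2 * k → Odd k → finrank ℚ S = 1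

/-- **COS**. `cw p t = |cos (2 π t / p)|`. Let `u = 1/2` in `ℤ / p`, `s = 2 M a`; then
`cw p (M a) = cw p (u s) = |cos (π s.valMinAbs / p)|` (`cw_half`), at most
`exp (-(π s.valMinAbs / p) ^ 2 / 2)` (`abs_cos_le_exp`, `abs_valMinAbs_le`). If `n = M M'` then
`2 n a = M' s`, so `|(2 n a).valMinAbs| ≤ |M'| |s.valMinAbs| ≤ n |s.valMinAbs|`
(`ZMod.valMinAbs` has the smallest absolute value of all integers in its class). -/
def S_COS : Prop :=
  ∀ (p : ℕ) [NeZero p] (M : ℤ) (n : ℕ) (a : ZMod p), Odd p → 0 < n → M ∣ (n : ℤ) →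
    cw p ((M : ZMod p) * a) ≤ Real.exp (-(Real.pi ^ 2 *
      (((2 * (n : ZMod p) * a).valMinAbs : ℤ) : ℝ) ^ 2 / (2 * (n : ℝ) ^ 2 * (p : ℝ) ^ 2)))

/-- **GAUSS**. The sum over a finite set of integral vectors is at most the product of the sums over
intervals, and `∑ |z| ≤ B, exp (- b z ^ 2) ≤ 1 + 2 (√(π / b) / 2)` (`sum_gauss_le`). -/
def S_GAUSS : Prop :=
  ∀ (X : Type) [Fintype X] [DecidableEq X] (b : ℝ) (Z : Finset (X → ℤ)), 0 < b →
    ∑ z ∈ Z, Real.exp (-(b * ∑ x, (z x : ℝ) ^ 2)) ≤ (1 + √(Real.pi / b)) ^ Fintype.card X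

/-- **GRAM**. Integral vectors with small entries which are independent over `ℚ` are independent
modulo `p`: choose a basis of the rational span among the vectors (`r ≤ |X|` vectors, `R ≥ 1`); the
determinant of the Gram matrix is a nonzero integer of absolute value at most `r! (|X| R ^ 2) ^ r`,
so not divisible by `p`; hence the vectors are independent modulo `p`. -/
def S_GRAM : Prop :=
  ∀ (p : ℕ) [Fact p.Prime] (ι X : Type) [Fintype ι] [Fintype X] (R : ℕ) (v : ι → X → ℤ),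
    (∀ i x, |v i x| ≤ R) →
    (Fintype.card X).factorial * (Fintype.card X * R ^ 2) ^ Fintype.card X < p →
    finrank ℚ (Submodule.span ℚ (Set.range fun i x => (v i x : ℚ))) ≤
      finrank (ZMod p) (Submodule.span (ZMod p) (Set.range fun i x => (v i x : ZMod p)))

/-- **EH**. The dimensions for a subfield. `fixedPart`: if `v ∈ desc F S` is fixed by the stabilizer
of `φ|F` in `Gal F` then `pull F v ∈ S` is fixed by the stabilizer of `φ` in `Gal E` (an element of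
`Gal E` is given by an automorphism `σ` of `ℂ`, `gal_smul`, and `σ` gives an element of `Gal F`,
`exists_gal_smul`); `pull F` is injective (restriction of embeddings is surjective, see
`kernel_faith` in Q29/TD/Kernel). `edim`: `A ∈ homs (Gal E) S S` gives `B ∈ homs (Gal F)` by
`pull F (B v) = A (pull F v)` (`P_desc`: `(desc F S).map (pull F) = S`), injective in `A`. -/
def S_EH : Prop :=
  ∀ (E : Type) [Field E] [NumberField E] [IsCMField E] (F : IntermediateField ℚ E) [IsCMField F]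
    (S : Submodule ℚ ((E →+* ℂ) → ℚ)) (φ : E →+* ℂ), S ∈ minimalSpaces E → S ≤ resSpace F →
    finrank ℚ (Pool.Agent.TH170.QC.fixedPart (Gal F) (φ.comp (algebraMap F E)) (desc F S)) ≤
      finrank ℚ (Pool.Agent.TH170.QC.fixedPart (Gal E) φ S) ∧
    edim (Gal E) S ≤ edim (Gal F) (desc F S)

/-- **REL**. The stabilizer of `φ` in `Gal E` modulo the kernel of `S` injects into the stabilizer
of `φ|F` in `Gal F`: choose for each `γ` an automorphism `σ` of `ℂ` (`gal_smul`) and the element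
`δ` of `Gal F` given by `σ` (`exists_gal_smul`). If `γ, γ'` have the same `δ` then `γ⁻¹ γ'` acts
trivially on the functions that come from `F`, so on `S`. -/
def S_REL : Prop :=
  ∀ (E : Type) [Field E] [NumberField E] [IsCMField E] (F : IntermediateField ℚ E) [IsCMField F]
    (S : Submodule ℚ ((E →+* ℂ) → ℚ)) (φ : E →+* ℂ), S ∈ minimalSpaces E → S ≤ resSpace F →
    (ker0 (Gal E) S).relIndex (MulAction.stabilizer (Gal E) φ) ≤
      Nat.card (MulAction.stabilizer (Gal F) (φ.comp (algebraMap F E)))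

/-- **CLS**. The number of the classes of minimal spaces whose kernels contain `L` is at most the
number of the classes of cyclic subgroups of `G / L`. Proof as for
`Pool.Agent.Q29.TD.card_classes_le`; the new point: if `x L` and `y L` generate the same subgroup up
to conjugation then `chi (S i) x = chi (S i) y`: after conjugation `x L = (y L) ^ k` with `k` coprime
to the order of `y L`; choose `k'` congruent to `k` modulo the order of `y L` and coprime to the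
order of `y` (`ZMod.unitsMap_surjective`); then `x ∈ y ^ k' L`, `chi (S i) x = chi (S i) (y ^ k')`
as `L` acts trivially on `S i`, and `chi (S i) (y ^ k') = chi (S i) y` (`chi_pow`, as in
`chi_zpowers`). -/
def S_CLS : Prop :=
  ∀ (G X : Type) [Group G] [Fintype G] [MulAction G X] [Fintype X] (c : X → X) (ι : Type)
    [Fintype ι] (S : ι → Submodule ℚ (X → ℚ)) (L : Subgroup G) [L.Normal],
    (∀ i, S i ∈ MinInv G c) →
    (∀ i j, i ≠ j → killers G (S i : Set (X → ℚ)) ≠ killers G (S j : Set (X → ℚ))) →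
    (∀ i, L ≤ ker0 G (S i)) → ∀ (n : ℕ) (q : G ⧸ L → Fin n),
    (∀ x y : G ⧸ L, q x = q y →
      ∃ g : G ⧸ L, Subgroup.zpowers (g * x * g⁻¹) = Subgroup.zpowers y) →
    Fintype.card ι ≤ n

/-- The square divisors `q ^ 2` of `g` satisfy `q ^ k ≤ g`. -/
def SmallSquares (k g : ℕ) : Prop := ∀ q : ℕ, q ^ 2 ∣ g → q ^ k ≤ g

/-- **DENS**. The numbers up to `x` with a large square divisor. Proof: for `q ≥ 1` the number of the
`g` with `1 ≤ g ≤ x`, `q ^ 2 ∣ g`, `g < q ^ k` is at most `min x (q ^ k) / q ^ 2`. The sum over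
`q ≤ x ^ (1/k)` of `q ^ (k - 2)` is at most `x ^ ((k-1)/k)`, the sum over the other `q` of `x / q ^ 2`
is at most `2 x / x ^ (1/k)`; and `g = 0` is one further element. (`Pool.Agent.Q29.TD.ncard_square_le`
is a similar bound.) -/
def S_DENS : Prop :=
  ∀ k : ℕ, 2 ≤ k → ∀ x : ℕ, 1 ≤ x →
    (({g : ℕ | g ≤ x ∧ ¬ SmallSquares k g}.ncard : ℕ) : ℝ) ≤ 4 * (x : ℝ) ^ (1 - 1 / (k : ℝ))

/-- **RATE**. Proof: `Pool.Agent.Q29.TD.exists_decomposition` gives `q ^ 2 ∣ g`, `4 g = s t`,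
`s ≤ (2 q) ^ 3`, `t ≤ 4 g`; so `s ^ 2 ≤ 64 q ^ 6 ≤ 64 g ^ (6 / k)`;
`Pool.Agent.Q29.TD.card_divisors_le` for `τ(t) ≤ C t ^ δ`, and the logarithm as in
`Pool.Agent.Q29.TD.rate_le`. -/
def S_RATE : Prop :=
  ∀ (k : ℕ) (ε : ℝ), 1 ≤ k → 0 < ε → ∃ C : ℝ, 0 ≤ C ∧ ∀ g : ℕ, 0 < g → SmallSquares k g →
    ∃ s t : ℕ, 4 * g = s * t ∧ s.Coprime t ∧ Squarefree t ∧
      (1 + Real.log (2 * g)) ^ 16 * (t.divisors.card : ℝ) ^ 2 * (s : ℝ) ^ 2 /
        (g : ℝ) ^ (1 / 4 : ℝ) ≤ C * (g : ℝ) ^ (6 / (k : ℝ) - 1 / 4 + ε)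

end Pool.Agent.Q29.TE
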