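import Mathlib
import Pool.Agent.Y248.KN.Gen
import Pool.Agent.Q29.TE.Stm

/-!
# Stable spaces of functions modulo a prime number, and small integral functions
-/

set_option linter.unusedSectionVars false
set_option linter.unusedVariables false

namespace Pool.Agent.Q29.TE

open Finset Module Pool.Agent.TH170.MF Pool.Agent.TH170.QC Pool.Agent.TH170.GC Pool.Agent.TH170.QE
  Pool.Agent.Y1.KN

section modp

variable {p : ℕ} [Fact p.Prime] {G X : Type} [Group G] [Fintype G] [MulAction G X] [Fintype X]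
  [DecidableEq X] [MulAction.IsPretransitive G X] {n : ℕ} {D : Fin n → Type*} {d : Fin n → ℕ}
  [∀ i, Field (D i)] [∀ i, Algebra (ZMod p) (D i)] [∀ i, Module.Finite (ZMod p) (D i)]
  [∀ i, NeZero (d i)]
  (π : MonoidAlgebra (ZMod p) G ≃ₐ[ZMod p] Π i, Matrix (Fin (d i)) (Fin (d i)) (D i))

theorem col_mono (x₀ : X) {R R' : Submodule (ZMod p) (X → ZMod p)} (hR : Stable G R)
    (hR' : Stable G R') (h : R ≤ R') (i : Fin n) : col π x₀ hR i ≤ col π x₀ hR' i := by
  rintro v ⟨w, hw, rfl⟩
  exact ⟨w, h hw, rfl⟩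

/-- A stable space is determined by its column spaces. -/
theorem le_of_col (x₀ : X) {R R' : Submodule (ZMod p) (X → ZMod p)} (hR : Stable G R)
    (hR' : Stable G R') (h : ∀ i, col π x₀ hR i ≤ col π x₀ hR' i) : R ≤ R' := by
  intro w hw
  obtain ⟨w', hw', he⟩ := exists_of_cols π x₀ hR' (theta x₀ w)
    (fun i a => h i (mulVec_mem_col π x₀ hR i hw a))
  rw [← theta_injective (G := G) x₀ he]
  exact hw'

end modp

section spaces

variable {G X : Type} [Group G] [Fintype G] [MulAction G X] [Fintype X] [DecidableEq X]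
  [MulAction.IsPretransitive G X]

/-- The reductions modulo `p` of the spaces isomorphic to `S₀`. -/
def redSpaces (G : Type) {X : Type} [Group G] [MulAction G X] (p : ℕ) [Fact p.Prime] (c : X → X)
    (S₀ : Submodule ℚ (X → ℚ)) : Set (Submodule (ZMod p) (X → ZMod p)) :=
  {R | ∃ S : Submodule ℚ (X → ℚ), Invariant G S ∧ AllOdd c S ∧
    finrank ℚ (homs G S₀ S) = finrank ℚ (homs G S₀ S₀) ∧
    finrank ℚ (homs G S₀ S) = finrank ℚ (homs G S S) ∧ R = redSpace p S}

instance finite_submodule (p : ℕ) [Fact p.Prime] : Finite (Submodule (ZMod p) (X → ZMod p)) :=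
  Finite.of_injective (fun S : Submodule (ZMod p) (X → ZMod p) => (S : Set (X → ZMod p)))
    SetLike.coe_injective

/-- The number of the reductions of the spaces isomorphic to `S₀`. -/
theorem ncard_redSpaces {p : ℕ} [Fact p.Prime] (hp : p ≠ 2) (hpG : ¬ p ∣ Nat.card G) {c : G}
    (hc : c * c = 1) (hcen : ∀ x, c * x = x * c) {S₀ : Submodule ℚ (X → ℚ)}
    (hS₀ : Invariant G S₀) (x₀ : X) :
    (redSpaces G p (fun x : X => c • x) S₀).ncard * (p - 1) ^ finrank ℚ (homs G S₀ S₀) ≤
      p ^ finrank ℚ (fixedPart G x₀ S₀) := by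
  classical
  obtain ⟨n, D, d, _, _, _, hd, ⟨π⟩⟩ := exists_fields p G hpG
  have hDfin : ∀ i, Finite (D i) := fun i => Module.finite_of_finite (ZMod p)
  have hDft : ∀ i, Fintype (D i) := fun i => Fintype.ofFinite _
  have hcardD : ∀ i, Fintype.card (D i) = p ^ finrank (ZMod p) (D i) := by
    intro i
    rw [Module.card_eq_pow_finrank (K := ZMod p) (V := D i), ZMod.card]
  set m := mult π x₀ hS₀ with hm
  have he := finrank_homs π hpG x₀ hS₀ hS₀
  rw [← hm] at he
  have hh := sum_good_mult_le π hp hpG hc hcen x₀ hS₀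
  rw [← hm] at hh
  have hp1 : 1 ≤ p := (Fact.out : p.Prime).one_le
  have hp2 : 2 ≤ p := (Fact.out : p.Prime).two_le
  set 𝒰 := redSpaces G p (fun x : X => c • x) S₀ with h𝒰
  have hst : ∀ R : 𝒰, Stable G (R : Submodule (ZMod p) (X → ZMod p)) := by
    rintro ⟨R, S, hS, -, -, -, rfl⟩
    exact stable_redSpace hS
  have hcol : ∀ (R : 𝒰) i, finrank (D i) (col π x₀ (hst R) i) = m i := by
    rintro ⟨R, S, hS, ho, h1, h2, rfl⟩ i
    exact (mult_eq π hpG x₀ hS₀ hS h1 h2 i).symm
  have hgood : ∀ (R : 𝒰) i, col π x₀ (hst R) i ≤ goodSpace π x₀ c i := by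
    rintro ⟨R, S, hS, ho, h1, h2, rfl⟩ i
    exact goodSpace_col π hc hcen x₀ hS ho i
  have h6 : ∀ (R : 𝒰) i, Finite {s : Fin (m i) → col π x₀ (hst R) i // LinearIndependent (D i) s} :=
    fun R i => inferInstance
  have hge : ∀ R : 𝒰, (p - 1) ^ finrank ℚ (homs G S₀ S₀) ≤
      Nat.card (∀ i, {s : Fin (m i) → col π x₀ (hst R) i // LinearIndependent (D i) s}) := by
    intro R
    rw [Nat.card_pi, he, ← prod_pow_eq_pow_sum]
    exact prod_le_prod' fun i _ => card_frames_ge hp2 finrank_pos (hcardD i) (hcol R i)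
  have hinj : Nat.card (Σ R : 𝒰, ∀ i, {s : Fin (m i) → col π x₀ (hst R) i //
      LinearIndependent (D i) s}) ≤ Nat.card (∀ i, Fin (m i) → goodSpace π x₀ c i) := by
    refine Nat.card_le_card_of_injective (fun Rs => fun i j =>
      (⟨((Rs.2 i).1 j : Fin (d i) → D i), hgood Rs.1 i ((Rs.2 i).1 j).2⟩ :
        goodSpace π x₀ c i)) ?_
    rintro ⟨R, s⟩ ⟨R', s'⟩ h
    have h7 : ∀ i j, (((s i).1 j : col π x₀ (hst R) i) : Fin (d i) → D i) =
        (((s' i).1 j : col π x₀ (hst R') i) : Fin (d i) → D i) := fun i j =>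
      congrArg Subtype.val (congrFun (congrFun h i) j)
    have hspan : ∀ (R : 𝒰) (s : ∀ i, {s : Fin (m i) → col π x₀ (hst R) i //
        LinearIndependent (D i) s}) i, Submodule.span (D i) (Set.range fun j =>
          (((s i).1 j : col π x₀ (hst R) i) : Fin (d i) → D i)) = col π x₀ (hst R) i := by
      intro R s i
      have hli : LinearIndependent (D i) (fun j =>
          (((s i).1 j : col π x₀ (hst R) i) : Fin (d i) → D i)) :=
        (s i).2.map' (col π x₀ (hst R) i).subtype (Submodule.ker_subtype _)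
      refine Submodule.eq_of_le_of_finrank_eq ?_ ?_
      · rw [Submodule.span_le]
        rintro _ ⟨j, rfl⟩
        exact ((s i).1 j).2
      · rw [finrank_span_eq_card hli, Fintype.card_fin, hcol]
    have hRR : R = R' := by
      apply Subtype.ext
      have h8 : ∀ i, col π x₀ (hst R) i = col π x₀ (hst R') i := by
        intro i
        rw [← hspan R s i, ← hspan R' s' i]
        congr 2
        funext j
        exact h7 i j
      exact le_antisymm (le_of_col π x₀ (hst R) (hst R') fun i => (h8 i).le)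
        (le_of_col π x₀ (hst R') (hst R) fun i => (h8 i).ge)
    subst hRR
    congr 1
    funext i
    apply Subtype.ext
    funext j
    apply Subtype.ext
    exact h7 i j
  have hV : Nat.card (∀ i, Fin (m i) → goodSpace π x₀ c i) ≤
      p ^ finrank ℚ (fixedPart G x₀ S₀) := by
    have h5 : Nat.card (∀ i, Fin (m i) → goodSpace π x₀ c i) =
        p ^ (∑ i, finrank (ZMod p) (D i) * (finrank (D i) (goodSpace π x₀ c i) * m i)) := by
      rw [Nat.card_pi, ← prod_pow_eq_pow_sum]
      refine prod_congr rfl fun i _ => ?_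
      rw [Nat.card_fun, finrank_restrict (p := p) i, ← pow_mul, Nat.card_eq_fintype_card,
        Fintype.card_fin]
      congr 1
      ring
    rw [h5]
    exact Nat.pow_le_pow_right hp1 hh
  have hfin : Finite 𝒰 := inferInstance
  have hft : Fintype 𝒰 := Fintype.ofFinite _
  calc 𝒰.ncard * (p - 1) ^ finrank ℚ (homs G S₀ S₀) =
      ∑ R : 𝒰, (p - 1) ^ finrank ℚ (homs G S₀ S₀) := by
        rw [sum_const, card_univ, smul_eq_mul, ← Nat.card_eq_fintype_card, Nat.card_coe_set_eq]
    _ ≤ ∑ R : 𝒰, Nat.card (∀ i, {s : Fin (m i) → col π x₀ (hst R) i //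
        LinearIndependent (D i) s}) := sum_le_sum fun R _ => hge R
    _ = Nat.card (Σ R : 𝒰, ∀ i, {s : Fin (m i) → col π x₀ (hst R) i //
        LinearIndependent (D i) s}) := by rw [Nat.card_sigma]
    _ ≤ _ := hinj.trans hV

/-- The rational space spanned by the translates of a function. -/
def trans (G : Type) {X : Type} [Group G] [MulAction G X] (z : X → ℤ) : Submodule ℚ (X → ℚ) :=
  Submodule.span ℚ (Set.range fun (γ : G) (x : X) => (z (γ • x) : ℚ))

theorem invariant_trans (z : X → ℤ) : Invariant G (trans G z) := by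
  intro γ s hs
  have key : ∀ s ∈ trans G z, (fun x => s (γ • x)) ∈ trans G z := by
    intro s hs
    refine Submodule.span_induction ?_ ?_ ?_ ?_ hs
    · rintro _ ⟨δ, rfl⟩
      refine Submodule.subset_span ⟨δ * γ, ?_⟩
      funext x
      change ((z ((δ * γ) • x) : ℤ) : ℚ) = (z (δ • γ • x) : ℚ)
      rw [mul_smul]
    · exact (trans G z).zero_mem
    · intro u v _ _ hu hv
      exact (trans G z).add_mem hu hv
    · intro r u _ hu
      exact (trans G z).smul_mem r hu
  exact key s hs

/-- A small integral function whose reduction is in the reduction of a space isomorphic to `S₀`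
generates this reduction. -/
theorem eq_span (hGram : S_GRAM) {p : ℕ} [Fact p.Prime] (hpG : ¬ p ∣ Nat.card G)
    {c : X → X} {S₀ : Submodule ℚ (X → ℚ)} (hS₀ : S₀ ∈ MinInv G c) (x₀ : X)
    {R : Submodule (ZMod p) (X → ZMod p)} (hR : R ∈ redSpaces G p c S₀) {z : X → ℤ} {B : ℕ}
    (hz0 : z ≠ 0) (hzB : ∀ x, |z x| ≤ B)
    (hB : (Fintype.card X).factorial * (Fintype.card X * B ^ 2) ^ Fintype.card X < p)
    (hzR : (fun x => (z x : ZMod p)) ∈ R) :
    R = Submodule.span (ZMod p) (Set.range fun (γ : G) (x : X) => (z (γ • x) : ZMod p)) := by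
  classical
  obtain ⟨n, D, d, _, _, _, hd, ⟨π⟩⟩ := exists_fields p G hpG
  obtain ⟨S, hS, ho, h1, h2, rfl⟩ := hR
  set N := trans G z with hN
  have hNi : Invariant G N := invariant_trans z
  set Np := Submodule.span (ZMod p) (Set.range fun (γ : G) (x : X) => (z (γ • x) : ZMod p))
    with hNp
  have hNpS : Np ≤ redSpace p S := by
    rw [hNp, Submodule.span_le]
    rintro _ ⟨γ, rfl⟩
    have h3 := stable_redSpace hS _ hzR (MonoidAlgebra.single γ 1)
    have h4 : act (fun x => (z x : ZMod p)) (MonoidAlgebra.single γ (1 : ZMod p)) =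
        fun x => (z (γ • x) : ZMod p) := by
      funext x
      rw [act, Finset.sum_eq_single γ]
      · rw [MonoidAlgebra.coeff_single, Finsupp.single_eq_same, one_mul]
      · intro δ _ hδ
        rw [MonoidAlgebra.coeff_single, Finsupp.single_eq_of_ne hδ, zero_mul]
      · intro h
        exact absurd (mem_univ _) h
    rw [h4] at h3
    exact h3
  have hNpN : Np ≤ redSpace p N := by
    rw [hNp, Submodule.span_le]
    rintro _ ⟨γ, rfl⟩
    exact ⟨fun x => z (γ • x), Submodule.subset_span ⟨γ, rfl⟩, rfl⟩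
  have hgram : finrank ℚ N ≤ finrank (ZMod p) Np :=
    hGram p G X B (fun γ x => z (γ • x)) (fun γ x => hzB _) hB
  have hNpeq : Np = redSpace p N := by
    refine Submodule.eq_of_le_of_finrank_le hNpN ?_
    rw [finrank_redSpace]
    exact hgram
  have hle : redSpace p N ≤ redSpace p S := by
    rw [← hNpeq]
    exact hNpS
  have hmle : ∀ i, mult π x₀ hNi i ≤ mult π x₀ hS i := by
    intro i
    have hfin : Module.Finite (D i) (Fin (d i) → D i) := inferInstance
    exact Submodule.finrank_mono (col_mono π x₀ (stable_redSpace hNi) (stable_redSpace hS) hle i)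
  have hN0 : N ≠ ⊥ := by
    rw [Submodule.ne_bot_iff]
    refine ⟨fun x => (z x : ℚ), Submodule.subset_span ⟨1, ?_⟩, ?_⟩
    · funext x
      change ((z ((1 : G) • x) : ℤ) : ℚ) = (z x : ℚ)
      rw [one_smul]
    · intro h
      apply hz0
      funext x
      have h3 : (z x : ℚ) = 0 := congrFun h x
      exact_mod_cast h3
  obtain ⟨i, hi⟩ : ∃ i, 0 < mult π x₀ hNi i := by
    by_contra hcon
    push Not at hcon
    have h3 := finrank_eq_sum π x₀ hNi
    rw [sum_eq_zero fun i _ => by rw [Nat.le_zero.1 (hcon i), mul_zero, mul_zero]] at h3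
    exact hN0 (Submodule.finrank_eq_zero.1 h3)
  have hmS : ∀ i, mult π x₀ hS₀.2.1 i = mult π x₀ hS i := mult_eq π hpG x₀ hS₀.2.1 hS h1 h2
  have hhom : 0 < finrank ℚ (homs G S₀ N) := by
    rw [finrank_homs π hpG x₀ hS₀.2.1 hNi]
    refine sum_pos' (fun i _ => Nat.zero_le _) ⟨i, mem_univ _, ?_⟩
    have h4 := hmle i
    rw [← hmS i] at h4
    have h5 : 0 < finrank (ZMod p) (D i) := finrank_pos
    exact Nat.mul_pos h5 (Nat.mul_pos (lt_of_lt_of_le hi h4) hi)
  obtain ⟨A, hA, hA0⟩ : ∃ A ∈ homs G S₀ N, A ≠ 0 := by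
    have h3 : homs G S₀ N ≠ ⊥ := by
      intro h
      rw [h, finrank_bot] at hhom
      exact lt_irrefl _ hhom
    exact (Submodule.ne_bot_iff _).1 h3
  have hAinj : Function.Injective A := by
    rw [← LinearMap.ker_eq_bot]
    have h3 : Invariant G ((LinearMap.ker A).map S₀.subtype) := by
      rintro γ _ ⟨s, hs, rfl⟩
      refine ⟨⟨fun x => (s : X → ℚ) (γ • x), hS₀.2.1 γ _ s.2⟩, ?_, rfl⟩
      rw [SetLike.mem_coe, LinearMap.mem_ker] at hs ⊢
      funext x
      rw [hA.2 γ s ⟨fun x => (s : X → ℚ) (γ • x), hS₀.2.1 γ _ s.2⟩ (fun x => rfl) x, hs]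
      rfl
    rcases hS₀.2.2.2 _ h3 (Submodule.map_subtype_le _ _) with h4 | h4
    · rw [Submodule.eq_bot_iff]
      intro s hs
      have h5 : (s : X → ℚ) ∈ (LinearMap.ker A).map S₀.subtype := ⟨s, hs, rfl⟩
      rw [h4, Submodule.mem_bot] at h5
      exact Subtype.ext h5
    · exfalso
      apply hA0
      refine LinearMap.ext fun s => ?_
      have h5 : (s : X → ℚ) ∈ (LinearMap.ker A).map S₀.subtype := by
        rw [h4]
        exact s.2
      obtain ⟨t, ht, hts⟩ := h5
      have h6 : t = s := Subtype.ext hts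
      rw [← h6]
      exact ht
  have hdim : finrank ℚ S₀ ≤ finrank ℚ N := by
    refine LinearMap.finrank_le_finrank_of_injective (f := A.codRestrict N hA.1) ?_
    intro s t h
    exact hAinj (congrArg Subtype.val h)
  have hSd : finrank ℚ S = finrank ℚ S₀ := by
    rw [finrank_eq_sum π x₀ hS, finrank_eq_sum π x₀ hS₀.2.1]
    exact sum_congr rfl fun i _ => by rw [hmS i]
  refine (Submodule.eq_of_le_of_finrank_le hNpS ?_).symm
  rw [finrank_redSpace, hSd]
  exact hdim.trans hgram

end spaces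

end Pool.Agent.Q29.TE
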