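import Mathlib
import Pool.Agent.Q29.TE.ModP

/-!
# The number of odd sign functions orthogonal to a space modulo a prime number
-/

set_option linter.unusedSectionVars false
set_option linter.unusedVariables false

namespace Pool.Agent.Q29.TE

open Finset Module Pool.Agent.TH170.MF Pool.Agent.TH170.QC Pool.Agent.TH170.GC Pool.Agent.TH170.QE
  Pool.Agent.Y1.KN Pool.Agent.Y248.KN

theorem valMinAbs_neg_sq {p : ℕ} [NeZero p] (a : ZMod p) :
    (((-a).valMinAbs : ℤ) : ℝ) ^ 2 = ((a.valMinAbs : ℤ) : ℝ) ^ 2 := by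
  have h1 : (-a).valMinAbs.natAbs = a.valMinAbs.natAbs := ZMod.natAbs_valMinAbs_neg a
  have h2 : ((-a).valMinAbs) ^ 2 = (a.valMinAbs) ^ 2 := by
    rw [← Int.natAbs_sq, h1, Int.natAbs_sq]
  exact_mod_cast h2

/-- The number of the odd sign functions `f` with `f M` orthogonal to a space modulo `p`. -/
theorem ncard_orth (hCos : S_COS) {p : ℕ} [Fact p.Prime] (hp : p ≠ 2) {G X : Type} [Group G]
    [Fintype G] [MulAction G X] [Fintype X] [DecidableEq X] [MulAction.IsPretransitive G X]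
    {m n g : ℕ} [NeZero m] {M : PX X m → ℤ} {c : G} (D : PData G X m n g M c) (hpn : ¬ p ∣ n)
    (R : Submodule (ZMod p) (X → ZMod p)) (hRo : ∀ u ∈ R, ∀ x, u (c • x) = - u x)
    [Fintype R] :
    (({f ∈ oddSigns (PX X m) (fun x => ((c, 1) : G × Multiplicative (ZMod m)) • x) |
      ∀ u ∈ R, ∑ x : PX X m, ((f x * M x : ℤ) : ZMod p) * u x.fst = 0}.ncard : ℕ) : ℝ) *
      (p : ℝ) ^ finrank (ZMod p) R ≤
    2 ^ (m * g) * ∑ u : R, Real.exp (-(Real.pi ^ 2 * m / (4 * (n : ℝ) ^ 2 * (p : ℝ) ^ 2) *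
      ∑ x, ((((u : X → ZMod p) x).valMinAbs : ℤ) : ℝ) ^ 2)) := by
  classical
  have hcc : ∀ x : X, c • (c • x) = x := fun x => by rw [smul_smul, D.cc, one_smul]
  obtain ⟨T₀, hT₀⟩ := exists_transversal (c := fun x : X => c • x) hcc D.free
  set σ : PX X m → PX X m := fun x => ((c, 1) : G × Multiplicative (ZMod m)) • x with hσ
  have hσfst : ∀ x, (σ x).fst = c • x.fst := fun x => rfl
  have hσσ : ∀ x, σ (σ x) = x := fun x => by
    simp only [hσ]
    rw [smul_smul, D.cc', one_smul]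
  set T : Finset (PX X m) := univ.filter (fun x => x.fst ∈ T₀) with hTdef
  have hT : ∀ x, x ∈ T ↔ σ x ∉ T := by
    intro x
    rw [hTdef, mem_filter, mem_filter, hσfst]
    simp only [mem_univ, true_and]
    exact hT₀ x.fst
  have hTg : T.card = m * g := by
    have h1 := card_transversal (c := σ) hσσ hT
    have h2 := D.card'
    omega
  have hp0 : p ≠ 0 := (Fact.out : p.Prime).ne_zero
  have hpR : (0 : ℝ) < p := by exact_mod_cast Nat.pos_of_ne_zero hp0
  have hpodd : Odd p := (Fact.out : p.Prime).odd_of_ne_two hp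
  have hn : 0 < n := Nat.pos_of_ne_zero D.n0
  have h2 : (2 : ZMod p) ≠ 0 := by
    intro h
    have h3 : ((2 : ℕ) : ZMod p) = 0 := by exact_mod_cast h
    rw [ZMod.natCast_eq_zero_iff] at h3
    exact hp ((Nat.prime_dvd_prime_iff_eq Fact.out Nat.prime_two).1 h3)
  have hnp : (n : ZMod p) ≠ 0 := fun h => hpn ((ZMod.natCast_eq_zero_iff _ _).1 h)
  obtain ⟨κ, hκ1, b, hκ2⟩ : ∃ (κ : Type) (_ : Fintype κ) (_ : Basis κ (ZMod p) R),
      Fintype.card κ = finrank (ZMod p) R :=
    ⟨Fin (finrank (ZMod p) R), inferInstance, Module.finBasis (ZMod p) R, Fintype.card_fin _⟩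
  have hcount := fourier_count p (κ := κ) (T := T)
    (fun k x => (M x : ZMod p) * (b k : X → ZMod p) (x : PX X m).fst)
  rw [hκ2, Fintype.card_coe, hTg] at hcount
  -- the number of the functions
  have hle : ({f ∈ oddSigns (PX X m) σ |
      ∀ u ∈ R, ∑ x : PX X m, ((f x * M x : ℤ) : ZMod p) * u x.fst = 0}.ncard) ≤
      ((signs T).filter (fun ε => ∀ k, ∑ x : T, ((ε x : ℤ) : ZMod p) *
        ((M x : ZMod p) * (b k : X → ZMod p) (x : PX X m).fst) = 0)).card := by
    rw [← Set.ncard_coe_finset]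
    refine Set.ncard_le_ncard_of_injOn (fun f => fun x : T => f x) ?_ ?_ (Finset.finite_toSet _)
    · rintro f ⟨hf, hf0⟩
      rw [mem_coe, mem_filter]
      refine ⟨(mem_signs _).2 fun x => hf.1 x, fun k => ?_⟩
      have h3 := hf0 _ (b k).2
      rw [sum_transversal (c := σ) hσσ hT] at h3
      have h4 : ∀ x ∈ T, ((f x * M x : ℤ) : ZMod p) * (b k : X → ZMod p) x.fst +
          ((f (σ x) * M (σ x) : ℤ) : ZMod p) * (b k : X → ZMod p) (σ x).fst =
          2 * (((f x * M x : ℤ) : ZMod p) * (b k : X → ZMod p) x.fst) := by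
        intro x _
        have h5 : f (σ x) = - f x := hf.2 x
        rw [h5, hσfst, hRo _ (b k).2, D.Mc]
        push_cast
        ring
      rw [sum_congr rfl h4, ← mul_sum] at h3
      have h5 := (mul_eq_zero.1 h3).resolve_left h2
      rw [sum_coe_sort T (fun x => ((f x : ℤ) : ZMod p) *
        ((M x : ZMod p) * (b k : X → ZMod p) x.fst)), ← h5]
      exact sum_congr rfl fun x _ => by
        push_cast
        ring
    · intro f hf f' hf' h
      funext x
      by_cases hx : x ∈ T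
      · exact congrFun h ⟨x, hx⟩
      · have hx' : σ x ∈ T := by
          rw [hT, hσσ]
          exact hx
        have h1 : f (σ x) = f' (σ x) := congrFun h ⟨σ x, hx'⟩
        have h3 : f (σ x) = - f x := hf.1.2 x
        have h4 : f' (σ x) = - f' x := hf'.1.2 x
        rw [h3, h4] at h1
        exact neg_injective h1
  -- the terms
  set a : ZMod p := 2 * (n : ZMod p) with ha
  have ha0 : a ≠ 0 := mul_ne_zero h2 hnp
  set F : (X → ZMod p) → ℝ := fun u => Real.exp (-(Real.pi ^ 2 * m / (4 * (n : ℝ) ^ 2 *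
    (p : ℝ) ^ 2) * ∑ x, (((u x).valMinAbs : ℤ) : ℝ) ^ 2)) with hF
  have hterm : ∀ v : κ → ZMod p,
      ∏ x : T, cw p (∑ k, v k * ((M x : ZMod p) * (b k : X → ZMod p) (x : PX X m).fst)) ≤
        F (a • ((b.equivFun.symm v : R) : X → ZMod p)) := by
    intro v
    set u : X → ZMod p := ((b.equivFun.symm v : R) : X → ZMod p) with hu
    have huR : u ∈ R := (b.equivFun.symm v : R).2
    have h3 : ∀ x : T, ∑ k, v k * ((M x : ZMod p) * (b k : X → ZMod p) (x : PX X m).fst) =
        (M x : ZMod p) * u (x : PX X m).fst := by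
      intro x
      rw [hu, Basis.equivFun_symm_apply, Submodule.coe_sum, Finset.sum_apply, mul_sum]
      refine sum_congr rfl fun k _ => ?_
      rw [Submodule.coe_smul, Pi.smul_apply, smul_eq_mul]
      ring
    have h4 : ∏ x : T, cw p (∑ k, v k * ((M x : ZMod p) * (b k : X → ZMod p) (x : PX X m).fst)) ≤
        ∏ x : T, Real.exp (-(Real.pi ^ 2 * ((((a * u (x : PX X m).fst).valMinAbs : ℤ) : ℝ) ^ 2) /
          (2 * (n : ℝ) ^ 2 * (p : ℝ) ^ 2))) := by
      refine prod_le_prod (fun x _ => cw_nonneg p _) fun x _ => ?_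
      rw [h3 x]
      exact hCos p (M x) n (u (x : PX X m).fst) hpodd hn (D.Mn _)
    refine h4.trans (le_of_eq ?_)
    rw [← Real.exp_sum, hF]
    congr 1
    set w : X → ℝ := fun y => (((a * u y).valMinAbs : ℤ) : ℝ) ^ 2 with hw
    have h5 : ∑ x : T, -(Real.pi ^ 2 * ((((a * u (x : PX X m).fst).valMinAbs : ℤ) : ℝ) ^ 2) /
          (2 * (n : ℝ) ^ 2 * (p : ℝ) ^ 2)) =
        -(Real.pi ^ 2 / (2 * (n : ℝ) ^ 2 * (p : ℝ) ^ 2) * ∑ x ∈ T, w x.fst) := by
      rw [← sum_coe_sort T (fun x => w x.fst), mul_sum, ← sum_neg_distrib]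
      refine sum_congr rfl fun x _ => ?_
      rw [hw]
      ring
    have h6 : ∑ x ∈ T, w x.fst = m * ∑ y ∈ T₀, w y := by
      rw [hTdef, sum_filter, sum_px, mul_sum, ← sum_subset (subset_univ T₀)]
      · refine sum_congr rfl fun y hy => ?_
        rw [sum_congr rfl fun t _ => if_pos hy]
        change ∑ t : ZMod m, w y = _
        rw [sum_const, card_univ, ZMod.card, nsmul_eq_mul]
      · intro y _ hy
        rw [sum_congr rfl fun t _ => if_neg hy, sum_const_zero]
    have h7 : ∑ y, w y = 2 * ∑ y ∈ T₀, w y := by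
      rw [sum_transversal (c := fun x : X => c • x) hcc hT₀, mul_sum]
      refine sum_congr rfl fun y _ => ?_
      have h8 : w (c • y) = w y := by
        rw [hw]
        change (((a * u (c • y)).valMinAbs : ℤ) : ℝ) ^ 2 = _
        rw [hRo u huR, mul_neg, valMinAbs_neg_sq]
      rw [h8]
      ring
    have h9 : ∑ x, ((((a • u) x).valMinAbs : ℤ) : ℝ) ^ 2 = 2 * ∑ y ∈ T₀, w y := h7
    rw [h5, h6, h9]
    ring
  have hsum : ∑ v : κ → ZMod p,
      ∏ x : T, cw p (∑ k, v k * ((M x : ZMod p) * (b k : X → ZMod p) (x : PX X m).fst)) ≤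
      ∑ u : R, F (u : X → ZMod p) := by
    refine (sum_le_sum fun v _ => hterm v).trans (le_of_eq ?_)
    have h3 := Equiv.sum_comp b.equivFun.symm.toEquiv (fun u : R => F (a • (u : X → ZMod p)))
    refine h3.trans ?_
    exact Equiv.sum_comp (LinearEquiv.smulOfNeZero (ZMod p) R a ha0).toEquiv
      (fun u : R => F (u : X → ZMod p))
  have hle' := mul_le_mul_of_nonneg_right (Nat.cast_le (α := ℝ).2 hle)
    (pow_nonneg hpR.le (finrank (ZMod p) R))
  exact hle'.trans (hcount.trans (mul_le_mul_of_nonneg_left hsum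
    (by positivity : (0 : ℝ) ≤ 2 ^ (m * g))))

end Pool.Agent.Q29.TE
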