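import Mathlib
import Pool.Agent.Q29.TE.Fourier

/-!
# The count with a large prime number
-/

set_option linter.unusedSectionVars false
set_option linter.unusedVariables false

namespace Pool.Agent.Q29.TE

open Finset Module Pool.Agent.TH170.MF Pool.Agent.TH170.QC Pool.Agent.TH170.GC Pool.Agent.TH170.QE
  Pool.Agent.Y1.KN Pool.Agent.Y248.KN

variable {G X : Type} [Group G] [Fintype G] [MulAction G X] [Fintype X] [DecidableEq X]
  [MulAction.IsPretransitive G X] {m n g : ℕ} [NeZero m] {M : PX X m → ℤ} {c : G}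

/-- The sign functions orthogonal to a space modulo `p`. -/
def orthR (p : ℕ) [Fact p.Prime] (M : PX X m → ℤ) (c : G)
    (R : Submodule (ZMod p) (X → ZMod p)) : Set (PX X m → ℤ) :=
  {f ∈ oddSigns (PX X m) (fun x => ((c, 1) : G × Multiplicative (ZMod m)) • x) |
      ∀ u ∈ R, ∑ x : PX X m, ((f x * M x : ℤ) : ZMod p) * u x.fst = 0}

theorem finite_orthR (p : ℕ) [Fact p.Prime] (M : PX X m → ℤ) (c : G)
    (R : Submodule (ZMod p) (X → ZMod p)) : (orthR p M c R).Finite :=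
  (finite_oddSigns _).subset fun f hf => hf.1

/-- The reduction of the orthogonality relations. -/
theorem cntO_le (p : ℕ) [Fact p.Prime] {S : Submodule ℚ (X → ℚ)}
    (hS : S ∈ MinInv G (fun x : X => c • x))
    (hfin : (redSpaces G p (fun x : X => c • x) S).Finite) :
    cntO M c S ≤ ∑ R ∈ hfin.toFinset, (orthR p M c R).ncard := by
  classical
  refine le_trans ?_ (Finset.set_ncard_biUnion_le _ _)
  refine Set.ncard_le_ncard ?_ (Set.Finite.biUnion (Finset.finite_toSet _)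
    fun R _ => finite_orthR p M c R)
  rintro f ⟨hf, S', hS', hK, horth⟩
  obtain ⟨h1, h2⟩ := homs_of_killers hS hS' hK.symm
  refine Set.mem_biUnion (x := redSpace p S') (hfin.mem_toFinset.2
    ⟨S', hS'.2.1, hS'.2.2.1, h1, h2, rfl⟩) ⟨hf, ?_⟩
  rintro _ ⟨u, hu, rfl⟩
  have h3 := horth _ hu
  have h4 : ∑ x : PX X m, (f x * M x) * u x.fst = 0 := by exact_mod_cast h3
  have h5 := congrArg (fun t : ℤ => (t : ZMod p)) h4
  push_cast at h5
  rw [← h5]
  exact sum_congr rfl fun x _ => by push_cast; ring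

/-- The Gauss function of a function modulo `p`. -/
noncomputable def gauss (p : ℕ) [Fact p.Prime] (b : ℝ) (u : X → ZMod p) : ℝ :=
  Real.exp (-(b * ∑ x, (((u x).valMinAbs : ℤ) : ℝ) ^ 2))

theorem gauss_pos (p : ℕ) [Fact p.Prime] (b : ℝ) (u : X → ZMod p) : 0 < gauss p b u :=
  Real.exp_pos _

open Classical in
/-- The nonzero small functions in a space. -/
noncomputable def smallPart (p : ℕ) [Fact p.Prime] (B : ℕ) (R : Submodule (ZMod p) (X → ZMod p)) :
    Finset (X → ZMod p) :=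
  univ.filter fun u => u ∈ R ∧ u ≠ 0 ∧ ∀ x, |(u x).valMinAbs| ≤ (B : ℤ)

theorem sum_gauss_space (p : ℕ) [Fact p.Prime] {b : ℝ} (hb : 0 ≤ b) (B : ℕ)
    (R : Submodule (ZMod p) (X → ZMod p)) [Fintype R] :
    ∑ u : R, gauss p b (u : X → ZMod p) ≤
      1 + (p : ℝ) ^ finrank (ZMod p) R * Real.exp (-(b * ((B : ℝ) + 1) ^ 2)) +
        ∑ u ∈ smallPart p B R, gauss p b u := by
  classical
  have h1 : ∑ u : R, gauss p b (u : X → ZMod p) =
      ∑ u ∈ univ.filter (fun u : X → ZMod p => u ∈ R), gauss p b u :=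
    (Finset.sum_subtype _ (fun u => by simp) (fun u => gauss p b u)).symm
  have hcard : (univ.filter (fun u : X → ZMod p => u ∈ R)).card = p ^ finrank (ZMod p) R := by
    have h2 : Fintype.card R = p ^ finrank (ZMod p) R := by
      rw [Module.card_eq_pow_finrank (K := ZMod p) (V := R), ZMod.card]
    rw [← h2, Fintype.card_of_subtype]
    intro u
    simp
  set A := univ.filter (fun u : X → ZMod p => u ∈ R) with hA
  set A₁ := A.filter (fun u => u = 0) with hA₁
  set A₂ := A.filter (fun u => u ≠ 0 ∧ ∀ x, |(u x).valMinAbs| ≤ (B : ℤ)) with hA₂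
  set A₃ := A.filter (fun u => ¬ ∀ x, |(u x).valMinAbs| ≤ (B : ℤ)) with hA₃
  have hsub : A ⊆ (A₁ ∪ A₃) ∪ A₂ := by
    intro u hu
    rw [mem_union, mem_union]
    by_cases h2 : u = 0
    · exact Or.inl (Or.inl (mem_filter.2 ⟨hu, h2⟩))
    · by_cases h3 : ∀ x, |(u x).valMinAbs| ≤ (B : ℤ)
      · exact Or.inr (mem_filter.2 ⟨hu, h2, h3⟩)
      · exact Or.inl (Or.inr (mem_filter.2 ⟨hu, h3⟩))
  have hg0 : ∀ u : X → ZMod p, 0 ≤ gauss p b u := fun u => (gauss_pos p b u).le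
  have hs1 : ∑ u ∈ A₁, gauss p b u ≤ 1 := by
    have h2 : ∀ u ∈ A₁, gauss p b u ≤ 1 := by
      intro u hu
      refine Real.exp_le_one_iff.2 ?_
      have : 0 ≤ b * ∑ x, (((u x).valMinAbs : ℤ) : ℝ) ^ 2 :=
        mul_nonneg hb (sum_nonneg fun _ _ => sq_nonneg _)
      linarith
    have h3 : A₁.card ≤ 1 := by
      rw [Finset.card_le_one]
      intro u hu v hv
      rw [(mem_filter.1 hu).2, (mem_filter.1 hv).2]
    calc ∑ u ∈ A₁, gauss p b u ≤ ∑ u ∈ A₁, (1 : ℝ) := sum_le_sum h2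
      _ = A₁.card := by rw [sum_const, nsmul_eq_mul, mul_one]
      _ ≤ 1 := by exact_mod_cast h3
  have hs3 : ∑ u ∈ A₃, gauss p b u ≤
      (p : ℝ) ^ finrank (ZMod p) R * Real.exp (-(b * ((B : ℝ) + 1) ^ 2)) := by
    have h2 : ∀ u ∈ A₃, gauss p b u ≤ Real.exp (-(b * ((B : ℝ) + 1) ^ 2)) := by
      intro u hu
      obtain ⟨x, hx⟩ := not_forall.1 (mem_filter.1 hu).2
      rw [not_le] at hx
      refine Real.exp_le_exp.2 (neg_le_neg (mul_le_mul_of_nonneg_left ?_ hb))
      have h3 : ((B : ℝ) + 1) ≤ |(((u x).valMinAbs : ℤ) : ℝ)| := by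
        have : (B : ℤ) + 1 ≤ |(u x).valMinAbs| := hx
        exact_mod_cast this
      calc ((B : ℝ) + 1) ^ 2 ≤ |(((u x).valMinAbs : ℤ) : ℝ)| ^ 2 :=
            pow_le_pow_left₀ (by positivity) h3 2
        _ = (((u x).valMinAbs : ℤ) : ℝ) ^ 2 := sq_abs _
        _ ≤ ∑ x, (((u x).valMinAbs : ℤ) : ℝ) ^ 2 :=
            single_le_sum (f := fun x => (((u x).valMinAbs : ℤ) : ℝ) ^ 2)
              (fun _ _ => sq_nonneg _) (mem_univ x)
    have h3 : A₃.card ≤ p ^ finrank (ZMod p) R := (card_filter_le _ _).trans hcard.le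
    calc ∑ u ∈ A₃, gauss p b u ≤ ∑ u ∈ A₃, Real.exp (-(b * ((B : ℝ) + 1) ^ 2)) := sum_le_sum h2
      _ = A₃.card * Real.exp (-(b * ((B : ℝ) + 1) ^ 2)) := by rw [sum_const, nsmul_eq_mul]
      _ ≤ _ := by
        refine mul_le_mul_of_nonneg_right ?_ (Real.exp_pos _).le
        exact_mod_cast h3
  have hA₂' : A₂ = smallPart p B R := by
    ext u
    rw [hA₂, hA, smallPart, mem_filter, mem_filter, mem_filter]
    simp only [mem_univ, true_and]
  have hun : ∀ s t : Finset (X → ZMod p), ∑ u ∈ s ∪ t, gauss p b u ≤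
      ∑ u ∈ s, gauss p b u + ∑ u ∈ t, gauss p b u := by
    intro s t
    rw [← sum_union_inter]
    have : 0 ≤ ∑ u ∈ s ∩ t, gauss p b u := sum_nonneg fun u _ => hg0 u
    linarith
  rw [h1]
  calc ∑ u ∈ A, gauss p b u ≤ ∑ u ∈ (A₁ ∪ A₃) ∪ A₂, gauss p b u :=
        sum_le_sum_of_subset_of_nonneg hsub fun u _ _ => hg0 u
    _ ≤ (∑ u ∈ A₁, gauss p b u + ∑ u ∈ A₃, gauss p b u) + ∑ u ∈ A₂, gauss p b u :=
        (hun _ _).trans (add_le_add_left (hun _ _) _)
    _ ≤ _ := by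
        rw [hA₂']
        linarith

theorem sum_small (hGauss : S_GAUSS) (hGram : S_GRAM) {p : ℕ} [Fact p.Prime]
    (hpG : ¬ p ∣ Nat.card G) {b : ℝ} (hb : 0 < b) {S : Submodule ℚ (X → ℚ)}
    (hS : S ∈ MinInv G (fun x : X => c • x)) (x₀ : X) {B : ℕ}
    (hB : (Fintype.card X).factorial * (Fintype.card X * B ^ 2) ^ Fintype.card X < p)
    (hfin : (redSpaces G p (fun x : X => c • x) S).Finite) :
    ∑ R ∈ hfin.toFinset, ∑ u ∈ smallPart p B R, gauss p b u ≤
      (1 + √(Real.pi / b)) ^ Fintype.card X := by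
  classical
  rw [sum_sigma']
  set Z := (hfin.toFinset.sigma fun R => smallPart (X := X) p B R).image
    (fun q => fun x => (q.2 x).valMinAbs) with hZ
  have hinj : Set.InjOn (fun q : (Σ _ : Submodule (ZMod p) (X → ZMod p), X → ZMod p) =>
      fun x => (q.2 x).valMinAbs)
      (hfin.toFinset.sigma fun R => smallPart (X := X) p B R) := by
    rintro ⟨R, u⟩ h1 ⟨R', u'⟩ h2 h
    rw [mem_coe, mem_sigma] at h1 h2
    obtain ⟨hR, hu⟩ := h1
    obtain ⟨hR', hu'⟩ := h2
    have huu : u = u' := by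
      funext x
      have h3 := congrFun h x
      dsimp only at h3
      rw [← ZMod.coe_valMinAbs (u x), ← ZMod.coe_valMinAbs (u' x), h3]
    subst huu
    have key : ∀ R₁ ∈ redSpaces G p (fun x : X => c • x) S, u ∈ smallPart p B R₁ →
        R₁ = Submodule.span (ZMod p)
          (Set.range fun (γ : G) (x : X) => (((u (γ • x)).valMinAbs : ℤ) : ZMod p)) := by
      intro R₁ hR₁ hu₁
      rw [smallPart, mem_filter] at hu₁
      obtain ⟨-, k1, k2, k3⟩ := hu₁
      refine eq_span hGram hpG hS x₀ hR₁ (z := fun x => (u x).valMinAbs) ?_ k3 hB ?_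
      · intro h0
        apply k2
        funext x
        have h4 : (u x).valMinAbs = 0 := congrFun h0 x
        rw [ZMod.valMinAbs_eq_zero] at h4
        exact h4
      · have h5 : (fun x => (((u x).valMinAbs : ℤ) : ZMod p)) = u := by
          funext x
          exact ZMod.coe_valMinAbs (u x)
        change (fun x => (((u x).valMinAbs : ℤ) : ZMod p)) ∈ R₁
        rw [h5]
        exact k1
    have hRR : R = R' := by
      rw [key R (hfin.mem_toFinset.1 hR) hu, key R' (hfin.mem_toFinset.1 hR') hu']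
    subst hRR
    rfl
  have h1 := hGauss X b Z hb
  rw [hZ, sum_image hinj] at h1
  exact h1

/-- The count with a large prime number. -/
theorem main_count (hCos : S_COS) (hGauss : S_GAUSS) (hGram : S_GRAM) {p : ℕ} [Fact p.Prime]
    (hp : p ≠ 2) (hpG : ¬ p ∣ Nat.card G) (hpn : ¬ p ∣ n) (D : PData G X m n g M c)
    {S : Submodule ℚ (X → ℚ)} (hS : S ∈ MinInv G (fun x : X => c • x)) (x₀ : X) {B : ℕ}
    (hB : (Fintype.card X).factorial * (Fintype.card X * B ^ 2) ^ Fintype.card X < p) {b : ℝ}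
    (hb : b = Real.pi ^ 2 * m / (4 * (n : ℝ) ^ 2 * (p : ℝ) ^ 2)) :
    (cntO M c S : ℝ) * (p : ℝ) ^ finrank ℚ S ≤
      2 ^ (m * g) * (((redSpaces G p (fun x : X => c • x) S).ncard : ℝ) *
        (1 + (p : ℝ) ^ finrank ℚ S * Real.exp (-(b * ((B : ℝ) + 1) ^ 2))) +
          (1 + √(Real.pi / b)) ^ Fintype.card X) := by
  classical
  have hfin : (redSpaces G p (fun x : X => c • x) S).Finite := Set.toFinite _
  have hpR : (0 : ℝ) < p := by exact_mod_cast (Fact.out : p.Prime).pos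
  have hnR : (0 : ℝ) < n := by exact_mod_cast Nat.pos_of_ne_zero D.n0
  have hmR : (0 : ℝ) < m := by exact_mod_cast Nat.pos_of_ne_zero (NeZero.ne m)
  have hb0 : 0 < b := by
    rw [hb]
    have := Real.pi_pos
    positivity
  have hrank : ∀ R ∈ redSpaces G p (fun x : X => c • x) S,
      finrank (ZMod p) R = finrank ℚ S := by
    rintro R ⟨S', hS', ho, h1, h2, rfl⟩
    rw [finrank_redSpace]
    obtain ⟨n, D, d, _, _, _, hd, ⟨π⟩⟩ := exists_fields p G hpG
    rw [finrank_eq_sum π x₀ hS', finrank_eq_sum π x₀ hS.2.1]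
    exact sum_congr rfl fun i _ => by rw [mult_eq π hpG x₀ hS.2.1 hS' h1 h2 i]
  have hodd : ∀ R ∈ redSpaces G p (fun x : X => c • x) S, ∀ u ∈ R, ∀ x, u (c • x) = - u x := by
    rintro R ⟨S', hS', ho, h1, h2, rfl⟩ _ ⟨w, hw, rfl⟩ x
    have h3 : ((w (c • x) : ℤ) : ℚ) = - ((w x : ℤ) : ℚ) := ho _ hw x
    have h4 : w (c • x) = - w x := by exact_mod_cast h3
    change ((w (c • x) : ℤ) : ZMod p) = - ((w x : ℤ) : ZMod p)
    rw [h4]
    push_cast
    rfl
  have hone : ∀ R ∈ hfin.toFinset, ((orthR p M c R).ncard : ℝ) * (p : ℝ) ^ finrank ℚ S ≤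
      2 ^ (m * g) * (1 + (p : ℝ) ^ finrank ℚ S * Real.exp (-(b * ((B : ℝ) + 1) ^ 2)) +
        ∑ u ∈ smallPart p B R, gauss p b u) := by
    intro R hR
    have hR' := hfin.mem_toFinset.1 hR
    have hft : Fintype R := Fintype.ofFinite _
    have h1 := ncard_orth hCos hp D hpn R (hodd R hR')
    rw [hrank R hR'] at h1
    refine h1.trans (mul_le_mul_of_nonneg_left ?_ (by positivity))
    have h2 := sum_gauss_space p hb0.le B R
    rw [hrank R hR'] at h2
    refine le_trans (le_of_eq ?_) h2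
    refine sum_congr rfl fun u _ => ?_
    rw [gauss, hb]
  have h3 : (cntO M c S : ℝ) ≤ ∑ R ∈ hfin.toFinset, ((orthR p M c R).ncard : ℝ) := by
    exact_mod_cast cntO_le p hS hfin
  calc (cntO M c S : ℝ) * (p : ℝ) ^ finrank ℚ S ≤
      (∑ R ∈ hfin.toFinset, ((orthR p M c R).ncard : ℝ)) * (p : ℝ) ^ finrank ℚ S :=
        mul_le_mul_of_nonneg_right h3 (by positivity)
    _ = ∑ R ∈ hfin.toFinset, ((orthR p M c R).ncard : ℝ) * (p : ℝ) ^ finrank ℚ S := sum_mul _ _ _
    _ ≤ ∑ R ∈ hfin.toFinset, 2 ^ (m * g) * (1 + (p : ℝ) ^ finrank ℚ S *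
          Real.exp (-(b * ((B : ℝ) + 1) ^ 2)) + ∑ u ∈ smallPart p B R, gauss p b u) :=
        sum_le_sum hone
    _ = 2 ^ (m * g) * ((hfin.toFinset.card : ℝ) * (1 + (p : ℝ) ^ finrank ℚ S *
          Real.exp (-(b * ((B : ℝ) + 1) ^ 2))) +
          ∑ R ∈ hfin.toFinset, ∑ u ∈ smallPart p B R, gauss p b u) := by
        rw [← mul_sum, sum_add_distrib, sum_const, nsmul_eq_mul]
    _ ≤ _ := by
        rw [← Set.ncard_eq_toFinset_card _ hfin]
        refine mul_le_mul_of_nonneg_left (add_le_add_right ?_ _) (by positivity)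
        exact sum_small hGauss hGram hpG hb0 hS x₀ hB hfin

end Pool.Agent.Q29.TE
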