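import Mathlib
import Pool.Agent.Q29.TE.Small

/-!
# Statements of the lemma jobs of project TE, second part (owner helper29)

Each statement `S_X` is to be proved as `theorem t_X : Pool.Agent.Q29.TE.S_X`.
-/

set_option linter.unusedVariables false

namespace Pool.Agent.Q29.TE

open Finset Module NumberField Pool.Agent.H204R3.CM Pool.Agent.TH170.MF Pool.Agent.TH170.QC
  Pool.Agent.TH170.QE Pool.Agent.TH170.FW Pool.Agent.TH170.GC Pool.Agent.Y1.KN Pool.Agent.Q29.TD

/-- **NORMAL**. If the stabilizers of the embeddings of `F` are trivial then `F` is normal over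
`ℚ`. Proof: let `ψ, ψ'` be embeddings and `x ∈ F`; we show `ψ' x ∈ range ψ` (then `F` is normal: all
conjugates of `x` in `ℂ` are in `ψ F`). Each automorphism `σ` of `ℂ` that fixes `range ψ` gives an
element of `Gal F` in the stabilizer of `ψ` (`exists_gal_smul`), so the identity, so `σ` fixes
`range ψ'`. An element of `ℂ` algebraic over `ψ F` which is fixed by all automorphisms of `ℂ` over
`ψ F` is in `ψ F`. See `Pool.Agent.Y275.KN` (`exists_iso`: `Gal E` is the group of the
automorphisms of the normal closure `NN E`), used in `Pool.Agent.Y281.KN.corr`. -/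
def S_NORMAL : Prop :=
  ∀ (F : Type) [Field F] [NumberField F],
    (∀ ψ : F →+* ℂ, Nat.card (MulAction.stabilizer (Gal F) ψ) = 1) → Normal ℚ F

/-- **IDX**. The degree of the field of a subgroup of `Gal E` is its index: `γ ↦ (γ • φ₀)|F` is a map
from `Gal E` onto the embeddings of `F` (`Gal E` is transitive on the embeddings of `E`, every
embedding of `F` extends), and `γ, γ'` have the same image if and only if `γ⁻¹ γ' ∈ U`
(`gal_smul`). -/
def S_IDX : Prop :=
  ∀ (E : Type) [Field E] [NumberField E] (F : IntermediateField ℚ E) (φ₀ : E →+* ℂ)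
    (U : Subgroup (Gal E)), (∀ γ : Gal E, γ ∈ U ↔ ∀ x ∈ F, (γ • φ₀) x = φ₀ x) →
    finrank ℚ F = U.index

/-- **TWO** (finite groups of rational matrices of size two). `G` acts transitively on `X` and
faithfully on the minimal space `S` of dimension 2, `edim + codimFix = 2`. Then `X` has 4 or 6
elements.

Proof. Let `H` be the stabilizer of `x₀`, `h` the dimension of the fixed part, `e = edim`:
`1 ≤ e ≤ h ≤ 2` (`edim_pos`, `edim_le`) and `e + (2 - h) = 2`, so `(e, h) = (1, 1)` or `(2, 2)`;
`c` acts on `S` by `-1`. The elements of `G` act on `S` faithfully, preserving the positive definite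
form `dot X`; so the determinant of each is `1` or `-1`, an element of prime order `p` has
`p - 1 ≤ 2` (`Pool.Agent.Y674.KN.end_order`); an element `γ` of determinant 1 has
`γ ^ 2 = t γ - 1` with `t` rational and an integer (trace of an element of finite order), `|t| ≤ 2`,
so its order is 1, 2, 3, 4 or 6, and order 2 only for `c` (`t = ±2` implies `γ = ±1` by finite
order).
 `(2, 2)`: all of `S` is fixed by `H`, so `H = 1` by faithfulness and `|X| = |G|`. The commutant of
`G` on `S` has dimension 2, and is a division algebra, so there is `A` in it, not a scalar; the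
matrices commuting with `A` are `ℚ + ℚ A`; so `G` is commutative, a finite subgroup of the field
`ℚ[A]`, so cyclic, and its generator has order `n` with `φ(n) ≤ 2`; `c ∈ G` is of order 2, so `n` is
2, 4 or 6; `n = 2` would make every line invariant, so `n = 4` or `6`.
 `(1, 1)`: an element of `H` fixes a vector of `S` and preserves the form, so it acts by
`diag(1, ±1)`; by faithfulness `|H| ≤ 2`; `|H| = 1` would give `h = 2`. So `H = {1, r}`,
`det r = -1`. Let `R` be the subgroup of the elements of determinant 1, `[G : R] = 2`. `R` is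
commutative (rotations), and contains `c`, its only element of order 2, and elements of order 1, 2,
3, 4, 6 only; so `R` is cyclic of order 2, 4 or 6 (or: a commutative group with one element of order
2, at most two elements of order 3 (`t = -1` and commuting), and at most two of order 4). `|R| = 2`
gives `|G| = 4`, commutative, and a commutative group with `r` in it has an invariant line. So
`|X| = |G| / 2 = |R|` is 4 or 6. -/
def S_TWO : Prop :=
  ∀ (G X : Type) [Group G] [Fintype G] [MulAction G X] [Fintype X] [DecidableEq X]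
    [MulAction.IsPretransitive G X] (c : G), c * c = 1 → (∀ x, c * x = x * c) →
    (∀ x : X, c • x ≠ x) → ∀ S ∈ MinInv G (fun x : X => c • x), Faith G S → finrank ℚ S = 2 →
    ∀ x₀ : X, edim G S + codimFix G x₀ S = 2 → Fintype.card X = 4 ∨ Fintype.card X = 6

/-- **SMALL2**. The variant of `S_SMALL` (proved in `Q29/TE/Small.lean` as `small_bound`) with
`2 ≤ finrank ℚ S` and the bound `O (1 / m)`: in `num_small` take `W = 1`, the first term is
`2 ^ B / p ^ 2 ≤ 2 ^ B / m`, the third (now with `p ^ 2` in place of `p ^ 3`) is at most `K / m`. To be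
proved as `theorem t_SMALL2 (hCos : S_COS) (hGauss : S_GAUSS) (hGram : S_GRAM) : S_SMALL2`. -/
def S_SMALL2 : Prop :=
  ∀ (B n : ℕ), ∃ (C : ℝ) (m₀ : ℕ), 0 ≤ C ∧ ∀ (G X : Type) [Group G] [Fintype G] [MulAction G X]
    [Fintype X] [DecidableEq X] [MulAction.IsPretransitive G X] (m g : ℕ) [NeZero m]
    (M : PX X m → ℤ) (c : G), PData G X m n g M c → Nat.card G ≤ B → m₀ ≤ m →
    ∀ S ∈ MinInv G (fun x : X => c • x), ∀ x₀ : X, 2 ≤ finrank ℚ S →
    2 ≤ edim G S + codimFix G x₀ S → (cntO M c S : ℝ) ≤ 2 ^ (m * g) * (C / m)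

/-- **LIM**. Three limits. -/
def S_LIM : Prop :=
  (∀ n : ℕ, ∃ g₀ : ℕ, ∀ g d : ℕ, g₀ ≤ g → 1 ≤ d → d ^ 2 ≤ 2 * g →
    (10 ^ 4 + 10 * Real.log (4 * g * n)) ^ 2 * Real.log (4 * d) * d ≤ 4 * g) ∧
  (∀ (C ε : ℝ) (k : ℕ), 0 < ε → ∃ g₀ : ℕ, ∀ g : ℕ, g₀ ≤ g →
    C * ((1 + Real.log g) ^ k / √g) ≤ ε) ∧
  (∀ ε : ℝ, 0 < ε → ∃ D₀ : ℕ, 3 ≤ D₀ ∧ ∀ d : ℕ, D₀ ≤ d → Real.log (4 * d) ≤ ε * d)

end Pool.Agent.Q29.TE
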