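import Mathlib
import Pool.Agent.H977R3.CM.Defs

/-!
# Properties of slope types for almost all slope types of all CM fields of given degrees

In all definitions `Q p ν I K M Φ` is a property of the families of slope types `Φ i` of CM fields
`K i` with the weights `M i`.
-/

set_option autoImplicit false

namespace Pool.Agent.Q29.TE

open NumberField Module Filter Topology Pool.Agent.H204R3.CM Pool.Agent.H977R3.CM

/-- A property of families of slope types. -/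
abbrev TypeProperty : Type 1 :=
  ∀ (p : ℕ) (_ : Fact p.Prime) (_ : PadicAlgCl p ≃+* ℂ) (I : Type) (_ : Fintype I) (K : I → Type)
    (_ : ∀ i, Field (K i)) (_ : ∀ i, NumberField (K i)) (_ : ∀ i, IsCMField (K i))
    (_ : ∀ i, (K i →+* ℂ) → ℤ) (_ : ∀ i, Set (K i →+* ℂ)), Prop

/-- The square divisors of `g` are small: `q ^ 2 ∣ g` implies `q ^ k ≤ g`. -/
def SquaresLE (k g : ℕ) : Prop := ∀ q : ℕ, q ^ 2 ∣ g → q ^ k ≤ g

/-- **Almost all numbers `g`** have only small square divisors, with a power saving. -/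
def AlmostAllDegrees : Prop :=
  ∀ k : ℕ, 2 ≤ k → ∀ x : ℕ, 1 ≤ x →
    (({g : ℕ | g ≤ x ∧ ¬ SquaresLE k g}.ncard : ℕ) : ℝ) ≤ 4 * (x : ℝ) ^ (1 - 1 / (k : ℝ))

/-- The smooth parts of `g` are small: a divisor `q` of `g` all of whose prime factors are at most
`y` satisfies `q (1 + log g) ^ 3 ≤ √(g y ^ 3)`. -/
def SmallSmoothParts (g : ℕ) : Prop :=
  ∀ y q : ℕ, 2 ≤ y → q ∣ g → (∀ p : ℕ, p.Prime → p ∣ q → p ≤ y) →
    (q : ℝ) * (1 + Real.log g) ^ 3 ≤ √(g * (y : ℝ) ^ 3)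

/-- The subfields of `K` that are normal over `ℚ` are contained in a subfield of degree at most
`√g / (1 + log g) ^ 2`. -/
def SmallNormalPart (K : Type) [Field K] [NumberField K] (g : ℕ) : Prop :=
  ∃ L : IntermediateField ℚ K, (∀ F : IntermediateField ℚ K, Normal ℚ F → F ≤ L) ∧
    (finrank ℚ L : ℝ) * (1 + Real.log g) ^ 2 ≤ √g

/-- The conditions on a CM field `K` of degree `2 g`: `g ≥ u`; `g` is odd, or the smooth parts of `g`
are small, or the subfields of `K` that are normal over `ℚ` are small; and the part of `g` composed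
of the primes `2` and `3` is at most `g / u`, or `K` has at most `g / u` CM subfields of degree 4
or 6. -/
def Typical (u : ℕ) (K : Type) [Field K] [NumberField K] (g : ℕ) : Prop :=
  u ≤ g ∧ (Odd g ∨ SmallSmoothParts g ∨ SmallNormalPart K g) ∧
    ((∀ a b : ℕ, 2 ^ a * 3 ^ b ∣ g → 2 ^ a * 3 ^ b * u ≤ g) ∨
      {F : IntermediateField ℚ K | IsCMField F ∧ (finrank ℚ F = 4 ∨ finrank ℚ F = 6)}.ncard * u ≤ g)

variable (Q : TypeProperty)

/-- **Almost all slope types of all CM fields of almost all degrees.** For every `k ≥ 1`, `ε > 0`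
there is a `C` such that for all pairwise independent CM fields `K i` of degrees `2 g i`, where the
`g i` have only small square divisors (`q ^ 2 ∣ g` implies `q ^ k ≤ g`), and all weights `M i` with
values dividing `n i`, the property `Q` is false for at most
`2 ^ (∑ g i) * ∑ C (n i) ^ 2 (g i) ^ (6 / k - 1/4 + ε)` of the `2 ^ (∑ g i)` families of types. -/
def AlmostAllTypes : Prop :=
  ∀ (k : ℕ) (ε : ℝ), 1 ≤ k → 0 < ε → ∃ C : ℝ, 0 ≤ C ∧ ∀ (p : ℕ) [hp : Fact p.Prime]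
    (ν : PadicAlgCl p ≃+* ℂ) (I : Type) [hI : Fintype I] (K : I → Type) [hK : ∀ i, Field (K i)]
    [hN : ∀ i, NumberField (K i)] [hC : ∀ i, IsCMField (K i)]
    (M : ∀ i, (K i →+* ℂ) → ℤ) (n g : I → ℕ), PairwiseIndep K →
    (∀ i φ, M i (ComplexEmbedding.conjugate φ) = M i φ) → (∀ i, n i ≠ 0) →
    (∀ i φ, M i φ ∣ (n i : ℤ)) → (∀ i, finrank ℚ (K i) = 2 * g i) →
    (∀ i, SquaresLE k (g i)) →
    (({Φ : ∀ i, Set (K i →+* ℂ) |
      (∀ i, IsCMType (Φ i)) ∧ ¬ Q p hp ν I hI K hK hN hC M Φ}.ncard : ℕ) : ℝ) ≤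
      2 ^ (∑ i, g i) * ∑ i, C * (n i : ℝ) ^ 2 * (g i : ℝ) ^ (6 / (k : ℝ) - 1 / 4 + ε)

/-- **The bound for all degrees** `2 g`, `4 g = s t`, with `t` squarefree and coprime to `s`. -/
def ExplicitBound : Prop :=
  ∃ C : ℝ, 0 ≤ C ∧ ∀ (p : ℕ) [hp : Fact p.Prime] (ν : PadicAlgCl p ≃+* ℂ)
    (I : Type) [hI : Fintype I] (K : I → Type) [hK : ∀ i, Field (K i)]
    [hN : ∀ i, NumberField (K i)] [hC : ∀ i, IsCMField (K i)]
    (M : ∀ i, (K i →+* ℂ) → ℤ) (n g s t : I → ℕ), PairwiseIndep K →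
    (∀ i φ, M i (ComplexEmbedding.conjugate φ) = M i φ) → (∀ i, n i ≠ 0) →
    (∀ i φ, M i φ ∣ (n i : ℤ)) → (∀ i, finrank ℚ (K i) = 2 * g i) →
    (∀ i, 4 * g i = s i * t i) → (∀ i, (s i).Coprime (t i)) → (∀ i, Squarefree (t i)) →
    (({Φ : ∀ i, Set (K i →+* ℂ) |
      (∀ i, IsCMType (Φ i)) ∧ ¬ Q p hp ν I hI K hK hN hC M Φ}.ncard : ℕ) : ℝ) ≤
      2 ^ (∑ i, g i) * ∑ i, C * (n i : ℝ) ^ 2 * ((1 + Real.log (2 * g i)) ^ 16 *
        ((t i).divisors.card : ℝ) ^ 2 * (s i : ℝ) ^ 2 / (g i : ℝ) ^ (1 / 4 : ℝ))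

/-- **Almost all slope types of typical CM fields**, of any degree: for all `n`, `ε > 0` there is a
`u` such that for all pairwise independent CM fields `K i` of degrees `2 g i` that satisfy `Typical u`
(for instance all CM fields of degree `2 g` with `g` odd and prime to `3`, `g ≥ u`) and all weights
with values dividing `n`, the property `Q` is false for at most `|I| ε 2 ^ (∑ g i)` of the
`2 ^ (∑ g i)` families of types. -/
def TypicalFields : Prop :=
  ∀ (n : ℕ) (ε : ℝ), n ≠ 0 → 0 < ε → ∃ u : ℕ, ∀ (p : ℕ) [hp : Fact p.Prime]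
    (ν : PadicAlgCl p ≃+* ℂ) (I : Type) [hI : Fintype I] (K : I → Type) [hK : ∀ i, Field (K i)]
    [hN : ∀ i, NumberField (K i)] [hC : ∀ i, IsCMField (K i)]
    (M : ∀ i, (K i →+* ℂ) → ℤ) (g : I → ℕ), PairwiseIndep K →
    (∀ i φ, M i (ComplexEmbedding.conjugate φ) = M i φ) →
    (∀ i φ, M i φ ∣ (n : ℤ)) → (∀ i, finrank ℚ (K i) = 2 * g i) →
    (∀ i, Typical u (K i) (g i)) →
    (({Φ : ∀ i, Set (K i →+* ℂ) |
      (∀ i, IsCMType (Φ i)) ∧ ¬ Q p hp ν I hI K hK hN hC M Φ}.ncard : ℕ) : ℝ) ≤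
      2 ^ (∑ i, g i) * (Fintype.card I * ε)

end Pool.Agent.Q29.TE
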