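import Mathlib
import Pool.Agent.Q29.TE.Stm2

/-!
# The degree of the field of a subgroup
-/

set_option linter.unusedSectionVars false
set_option linter.unusedVariables false

namespace Pool.Agent.Q29.TE

open Finset Module NumberField Pool.Agent.H204R3.CM Pool.Agent.TH170.MF Pool.Agent.TH170.QC
  Pool.Agent.TH170.QE Pool.Agent.TH170.FW Pool.Agent.TH170.GC Pool.Agent.Y1.KN Pool.Agent.Q29.TD

/-- The degree of the field of a subgroup is its index. -/
theorem idx : S_IDX := by
  classical
  intro E _ _ F φ₀ U hU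
  let f : Gal E → (F →+* ℂ) := fun γ => (γ • φ₀).comp (algebraMap F E)
  have hf : ∀ a b : Gal E, f a = f b ↔ a⁻¹ * b ∈ U := by
    intro a b
    obtain ⟨σ, hσ⟩ := gal_smul E a
    have h1 : b • φ₀ = (σ : ℂ →+* ℂ).comp ((a⁻¹ * b) • φ₀) := by
      rw [← hσ, ← mul_smul, mul_inv_cancel_left]
    rw [hU]
    constructor
    · intro h x hx
      have h2 : (a • φ₀) x = (b • φ₀) x := RingHom.congr_fun h ⟨x, hx⟩
      rw [h1, hσ, RingHom.comp_apply, RingHom.comp_apply] at h2
      exact (σ.injective h2).symm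
    · intro h
      refine RingHom.ext fun x => ?_
      change (a • φ₀) (x : E) = (b • φ₀) (x : E)
      rw [h1, hσ, RingHom.comp_apply, RingHom.comp_apply, h x x.2]
  let F' : Gal E ⧸ U → (F →+* ℂ) := Quotient.lift f fun a b hab =>
    (hf a b).2 (QuotientGroup.leftRel_apply.1 hab)
  have hbij : Function.Bijective F' := by
    constructor
    · intro x y hxy
      obtain ⟨a, rfl⟩ := QuotientGroup.mk_surjective x
      obtain ⟨b, rfl⟩ := QuotientGroup.mk_surjective y
      exact QuotientGroup.eq.2 ((hf a b).1 hxy)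
    · intro ψ
      obtain ⟨φ, rfl⟩ : ∃ φ : E →+* ℂ, φ.comp (algebraMap F E) = ψ := by
        let _ : Algebra F ℂ := ψ.toAlgebra
        let g : E →ₐ[F] ℂ := IsAlgClosed.lift
        exact ⟨g, g.comp_algebraMap⟩
      obtain ⟨a, rfl⟩ := MulAction.exists_smul_eq (Gal E) φ₀ φ
      exact ⟨QuotientGroup.mk a, rfl⟩
  have h1 : Nat.card (Gal E ⧸ U) = Nat.card (F →+* ℂ) := Nat.card_eq_of_bijective F' hbij
  have h2 : Nat.card (F →+* ℂ) = finrank ℚ F := by
    rw [Nat.card_eq_fintype_card, Embeddings.card]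
  exact (h1.trans h2).symm

end Pool.Agent.Q29.TE
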