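import Mathlib
import Pool.Agent.Y1.KN.All
import Pool.Agent.Q29.TE.Stm

/-!
# The bound for spaces of codimension at least three
-/

set_option linter.unusedSectionVars false
set_option linter.unusedVariables false

namespace Pool.Agent.Q29.TE

open Finset Module Pool.Agent.TH170.MF Pool.Agent.TH170.QC Pool.Agent.TH170.QE Pool.Agent.TH170.FW
  Pool.Agent.TH170.GC Pool.Agent.Y1.KN

/-- The bound for the faithful spaces of codimension at least three, in terms of the degree of the
large field. -/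
def P_faith4 : Prop :=
  ∃ C : ℝ, 0 ≤ C ∧ ∀ (G X : Type) [Group G] [Fintype G] [MulAction G X] [Fintype X]
    [DecidableEq X] [MulAction.IsPretransitive G X] (m n g : ℕ) [NeZero m] (M : PX X m → ℤ)
    (c : G), PData G X m n g M c → ∀ S ∈ MinInv G (fun x : X => c • x), ∀ x₀ : X, Faith G S →
    3 ≤ edim G S + codimFix G x₀ S →
    (cntO M c S : ℝ) ≤
      2 ^ (m * g) * (C * (n : ℝ) ^ 4 *
        (finrank ℚ (fixedPart G x₀ S) * finrank ℚ S / (edim G S * (m * g))) *
          ((1 + Real.log (m * g)) ^ 21 / √(m * g)))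

theorem faith4 (hNum : S_NUM) : P_faith4 := by
  classical
  obtain ⟨C₃, hC₃0, hC₃⟩ := faith3_holds
  obtain ⟨C, hC0, hC⟩ := hNum C₃ hC₃0
  refine ⟨C, hC0, ?_⟩
  intro G X _ _ _ _ _ _ m n g _ M c D S hS x₀ hf hc3
  obtain ⟨hg1, -, hd1, hdg, -, -⟩ := basicsW (n := 1) one_ne_zero D.cc D.free D.card hS x₀
  have hhd : finrank ℚ (fixedPart G x₀ S) ≤ finrank ℚ S := Submodule.finrank_mono fun u hu => hu.1
  have he1 : 0 < edim G S := edim_pos hS.1
  have heh : edim G S ≤ finrank ℚ (fixedPart G x₀ S) := edim_le D.cc D.cen x₀ hS.2.1 hS.2.2.1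
  have hm1 : 1 ≤ m := Nat.one_le_iff_ne_zero.2 (NeZero.ne m)
  have hpow : (0 : ℝ) < 2 ^ (m * g) := by positivity
  have hn1 : 1 ≤ n := Nat.pos_of_ne_zero D.n0
  have hsub := cntO_le_cntP Pool.Agent.Y304.KN.prod M c hS x₀
  set N : ℝ := (cntO M c S : ℝ) / 2 ^ (m * g) with hNdef
  have hN1 : N ≤ 1 := by
    rw [hNdef, div_le_one hpow]
    refine (Nat.cast_le.2 hsub).trans ?_
    obtain ⟨p1, -⟩ := Pool.Agent.Y304.KN.prod G X c m x₀ S hS
    exact ncard_class_le_two_pow M D.cc' D.free' D.card' _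
  have key := hC g m (finrank ℚ S) (finrank ℚ (fixedPart G x₀ S)) (edim G S)
    (edim G S + codimFix G x₀ S) n (Nat.card G) N hn1 hm1
    (he1.trans_le heh) hhd hdg he1 heh (fixed_mul_le mult_holds D.cc D.free D.cen D.card hS x₀)
    rfl hc3
    (by
      have h5 := card_stab_mul (G := G) D.card x₀
      have h6 : 0 < Nat.card (MulAction.stabilizer G x₀) := Nat.card_pos
      nlinarith)
    (card_le_of_faith hf D.card)
    (fun b hb => by
      have h4 := base_holds G X c S hS x₀ hf b hb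
      rwa [D.card] at h4)
    hN1
    (by
      rw [hNdef, div_le_iff₀' hpow]
      exact Pool.Agent.Y417.KN.genB Pool.Agent.Y248.KN.gen G X m n g M c D S hS x₀)
    (fun P hP1 hP2 => by
      rw [hNdef, div_le_iff₀' hpow]
      exact Pool.Agent.Y417.KN.genP Pool.Agent.Y248.KN.gen G X m n g M c D S hS x₀ P hP1 hP2)
    (by
      rw [hNdef, div_le_iff₀' hpow]
      refine (hC₃ G X m n g M c D S hS x₀ hf (Or.inl hc3)).trans (le_of_eq ?_)
      ring)
  rw [hNdef, div_le_iff₀' hpow] at key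
  exact key

end Pool.Agent.Q29.TE
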