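import Mathlib
import Pool.Agent.Q29.TD.Total
import Pool.Agent.Q29.TE.Faith4
import Pool.Agent.Q29.TE.Stm2
import Pool.Agent.Y778.KN.Mink
import Pool.Agent.Y674.KN.Order

/-!
# The estimates for one component
-/

set_option linter.unusedSectionVars false
set_option linter.unusedVariables false

namespace Pool.Agent.Q29.TE

open NumberField Finset Module Pool.Agent.H204R3.CM Pool.Agent.TH170.MF Pool.Agent.TH170.QC
  Pool.Agent.TH170.QE Pool.Agent.TH170.FW Pool.Agent.TH170.CM Pool.Agent.TH170.GC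
  Pool.Agent.Y1.KN Pool.Agent.Q29.TD

/-- The number of the types orthogonal to some space isomorphic to `S`. -/
noncomputable def cnt {E : Type} [Field E] [NumberField E] (M : (E →+* ℂ) → ℤ)
    (S : Submodule ℚ ((E →+* ℂ) → ℚ)) : ℕ :=
  {Φ : Set (E →+* ℂ) | IsCMType Φ ∧ ∃ S' ∈ minimalSpaces E,
    component S' = component S ∧ OrthW M Φ S'}.ncard

/-- The constants and the auxiliary bound used in the estimates. -/
structure Consts where
  /-- The constant of the bound for codimension at least three. -/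
  C : ℝ
  /-- The constant of the bound for codimension at most two. -/
  K : ℝ
  C0 : 0 ≤ C
  K1 : 1 ≤ K
  hC : ∀ (G X : Type) [Group G] [Fintype G] [MulAction G X] [Fintype X]
    [DecidableEq X] [MulAction.IsPretransitive G X] (m n g : ℕ) [NeZero m] (M : PX X m → ℤ)
    (c : G), PData G X m n g M c → ∀ S ∈ MinInv G (fun x : X => c • x), ∀ x₀ : X, Faith G S →
    3 ≤ edim G S + codimFix G x₀ S →
    (cntO M c S : ℝ) ≤
      2 ^ (m * g) * (C * (n : ℝ) ^ 4 *
        (finrank ℚ (fixedPart G x₀ S) * finrank ℚ S / (edim G S * (m * g))) *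
          ((1 + Real.log (m * g)) ^ 21 / √(m * g)))
  hK : ∀ (g m d c n Gc : ℕ) (N : ℝ), 1 ≤ n → 1 ≤ m → 1 ≤ d → 1 ≤ g →
      d ^ 2 ≤ 2 * g → 1 ≤ Gc → Gc ≤ 4 * g → N ≤ 1 →
      N ≤ boundB (m * g) d c (Real.log ((Gc * n : ℕ) : ℝ)) →
      N ≤ √(K * (n : ℝ) ^ 2 * (1 + Real.log g) ^ 3 * d / (m * g)) ^ c

theorem exists_consts (hNum : S_NUM) : Nonempty Consts := by
  obtain ⟨C, hC0, hC⟩ := faith4 hNum
  obtain ⟨K, hK1, hK⟩ := Pool.Agent.Y73.KN.num7
  exact ⟨⟨C, K, hC0, hK1, hC, hK⟩⟩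

/-- The bound for groups of bounded order, with fixed parameters. -/
def SmallBound (B n m₀ : ℕ) (ε : ℝ) : Prop :=
  ∀ (G X : Type) [Group G] [Fintype G] [MulAction G X]
    [Fintype X] [DecidableEq X] [MulAction.IsPretransitive G X] (m g : ℕ) [NeZero m]
    (M : PX X m → ℤ) (c : G), PData G X m n g M c → Nat.card G ≤ B → m₀ ≤ m →
    ∀ S ∈ MinInv G (fun x : X => c • x), ∀ x₀ : X, 3 ≤ finrank ℚ S →
    2 ≤ edim G S + codimFix G x₀ S → (cntO M c S : ℝ) ≤ 2 ^ (m * g) * (ε / m)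

/-- The bound for groups of bounded order and dimension two, with fixed parameters. -/
def SmallBound2 (B n m₀ : ℕ) (C : ℝ) : Prop :=
  ∀ (G X : Type) [Group G] [Fintype G] [MulAction G X]
    [Fintype X] [DecidableEq X] [MulAction.IsPretransitive G X] (m g : ℕ) [NeZero m]
    (M : PX X m → ℤ) (c : G), PData G X m n g M c → Nat.card G ≤ B → m₀ ≤ m →
    ∀ S ∈ MinInv G (fun x : X => c • x), ∀ x₀ : X, 2 ≤ finrank ℚ S →
    2 ≤ edim G S + codimFix G x₀ S → (cntO M c S : ℝ) ≤ 2 ^ (m * g) * (C / m)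

/-- The numbers that belong to a minimal space, and the estimates. -/
structure Est (κ : Consts) {E : Type} [Field E] [NumberField E] [IsCMField E] (φ₀ : E →+* ℂ)
    (M : (E →+* ℂ) → ℤ) (n g : ℕ) (S : Submodule ℚ ((E →+* ℂ) → ℚ))
    (F : IntermediateField ℚ E) (d e h c gF m : ℕ) : Prop where
  home : F ∈ homeFields S
  cm : IsCMField F
  deg : finrank ℚ F = 2 * gF
  mul : g = m * gF
  dim : finrank ℚ S = d
  e1 : 1 ≤ e
  eh : e ≤ h
  hd : h ≤ d
  ceq : c = e + (d - h)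
  hE : h ≤ finrank ℚ (Pool.Agent.TH170.QC.fixedPart (Gal E) φ₀ S)
  eE : edim (Gal E) S ≤ e
  three : 3 ≤ c → (cnt M S : ℝ) ≤ 2 ^ g * (κ.C * (n : ℝ) ^ 4 * (h * d / (e * g)) *
    ((1 + Real.log g) ^ 21 / √g))
  rel : c ≤ 2 → (ker0 (Gal E) S).relIndex (MulAction.stabilizer (Gal E) φ₀) ≤ 2
  sq : c ≤ 2 → d ^ 2 ≤ 2 * gF
  two : c ≤ 2 → (cnt M S : ℝ) ≤ 2 ^ g * √(κ.K * (n : ℝ) ^ 2 * (1 + Real.log g) ^ 3 * d / g) ^ c
  two' : c ≤ 2 → (10 ^ 4 + 10 * Real.log (4 * g * n)) ^ 2 * Real.log (4 * d) * d ≤ 4 * g →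
    (cnt M S : ℝ) ≤ 2 ^ g * √(32 * Real.log (4 * d) * d / g) ^ c
  small : ∀ (B m₀ : ℕ) (ε : ℝ), SmallBound B n m₀ ε → 2 ≤ c → c ≤ 2 → 3 ≤ d → 4 * gF ≤ B →
    m₀ ≤ m → (cnt M S : ℝ) ≤ 2 ^ g * (ε / m)
  small2 : ∀ (B m₀ : ℕ) (C : ℝ), SmallBound2 B n m₀ C → 2 ≤ c → c ≤ 2 → 2 ≤ d → 4 * gF ≤ B →
    m₀ ≤ m → (cnt M S : ℝ) ≤ 2 ^ g * (C / m)
  twod : S_TWO → c = 2 → d = 2 → gF = 2 ∨ gF = 3
  mink : 2 * gF ≤ 3 ^ (d ^ 2)
  odd : S_FS → c = 1 → Odd gF → d = 1
  normal : c = 1 → ∀ ψ : F →+* ℂ, Nat.card (MulAction.stabilizer (Gal F) ψ) = 1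
  fix : c = 1 → MulAction.stabilizer (Gal E) φ₀ ≤ ker0 (Gal E) S

/-- The estimates hold for all minimal spaces. -/
theorem exists_est (hEH : S_EH) (hREL : S_REL) (κ : Consts) (E : Type) [Field E] [NumberField E]
    [IsCMField E] (φ₀ : E →+* ℂ) {M : (E →+* ℂ) → ℤ} {n g : ℕ} (hn0 : n ≠ 0)
    (hMn : ∀ φ, M φ ∣ (n : ℤ)) (hMc : ∀ φ, M (ComplexEmbedding.conjugate φ) = M φ)
    (hg : finrank ℚ E = 2 * g) {S : Submodule ℚ ((E →+* ℂ) → ℚ)} (hS : S ∈ minimalSpaces E) :
    ∃ (F : IntermediateField ℚ E) (d e h c gF m : ℕ), Est κ φ₀ M n g S F d e h c gF m := by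
  classical
  have hdesc := Pool.Agent.Y46.KN1.desc
  obtain ⟨F, hF, hcmF⟩ := exists_kernel_field E Pool.Agent.Y281.KN.corr Pool.Agent.Y46.KN1.cm φ₀ hS
  have hhome : F ∈ homeFields S := kernel_homeField E φ₀ hS hF
  have hfaith : Faith (Gal F) (desc F S) := kernel_faith E hdesc φ₀ hS hF
  have hle : S ≤ resSpace F := hhome S hS rfl
  obtain ⟨gF, hgF⟩ := finrank_even F
  have hmul : finrank ℚ F * finrank F E = finrank ℚ E := finrank_mul_finrank ℚ F E
  have hg0 : 0 < g := by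
    have := Module.finrank_pos (R := ℚ) (M := E)
    omega
  set m := finrank F E with hm
  have hm0 : m ≠ 0 := by
    rintro h0
    rw [h0, mul_zero, hg] at hmul
    omega
  have : NeZero m := ⟨hm0⟩
  have hgm : g = m * gF := by
    rw [hgF, hg] at hmul
    have : 2 * (m * gF) = 2 * g := by rw [← hmul]; ring
    omega
  have hgF0 : 0 < gF := by
    rcases Nat.eq_zero_or_pos gF with h0 | h0
    · rw [h0, mul_zero] at hgm
      omega
    · exact h0
  have hm1 : 1 ≤ m := Nat.one_le_iff_ne_zero.2 hm0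
  have hn1 : 1 ≤ n := Nat.one_le_iff_ne_zero.2 hn0
  have hgR : (0 : ℝ) < g := by exact_mod_cast hg0
  have hmg : ((m : ℝ) * gF) = g := by
    rw [hgm]
    push_cast
    ring
  have hgFg : gF ≤ g := by
    rw [hgm]
    exact Nat.le_mul_of_pos_left _ hm1
  obtain ⟨c, hc, hcc, hcen⟩ := exists_conj F
  have hfun : (fun ψ : F →+* ℂ => c • ψ) = ComplexEmbedding.conjugate (K := F) := funext hc
  have hminF : ∀ S ∈ minimalSpaces F, S ∈ MinInv (Gal F) (fun ψ : F →+* ℂ => c • ψ) := by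
    intro S hS
    rw [hfun]
    exact (minInv_iff S).2 hS
  have hfree : ∀ φ : F →+* ℂ, c • φ ≠ φ := fun φ => by
    rw [hc]
    exact conj_ne φ
  obtain ⟨hd1, -, hd3, -⟩ := hdesc E F S hS hle
  set S' := desc F S with hS'
  have hS'm := hminF _ hd1
  set ψ : F →+* ℂ := φ₀.comp (algebraMap F E) with hψ
  have hcard : Fintype.card (F →+* ℂ) = 2 * gF := by rw [Embeddings.card, hgF]
  have hcs := card_stab_mul (G := Gal F) hcard ψ
  obtain ⟨hEH1, hEH2⟩ := hEH E F S φ₀ hS hle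
  have hRELS := hREL E F S φ₀ hS hle
  obtain ⟨M', D, hcnt⟩ := ncard_types_le_cntO hdesc Pool.Agent.Y46.KN1.bij E F hgF (by rw [hg, hgm])
    M hn0 hMn hMc hS hhome hc hcc hcen
  have hcnt' : cnt M S ≤ cntO M' c S' := hcnt
  set d := finrank ℚ S' with hd
  set h := finrank ℚ (Pool.Agent.TH170.QC.fixedPart (Gal F) ψ S') with hh
  set e := edim (Gal F) S' with he
  have he1 : 0 < e := edim_pos hd1.1
  have hhd : h ≤ d := Submodule.finrank_mono fun u hu => hu.1
  have heh : e ≤ h := edim_le hcc hcen ψ hS'm.2.1 hS'm.2.2.1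
  have hpow : (0 : ℝ) < 2 ^ g := by positivity
  have hd0 : 1 ≤ d := by omega
  have hmul' : h * d ≤ e * gF := fixed_mul_le mult_holds hcc hfree hcen hcard hS'm ψ
  have hfixle : h = d → MulAction.stabilizer (Gal F) ψ = ⊥ := by
    intro h5
    have h6 : Pool.Agent.TH170.QC.fixedPart (Gal F) ψ S' = S' :=
      Submodule.eq_of_le_of_finrank_eq (fun u hu => hu.1) h5
    rw [Subgroup.eq_bot_iff_forall]
    intro γ hγ
    refine hfaith γ fun s hs x => ?_
    have h7 : s ∈ Pool.Agent.TH170.QC.fixedPart (Gal F) ψ S' := by rw [h6]; exact hs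
    exact h7.2 γ hγ x
  have hstab : e + (d - h) ≤ 2 → Nat.card (MulAction.stabilizer (Gal F) ψ) = 1 ∨
      Nat.card (MulAction.stabilizer (Gal F) ψ) = 2 := by
    intro h2
    have h0 : 0 < Nat.card (MulAction.stabilizer (Gal F) ψ) := Nat.card_pos
    by_contra hcon
    have h3 : 3 ≤ Nat.card (MulAction.stabilizer (Gal F) ψ) := by omega
    have h4 := codim_ge_two hS'm.2.1 hfaith ψ h3
    have h5 : 2 ≤ d - h := h4
    omega
  have hd2 : e + (d - h) ≤ 2 → d ^ 2 ≤ 2 * gF := by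
    intro h4
    rcases Nat.lt_or_ge h d with h5 | h5
    · have h6 : e = 1 := by omega
      have h7 : d = h + 1 := by omega
      rw [h6, one_mul] at hmul'
      rw [h7] at hmul' ⊢
      nlinarith
    · have h6 : h = d := by omega
      rw [h6] at hmul'
      have h7 : e * gF ≤ 2 * gF := Nat.mul_le_mul_right _ (by omega)
      nlinarith
  have hGc : e + (d - h) ≤ 2 → Nat.card (Gal F) ≤ 4 * gF := by
    intro h4
    rcases hstab h4 with h | h <;> rw [h] at hcs <;> omega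
  set N := (cnt M S : ℝ) / 2 ^ g with hN
  have hN1 : N ≤ 1 := by
    rw [hN, div_le_one hpow]
    obtain ⟨p1, -⟩ := Pool.Agent.Y304.KN.prod (Gal F) (F →+* ℂ) c m ψ _ hS'm
    refine (Nat.cast_le.2 (hcnt'.trans (cntO_le_cntP Pool.Agent.Y304.KN.prod M' c hS'm ψ))).trans ?_
    have h5 := ncard_class_le_two_pow M' D.cc' D.free' D.card'
      (killers (Gal F × Multiplicative (ZMod m)) (liftPX m S' : Set (PX (F →+* ℂ) m → ℚ)))
    rw [← hgm] at h5
    exact h5
  have hGB := Pool.Agent.Y417.KN.genB Pool.Agent.Y248.KN.gen (Gal F) (F →+* ℂ) m n gF M' c D _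
    hS'm ψ
  have hNB : N ≤ boundB (m * gF) d (e + (d - h)) (Real.log ((Nat.card (Gal F) * n : ℕ) : ℝ)) := by
    rw [hN, div_le_iff₀' hpow]
    have h6 : (2 : ℝ) ^ g = 2 ^ (m * gF) := by rw [← hgm]
    rw [h6]
    exact (Nat.cast_le.2 hcnt').trans hGB
  refine ⟨F, d, e, h, e + (d - h), gF, m, ?_⟩
  refine
    { home := hhome
      cm := hcmF
      deg := hgF
      mul := hgm
      dim := hd3.symm
      e1 := he1
      eh := heh
      hd := hhd
      ceq := rfl
      hE := hEH1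
      eE := hEH2
      three := ?_
      rel := ?_
      sq := hd2
      two := ?_
      two' := ?_
      small := ?_
      small2 := ?_
      twod := ?_
      mink := ?_
      odd := ?_
      normal := ?_
      fix := ?_ }
  · intro h3
    have h4 := κ.hC (Gal F) (F →+* ℂ) m n gF M' c D _ hS'm ψ hfaith h3
    have h5 := (Nat.cast_le (α := ℝ).2 hcnt').trans h4
    rw [hmg, ← hgm] at h5
    exact h5
  · intro h2
    refine hRELS.trans ?_
    rcases hstab h2 with h5 | h5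
    · exact (le_of_eq h5).trans (by norm_num)
    · exact le_of_eq h5
  · intro h2
    have h3 := κ.hK gF m d (e + (d - h)) n (Nat.card (Gal F)) N hn1 hm1 hd0 hgF0 (hd2 h2)
      Nat.card_pos (hGc h2) hN1 hNB
    rw [hmg] at h3
    rw [← div_le_iff₀' hpow, ← hN]
    refine h3.trans (pow_le_pow_left₀ (Real.sqrt_nonneg _) (Real.sqrt_le_sqrt ?_) _)
    have h4 : Real.log gF ≤ Real.log g :=
      Real.log_le_log (by exact_mod_cast hgF0) (by exact_mod_cast hgFg)
    have h5 : 0 ≤ Real.log gF := Real.log_nonneg (by exact_mod_cast hgF0)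
    have hK1 := κ.K1
    gcongr
  · intro h2 hthr
    rw [← div_le_iff₀' hpow, ← hN]
    refine hNB.trans (le_of_eq ?_)
    have hL : Real.log ((Nat.card (Gal F) * n : ℕ) : ℝ) ≤ Real.log (4 * g * n) := by
      have h3 : 0 < Nat.card (Gal F) * n := Nat.mul_pos Nat.card_pos hn1
      refine Real.log_le_log (by exact_mod_cast h3) ?_
      have h4 : Nat.card (Gal F) * n ≤ 4 * g * n :=
        Nat.mul_le_mul_right _ ((hGc h2).trans (Nat.mul_le_mul_left _ hgFg))
      exact_mod_cast h4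
    have hL0 : 0 ≤ Real.log ((Nat.card (Gal F) * n : ℕ) : ℝ) := by
      refine Real.log_nonneg ?_
      have h3 : 1 ≤ Nat.card (Gal F) * n := Nat.mul_pos Nat.card_pos hn1
      exact_mod_cast h3
    have hl4 : 0 ≤ Real.log (4 * d) := by
      refine Real.log_nonneg ?_
      have : (1 : ℝ) ≤ d := by exact_mod_cast hd0
      linarith
    unfold boundB
    rw [if_pos]
    · rw [← hgm]
    · rw [← hgm]
      refine le_trans ?_ hthr
      gcongr
  · intro B m₀ ε hsm h2 h2' h3 hB hm₀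
    have h4 := hsm (Gal F) (F →+* ℂ) m gF M' c D ((hGc h2').trans hB) hm₀ _ hS'm ψ h3 h2
    rw [← hgm] at h4
    exact (Nat.cast_le.2 hcnt').trans h4
  · intro B m₀ C hsm h2 h2' h3 hB hm₀
    have h4 := hsm (Gal F) (F →+* ℂ) m gF M' c D ((hGc h2').trans hB) hm₀ _ hS'm ψ h3 h2
    rw [← hgm] at h4
    exact (Nat.cast_le.2 hcnt').trans h4
  · intro hTWO h2 h3
    have h4 := hTWO (Gal F) (F →+* ℂ) c hcc hcen hfree S' hS'm hfaith h3 ψ h2
    rw [hcard] at h4
    omega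
  · have h3 := Pool.Agent.Y778.KN.mink (Gal F) (F →+* ℂ) S' hS'm.2.1 hfaith
    have h4 : 0 < Nat.card (MulAction.stabilizer (Gal F) ψ) := Nat.card_pos
    calc 2 * gF = 1 * (2 * gF) := (one_mul _).symm
      _ ≤ Nat.card (MulAction.stabilizer (Gal F) ψ) * (2 * gF) := Nat.mul_le_mul_right _ h4
      _ = Nat.card (Gal F) := hcs
      _ ≤ _ := h3
  · intro hFS h1 hodd
    have h5 : h = d := by omega
    have h6 : e = 1 := by omega
    have h7 : Nat.card (Gal F) = 2 * gF := by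
      rw [← hcs, hfixle h5, Subgroup.card_bot, one_mul]
    exact hFS (Gal F) (F →+* ℂ) c hcc hcen hfree S' hS'm h6 gF h7 hodd
  · intro h1 ψ'
    have h5 : h = d := by omega
    have h7 : Nat.card (Gal F) = 2 * gF := by
      rw [← hcs, hfixle h5, Subgroup.card_bot, one_mul]
    have h8 := card_stab_mul (G := Gal F) hcard ψ'
    rw [h7] at h8
    have h9 : 0 < 2 * gF := by omega
    exact Nat.eq_of_mul_eq_mul_right h9 (by rw [h8, one_mul])
  · intro h1
    have h5 : h = d := by omega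
    intro γ hγ
    have h6 : finrank ℚ S ≤ finrank ℚ (Pool.Agent.TH170.QC.fixedPart (Gal E) φ₀ S) := by
      have h7 : d = finrank ℚ S := hd3
      omega
    have h7 : Pool.Agent.TH170.QC.fixedPart (Gal E) φ₀ S = S :=
      Submodule.eq_of_le_of_finrank_le (fun u hu => hu.1) h6
    intro s hs x
    have h8 : s ∈ Pool.Agent.TH170.QC.fixedPart (Gal E) φ₀ S := by rw [h7]; exact hs
    exact h8.2 γ hγ x

end Pool.Agent.Q29.TE
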