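import Mathlib
import Pool.Agent.Q29.TE.Comp
import Pool.Agent.Y1.KN.All

/-!
# The sum of the multiplicities of the classes, and fields of subgroups
-/

set_option linter.unusedSectionVars false
set_option linter.unusedVariables false

namespace Pool.Agent.Q29.TE

open NumberField Finset Module Pool.Agent.H204R3.CM Pool.Agent.TH170.MF Pool.Agent.TH170.QC
  Pool.Agent.TH170.QE Pool.Agent.TH170.FW Pool.Agent.TH170.CM Pool.Agent.TH170.GC
  Pool.Agent.Y1.KN Pool.Agent.Q29.TD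

/-- The multiplicities of the classes of `E` that come from a subfield. -/
theorem sum_mult_V (E : Type) [Field E] [NumberField E] [IsCMField E] (F : IntermediateField ℚ E)
    (φ₀ : E →+* ℂ) {ι : Type*} (Ws : Finset ι) (rep : ι → Submodule ℚ ((E →+* ℂ) → ℚ))
    (hrep : ∀ W ∈ Ws, rep W ∈ minimalSpaces E)
    (hhome : ∀ W ∈ Ws, F ∈ homeFields (rep W))
    (hne : ∀ W ∈ Ws, ∀ W' ∈ Ws, W ≠ W' →
      killers (Gal E) (rep W : Set ((E →+* ℂ) → ℚ)) ≠
        killers (Gal E) (rep W' : Set ((E →+* ℂ) → ℚ))) :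
    2 * ∑ W ∈ Ws, (finrank ℚ (Pool.Agent.TH170.QC.fixedPart (Gal E) φ₀ (rep W)) : ℝ) *
      finrank ℚ (rep W) / edim (Gal E) (rep W) ≤ finrank ℚ F := by
  classical
  obtain ⟨c, hc, hcc, hcen⟩ := exists_conj E
  have hfun : (fun ψ : E →+* ℂ => c • ψ) = ComplexEmbedding.conjugate (K := E) := funext hc
  have hmin : ∀ S ∈ minimalSpaces E, S ∈ MinInv (Gal E) (fun ψ : E →+* ℂ => c • ψ) := by
    intro S hS
    rw [hfun]
    exact (minInv_iff S).2 hS
  have hfree : ∀ φ : E →+* ℂ, c • φ ≠ φ := fun φ => by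
    rw [hc]
    exact conj_ne φ
  have hfam : ∀ W : ι, ∃ Fm : Finset (Submodule ℚ ((E →+* ℂ) → ℚ)), W ∈ Ws →
      (∀ S' ∈ Fm, S' ∈ MinInv (Gal E) (fun φ : E →+* ℂ => c • φ) ∧
        killers (Gal E) (S' : Set ((E →+* ℂ) → ℚ)) =
          killers (Gal E) (rep W : Set ((E →+* ℂ) → ℚ)) ∧
        finrank ℚ S' = finrank ℚ (rep W)) ∧
      (∀ S' ∈ Fm, ∀ S'' ∈ Fm, S' ≠ S'' → S'' ≤ (dot (E →+* ℂ)).orthogonal S') ∧
      finrank ℚ (Pool.Agent.TH170.QC.fixedPart (Gal E) φ₀ (rep W)) ≤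
        edim (Gal E) (rep W) * Fm.card := by
    intro W
    by_cases hW : W ∈ Ws
    · obtain ⟨Fm, hFm⟩ := mult_holds (Gal E) (E →+* ℂ) c hcc hfree hcen (rep W)
        (hmin _ (hrep W hW)) φ₀
      exact ⟨Fm, fun _ => hFm⟩
    · exact ⟨∅, fun h => absurd h hW⟩
  choose fam hfam using hfam
  have hsum : 2 * ∑ W ∈ Ws, ∑ S ∈ fam W, finrank ℚ S ≤ finrank ℚ F := by
    have h6 := sum_sum_finrank_le (V := resSpace F) Ws fam ?_ ?_ ?_ ?_
    · have h7 := Pool.Agent.Y281.KN.dim E F (resSpace F) (fun s hs φ => hs.1 φ)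
        (fun u hu φ ψ h => hu.2 φ ψ h)
      omega
    · intro W hW S hS
      have h7 := (hfam W hW).1 S hS
      rw [hfun] at h7
      exact hhome W hW S ((minInv_iff S).1 h7.1) h7.2.1
    · intro W hW S hS
      exact ((hfam W hW).1 S hS).1.1
    · intro W hW
      exact (hfam W hW).2.1
    · intro W hW W' hW' hWW S hS S' hS'
      have h7 := (hfam W hW).1 S hS
      have h8 := (hfam W' hW').1 S' hS'
      refine orth_of_killers_ne h7.1 h8.1 ?_
      rw [h7.2.1, h8.2.1]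
      exact hne W hW W' hW' hWW
  have hone : ∀ W ∈ Ws, (finrank ℚ (Pool.Agent.TH170.QC.fixedPart (Gal E) φ₀ (rep W)) : ℝ) *
      finrank ℚ (rep W) / edim (Gal E) (rep W) ≤
      ((∑ S ∈ fam W, finrank ℚ S : ℕ) : ℝ) := by
    intro W hW
    obtain ⟨h4, h5, h6⟩ := hfam W hW
    have h7 : ∑ S ∈ fam W, finrank ℚ S = (fam W).card * finrank ℚ (rep W) := by
      rw [sum_congr rfl fun S hS => (h4 S hS).2.2, sum_const, smul_eq_mul]
    have he0 : 0 < edim (Gal E) (rep W) := edim_pos (hrep W hW).1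
    have he : (0 : ℝ) < edim (Gal E) (rep W) := by exact_mod_cast he0
    rw [h7, div_le_iff₀ he]
    push_cast
    have h6' : (finrank ℚ (Pool.Agent.TH170.QC.fixedPart (Gal E) φ₀ (rep W)) : ℝ) ≤
        edim (Gal E) (rep W) * (fam W).card := by exact_mod_cast h6
    calc (finrank ℚ (Pool.Agent.TH170.QC.fixedPart (Gal E) φ₀ (rep W)) : ℝ) *
          finrank ℚ (rep W) ≤
        (edim (Gal E) (rep W) * (fam W).card) * finrank ℚ (rep W) := by
          gcongr
      _ = _ := by ring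
  have h9 : 2 * ∑ W ∈ Ws, (finrank ℚ (Pool.Agent.TH170.QC.fixedPart (Gal E) φ₀ (rep W)) : ℝ) *
      finrank ℚ (rep W) / edim (Gal E) (rep W) ≤
      2 * ∑ W ∈ Ws, ((∑ S ∈ fam W, finrank ℚ S : ℕ) : ℝ) :=
    mul_le_mul_of_nonneg_left (sum_le_sum hone) (by norm_num)
  refine h9.trans ?_
  rw [← Nat.cast_sum]
  exact_mod_cast hsum

/-- The dimension of a minimal space with a larger home field. -/
theorem resSpace_mono {E : Type*} [Field E] [NumberField E] {F F' : IntermediateField ℚ E}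
    (h : F ≤ F') : resSpace F ≤ resSpace F' := fun u hu =>
  ⟨hu.1, fun φ ψ hφ => hu.2 φ ψ fun x hx => hφ x (h hx)⟩

theorem homeFields_mono {E : Type*} [Field E] [NumberField E] {F F' : IntermediateField ℚ E}
    (h : F ≤ F') {S : Submodule ℚ ((E →+* ℂ) → ℚ)} (hF : F ∈ homeFields S) :
    F' ∈ homeFields S := fun S' hS' hk => (hF S' hS' hk).trans (resSpace_mono h)

/-- The field of a subgroup with trivial action on the space is a home field. -/
theorem home_of_le (E : Type) [Field E] [NumberField E] [IsCMField E] (φ₀ : E →+* ℂ)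
    {S₀ : Submodule ℚ ((E →+* ℂ) → ℚ)} (hS₀ : S₀ ∈ minimalSpaces E) {L : Subgroup (Gal E)}
    (hLn : L.Normal) (hL : L ≤ ker0 (Gal E) S₀) {F : IntermediateField ℚ E}
    (hF : ∀ γ : Gal E, γ ∈ MulAction.stabilizer (Gal E) φ₀ ⊔ L ↔ ∀ x ∈ F, (γ • φ₀) x = φ₀ x) :
    F ∈ homeFields S₀ := by
  classical
  obtain ⟨c, hc, hcc, hcen⟩ := exists_conj E
  have hfun : (fun φ : E →+* ℂ => c • φ) = ComplexEmbedding.conjugate (K := E) := funext hc
  have hmin : ∀ S ∈ minimalSpaces E, S ∈ MinInv (Gal E) (fun φ : E →+* ℂ => c • φ) := by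
    intro S hS
    rw [hfun]
    exact (minInv_iff S).2 hS
  have hm0 := hmin S₀ hS₀
  intro S hS hK u hu
  refine ⟨hS.2.2.1 u hu, ?_⟩
  intro φ ψ hφψ
  have hker : ∀ ν ∈ L, ∀ x, u (ν • x) = u x := fun ν hν =>
    kern_le_of_killers hm0 (hmin S hS) hK.symm (hL hν) u hu
  obtain ⟨a, rfl⟩ := MulAction.exists_smul_eq (Gal E) φ₀ φ
  obtain ⟨b, rfl⟩ := MulAction.exists_smul_eq (Gal E) φ₀ ψ
  have h1 : b⁻¹ * a ∈ L ⊔ MulAction.stabilizer (Gal E) φ₀ := by
    rw [sup_comm, hF]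
    intro x hx
    obtain ⟨σ, hσ⟩ := gal_smul E b⁻¹
    have h2 : (b⁻¹ • b • φ₀) x = φ₀ x := by rw [inv_smul_smul]
    rw [mul_smul, ← h2, hσ, hσ, RingHom.comp_apply, RingHom.comp_apply, hφψ x hx]
  rw [Subgroup.mem_sup_of_normal_left] at h1
  obtain ⟨ν, hν, η, hη, hνη⟩ := h1
  have hη' : η • φ₀ = φ₀ := hη
  have h3 : a = (b * ν * b⁻¹) * (b * η) := by
    calc a = b * (b⁻¹ * a) := by group
      _ = b * (ν * η) := by rw [hνη]
      _ = _ := by group
  have h4 : b * ν * b⁻¹ ∈ L := hLn.conj_mem ν hν b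
  rw [h3, mul_smul, hker _ h4, mul_smul, hη']

/-- The family of the components with representatives. -/
theorem exists_reps (E : Type) [Field E] [NumberField E] [IsCMField E] (M : (E →+* ℂ) → ℤ) :
    ∃ (Ws : Finset (Submodule ℚ ((E →+* ℂ) → ℚ)))
      (rep : Submodule ℚ ((E →+* ℂ) → ℚ) → Submodule ℚ ((E →+* ℂ) → ℚ)),
      (∀ W ∈ Ws, rep W ∈ minimalSpaces E) ∧
      (∀ W ∈ Ws, ∀ W' ∈ Ws, W ≠ W' →
        killers (Gal E) (rep W : Set ((E →+* ℂ) → ℚ)) ≠
          killers (Gal E) (rep W' : Set ((E →+* ℂ) → ℚ))) ∧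
      (degTypes M).ncard ≤ ∑ W ∈ Ws, cnt M (rep W) := by
  classical
  have hfin := finite_components (E := E)
  have hrep : ∀ W : Submodule ℚ ((E →+* ℂ) → ℚ), ∃ S, W ∈ components E →
      S ∈ minimalSpaces E ∧ component S = W := by
    intro W
    by_cases hW : W ∈ components E
    · obtain ⟨S, hS, hSW⟩ := hW
      exact ⟨S, fun _ => ⟨hS, hSW⟩⟩
    · exact ⟨⊥, fun h => absurd h hW⟩
  choose rep hrep using hrep
  refine ⟨hfin.toFinset, rep, fun W hW => (hrep W (hfin.mem_toFinset.1 hW)).1, ?_, ?_⟩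
  · intro W hW W' hW' hne h
    apply hne
    rw [← (hrep W (hfin.mem_toFinset.1 hW)).2, ← (hrep W' (hfin.mem_toFinset.1 hW')).2]
    exact component_congr h
  · have h1 : degTypes M ⊆ ⋃ W ∈ hfin.toFinset, {Φ : Set (E →+* ℂ) | IsCMType Φ ∧
        ∃ S' ∈ minimalSpaces E, component S' = component (rep W) ∧ OrthW M Φ S'} := by
      rintro Φ ⟨hΦ, S, hS, hmem⟩
      have h2 : component S ∈ components E := ⟨S, hS, rfl⟩
      refine Set.mem_biUnion (x := component S) (hfin.mem_toFinset.2 h2) ⟨hΦ, S, hS, ?_, hmem⟩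
      exact (hrep _ h2).2.symm
    refine (Set.ncard_le_ncard h1 (Set.toFinite _)).trans ?_
    exact Finset.set_ncard_biUnion_le _ _

end Pool.Agent.Q29.TE
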