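import Mathlib
import Pool.Agent.Q29.TE.Sum

/-!
# Families of classes, and the number of the classes of small dimension
-/

set_option linter.unusedSectionVars false
set_option linter.unusedVariables false

namespace Pool.Agent.Q29.TE

open NumberField Finset Module Pool.Agent.H204R3.CM Pool.Agent.TH170.MF Pool.Agent.TH170.QC
  Pool.Agent.TH170.QE Pool.Agent.TH170.FW Pool.Agent.TH170.CM Pool.Agent.TH170.GC
  Pool.Agent.Y1.KN Pool.Agent.Q29.TD

/-- All classes of minimal spaces, with representatives and their numbers. -/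
structure Fam (κ : Consts) {E : Type} [Field E] [NumberField E] [IsCMField E] (φ₀ : E →+* ℂ)
    (M : (E →+* ℂ) → ℤ) (n g : ℕ) where
  /-- The classes. -/
  Ws : Finset (Submodule ℚ ((E →+* ℂ) → ℚ))
  /-- The representatives. -/
  rep : Submodule ℚ ((E →+* ℂ) → ℚ) → Submodule ℚ ((E →+* ℂ) → ℚ)
  /-- The fields. -/
  F : Submodule ℚ ((E →+* ℂ) → ℚ) → IntermediateField ℚ E
  /-- The dimensions. -/
  d : Submodule ℚ ((E →+* ℂ) → ℚ) → ℕ
  /-- The dimensions of the endomorphism algebras. -/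
  e : Submodule ℚ ((E →+* ℂ) → ℚ) → ℕ
  /-- The dimensions of the fixed parts. -/
  h : Submodule ℚ ((E →+* ℂ) → ℚ) → ℕ
  /-- The codimensions. -/
  c : Submodule ℚ ((E →+* ℂ) → ℚ) → ℕ
  /-- Half the degrees of the fields. -/
  gF : Submodule ℚ ((E →+* ℂ) → ℚ) → ℕ
  /-- The indices of the fields. -/
  m : Submodule ℚ ((E →+* ℂ) → ℚ) → ℕ
  hrep : ∀ W ∈ Ws, rep W ∈ minimalSpaces E
  hne : ∀ W ∈ Ws, ∀ W' ∈ Ws, W ≠ W' →
    killers (Gal E) (rep W : Set ((E →+* ℂ) → ℚ)) ≠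
      killers (Gal E) (rep W' : Set ((E →+* ℂ) → ℚ))
  tot : (degTypes M).ncard ≤ ∑ W ∈ Ws, cnt M (rep W)
  est : ∀ W ∈ Ws, Est κ φ₀ M n g (rep W) (F W) (d W) (e W) (h W) (c W) (gF W) (m W)

theorem exists_fam (hEH : S_EH) (hREL : S_REL) (κ : Consts) (E : Type) [Field E] [NumberField E]
    [IsCMField E] (φ₀ : E →+* ℂ) {M : (E →+* ℂ) → ℤ} {n g : ℕ} (hn0 : n ≠ 0)
    (hMn : ∀ φ, M φ ∣ (n : ℤ)) (hMc : ∀ φ, M (ComplexEmbedding.conjugate φ) = M φ)
    (hg : finrank ℚ E = 2 * g) : Nonempty (Fam κ φ₀ M n g) := by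
  classical
  obtain ⟨Ws, rep, hrep, hne, htot⟩ := exists_reps E M
  have hex : ∀ W : Submodule ℚ ((E →+* ℂ) → ℚ), ∃ (x : IntermediateField ℚ E × ℕ × ℕ × ℕ × ℕ × ℕ × ℕ),
      W ∈ Ws → Est κ φ₀ M n g (rep W) x.1 x.2.1 x.2.2.1 x.2.2.2.1 x.2.2.2.2.1 x.2.2.2.2.2.1
        x.2.2.2.2.2.2 := by
    intro W
    by_cases hW : W ∈ Ws
    · obtain ⟨F, d, e, h, c, gF, m, hE⟩ := exists_est hEH hREL κ E φ₀ hn0 hMn hMc hg (hrep W hW)
      exact ⟨(F, d, e, h, c, gF, m), fun _ => hE⟩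
    · exact ⟨(⊥, 0, 0, 0, 0, 0, 0), fun h => absurd h hW⟩
  choose x hx using hex
  exact ⟨{
    Ws := Ws
    rep := rep
    F := fun W => (x W).1
    d := fun W => (x W).2.1
    e := fun W => (x W).2.2.1
    h := fun W => (x W).2.2.2.1
    c := fun W => (x W).2.2.2.2.1
    gF := fun W => (x W).2.2.2.2.2.1
    m := fun W => (x W).2.2.2.2.2.2
    hrep := hrep
    hne := hne
    tot := htot
    est := hx }⟩

variable {κ : Consts} {E : Type} [Field E] [NumberField E] [IsCMField E] {φ₀ : E →+* ℂ}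
  {M : (E →+* ℂ) → ℤ} {n g : ℕ}

/-- The multiplicity of one class. -/
theorem Est.mult_le {S : Submodule ℚ ((E →+* ℂ) → ℚ)} {F : IntermediateField ℚ E}
    {d e h c gF m : ℕ} (hE : Est κ φ₀ M n g S F d e h c gF m) (hS : S ∈ minimalSpaces E) :
    (h * d / e : ℝ) ≤ (finrank ℚ (Pool.Agent.TH170.QC.fixedPart (Gal E) φ₀ S) : ℝ) *
      finrank ℚ S / edim (Gal E) S := by
  classical
  have he0 : 0 < edim (Gal E) S := edim_pos hS.1
  have he : (0 : ℝ) < edim (Gal E) S := by exact_mod_cast he0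
  have h1 : (h : ℝ) ≤ finrank ℚ (Pool.Agent.TH170.QC.fixedPart (Gal E) φ₀ S) := by
    exact_mod_cast hE.hE
  have h2 : (edim (Gal E) S : ℝ) ≤ e := by exact_mod_cast hE.eE
  have h3 : (d : ℝ) = finrank ℚ S := by exact_mod_cast hE.dim.symm
  rw [h3]
  exact div_le_div₀ (by positivity) (by gcongr) he h2

/-- The sum of the multiplicities of the classes that come from one field. -/
theorem Fam.sum_le (𝓕 : Fam κ φ₀ M n g) (T : Finset (Submodule ℚ ((E →+* ℂ) → ℚ)))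
    (hT : T ⊆ 𝓕.Ws) (F' : IntermediateField ℚ E) (hF' : ∀ W ∈ T, F' ∈ homeFields (𝓕.rep W)) :
    2 * ∑ W ∈ T, (𝓕.h W * 𝓕.d W / 𝓕.e W : ℝ) ≤ finrank ℚ F' := by
  refine le_trans ?_ (sum_mult_V E F' φ₀ T 𝓕.rep (fun W hW => 𝓕.hrep W (hT hW)) hF'
    (fun W hW W' hW' => 𝓕.hne W (hT hW) W' (hT hW')))
  exact mul_le_mul_of_nonneg_left (sum_le_sum fun W hW =>
    (𝓕.est W (hT hW)).mult_le (𝓕.hrep W (hT hW))) (by norm_num)

/-- The sum of all multiplicities. -/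
theorem Fam.sum_all_le (𝓕 : Fam κ φ₀ M n g) (hg : finrank ℚ E = 2 * g)
    (T : Finset (Submodule ℚ ((E →+* ℂ) → ℚ)))
    (hT : T ⊆ 𝓕.Ws) : ∑ W ∈ T, (𝓕.h W * 𝓕.d W / 𝓕.e W : ℝ) ≤ g := by
  have h1 := 𝓕.sum_le T hT ⊤ (fun W _ => top_mem_homeFields _)
  rw [IntermediateField.finrank_top', hg] at h1
  push_cast at h1
  linarith

/-- Elements of prime order modulo the kernel. -/
theorem prime_le {G X : Type*} [Group G] [Fintype G] [MulAction G X] [Fintype X]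
    (S : Submodule ℚ (X → ℚ)) (γ : G) (p : ℕ) (hS : Invariant G S) (hp : p.Prime)
    (hγ : γ ^ p ∈ ker0 G S) (hne : γ ∉ ker0 G S) : p ≤ finrank ℚ S + 1 := by
  obtain ⟨f, hf⟩ : ∃ f : Module.End ℚ S, ∀ s : S, ((f s : S) : X → ℚ) = tr γ (s : X → ℚ) :=
    ⟨(tr γ).restrict fun x hx => tr_mem hS γ hx, fun _ => rfl⟩
  have hpow : ∀ (n : ℕ) (s : S), (((f ^ n) s : S) : X → ℚ) = tr (γ ^ n) (s : X → ℚ) := by
    intro n
    induction n with
    | zero =>
      intro s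
      rw [pow_zero, pow_zero, tr_one]
      rfl
    | succ n ih =>
      intro s
      rw [pow_succ', pow_succ, Module.End.mul_apply, hf, ih, tr_tr]
  have h := Pool.Agent.Y674.KN.end_order f hp ?_ ?_
  · omega
  · ext s : 1
    refine Subtype.ext ?_
    rw [hpow]
    funext x
    exact hγ s s.2 x
  · intro h
    apply hne
    intro s hs x
    have h1 := hf ⟨s, hs⟩
    rw [h] at h1
    exact (congrFun h1 x).symm

/-- The classes of bounded dimension. -/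
theorem Fam.few (hIDX : S_IDX) (𝓕 : Fam κ φ₀ M n g) (hg : finrank ℚ E = 2 * g)
    (T : Finset (Submodule ℚ ((E →+* ℂ) → ℚ))) (hT : T ⊆ 𝓕.Ws) (D : ℕ)
    (hD : ∀ W ∈ T, 𝓕.d W ≤ D) : ∃ q : ℕ, q ∣ 2 * g ∧ (∀ p : ℕ, p.Prime → p ∣ q → p ≤ D + 1) ∧
      2 * ∑ W ∈ T, (𝓕.h W * 𝓕.d W / 𝓕.e W : ℝ) ≤ q := by
  classical
  obtain ⟨c, hc, hcc, hcen⟩ := exists_conj E
  have hfun : (fun φ : E →+* ℂ => c • φ) = ComplexEmbedding.conjugate (K := E) := funext hc
  have hmin : ∀ W ∈ 𝓕.Ws, 𝓕.rep W ∈ MinInv (Gal E) (fun ψ : E →+* ℂ => c • ψ) := by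
    intro W hW
    rw [hfun]
    exact (minInv_iff _).2 (𝓕.hrep W hW)
  set L : Subgroup (Gal E) := T.inf (fun W => ker0 (Gal E) (𝓕.rep W)) with hL
  have hmemL : ∀ γ : Gal E, γ ∈ L ↔ ∀ W ∈ T, γ ∈ ker0 (Gal E) (𝓕.rep W) := by
    intro γ
    rw [hL, Finset.inf_eq_iInf]
    simp only [Subgroup.mem_iInf]
  have hLn : L.Normal := by
    constructor
    intro γ hγ x
    rw [hmemL] at hγ ⊢
    intro W hW
    exact (ker0_normal (G := Gal E) (hmin W (hT hW)).2.1).conj_mem γ (hγ W hW) x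
  have hLW : ∀ W ∈ T, L ≤ ker0 (Gal E) (𝓕.rep W) := fun W hW γ hγ => (hmemL γ).1 hγ W hW
  obtain ⟨F', hF'⟩ := Pool.Agent.Y281.KN.corr E φ₀ (MulAction.stabilizer (Gal E) φ₀ ⊔ L) le_sup_left
  have hdeg : finrank ℚ F' = (MulAction.stabilizer (Gal E) φ₀ ⊔ L).index :=
    hIDX E F' φ₀ _ hF'
  have hHind : (MulAction.stabilizer (Gal E) φ₀).index = 2 * g := by
    have hcard : Fintype.card (E →+* ℂ) = 2 * g := by rw [Embeddings.card, hg]
    have h1 := card_stab_mul (G := Gal E) hcard φ₀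
    have h2 := Subgroup.card_mul_index (MulAction.stabilizer (Gal E) φ₀)
    rw [← h2] at h1
    have h3 : 0 < Nat.card (MulAction.stabilizer (Gal E) φ₀) := Nat.card_pos
    exact (Nat.eq_of_mul_eq_mul_left h3 h1).symm
  refine ⟨(MulAction.stabilizer (Gal E) φ₀ ⊔ L).index, ?_, ?_, ?_⟩
  · rw [← hHind]
    exact Subgroup.index_dvd_of_le le_sup_left
  · intro p hp hpq
    have h1 : p ∣ L.index := hpq.trans (Subgroup.index_dvd_of_le le_sup_right)
    have hfact : Fact p.Prime := ⟨hp⟩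
    have h2 : p ∣ Nat.card (Gal E ⧸ L) := h1
    obtain ⟨x, hx⟩ := exists_prime_orderOf_dvd_card' (G := Gal E ⧸ L) p h2
    obtain ⟨γ, rfl⟩ := QuotientGroup.mk_surjective x
    have h3 : γ ^ p ∈ L := by
      rw [← QuotientGroup.eq_one_iff, QuotientGroup.mk_pow, ← hx]
      exact pow_orderOf_eq_one _
    have h4 : γ ∉ L := by
      intro h5
      rw [← QuotientGroup.eq_one_iff] at h5
      rw [h5, orderOf_one] at hx
      exact hp.one_lt.ne hx
    rw [hmemL] at h4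
    push Not at h4
    obtain ⟨W, hW, hγW⟩ := h4
    have h5 := prime_le (𝓕.rep W) γ p (hmin W (hT hW)).2.1 hp (hLW W hW h3) hγW
    have h6 := (𝓕.est W (hT hW)).dim
    have h7 := hD W hW
    omega
  · rw [← hdeg]
    exact 𝓕.sum_le T hT F' fun W hW => home_of_le E φ₀ (𝓕.hrep W (hT hW)) hLn (hLW W hW) hF'

end Pool.Agent.Q29.TE
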