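import Mathlib
import Pool.Agent.Q29.TE.Few

/-!
# The number of the classes of codimension at most two
-/

set_option linter.unusedSectionVars false
set_option linter.unusedVariables false

namespace Pool.Agent.Q29.TE

open NumberField Finset Module Pool.Agent.H204R3.CM Pool.Agent.TH170.MF Pool.Agent.TH170.QC
  Pool.Agent.TH170.QE Pool.Agent.TH170.FW Pool.Agent.TH170.CM Pool.Agent.TH170.GC
  Pool.Agent.Y1.KN Pool.Agent.Q29.TD

/-- An element of the stabilizer which is central modulo the kernel is in the kernel. -/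
theorem mem_ker0_of_central {G X : Type*} [Group G] [Fintype G] [MulAction G X] [Fintype X]
    [DecidableEq X] [MulAction.IsPretransitive G X] {c : G} (hcc : c * c = 1)
    (hcen : ∀ x, c * x = x * c) {S : Submodule ℚ (X → ℚ)}
    (hS : S ∈ MinInv G (fun x : X => c • x)) (x₀ : X) (η : G) (hη : η • x₀ = x₀)
    (hc : ∀ γ : G, γ * η * γ⁻¹ * η⁻¹ ∈ ker0 G S) : η ∈ ker0 G S := by
  have hedim : edim G S ≤ finrank ℚ (Pool.Agent.TH170.QC.fixedPart G x₀ S) :=
    edim_le hcc hcen x₀ hS.2.1 hS.2.2.1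
  have hpos : 0 < edim G S := edim_pos hS.1
  have hfix : Pool.Agent.TH170.QC.fixedPart G x₀ S ≠ ⊥ := by
    intro h
    rw [h, finrank_bot] at hedim
    omega
  obtain ⟨u, hu, hu0⟩ := Submodule.exists_mem_ne_zero_of_ne_bot hfix
  -- the space fixed by `η`
  let V : Submodule ℚ (X → ℚ) :=
    { carrier := {v | v ∈ S ∧ ∀ x, v (η • x) = v x}
      zero_mem' := ⟨S.zero_mem, fun x => rfl⟩
      add_mem' := by
        rintro u v ⟨h1, h2⟩ ⟨h3, h4⟩
        exact ⟨S.add_mem h1 h3, fun x => by rw [Pi.add_apply, Pi.add_apply, h2 x, h4 x]⟩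
      smul_mem' := by
        rintro r u ⟨h1, h2⟩
        exact ⟨S.smul_mem r h1, fun x => by rw [Pi.smul_apply, Pi.smul_apply, h2 x]⟩ }
  have hV : ∀ v, v ∈ V ↔ v ∈ S ∧ ∀ x, v (η • x) = v x := fun v => Iff.rfl
  have hVinv : Invariant G V := by
    intro γ v hv
    rw [hV] at hv ⊢
    refine ⟨hS.2.1 γ v hv.1, fun x => ?_⟩
    change v (γ • η • x) = v (γ • x)
    have h1 : γ * η = (γ * η * γ⁻¹ * η⁻¹) * (η * γ) := by group
    rw [← mul_smul, h1, mul_smul, hc γ v hv.1, mul_smul, hv.2]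
  have hVS : V ≤ S := fun v hv => hv.1
  rcases hS.2.2.2 V hVinv hVS with h | h
  · exfalso
    have h1 : u ∈ V := (hV u).2 ⟨hu.1, fun x => hu.2 η hη x⟩
    rw [h, Submodule.mem_bot] at h1
    exact hu0 h1
  · intro s hs x
    rw [← h] at hs
    exact ((hV s).1 hs).2 x

theorem two_pow_omega_le {n : ℕ} (hn : n ≠ 0) : 2 ^ n.primeFactorsList.length ≤ n := by
  conv_rhs => rw [← Nat.prod_primeFactorsList hn]
  refine List.pow_card_le_prod _ 2 fun p hp => ?_
  exact (Nat.prime_of_mem_primeFactorsList hp).two_le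

theorem two_pow_omega_squarefree {t : ℕ} (ht : Squarefree t) :
    2 ^ t.primeFactorsList.length = t.divisors.card := by
  have ht0 : t ≠ 0 := ht.ne_zero
  rw [Nat.card_divisors ht0]
  have h1 : ∀ p ∈ t.primeFactors, t.factorization p + 1 = 2 := by
    intro p hp
    have h2 := ht.natFactorization_le_one p
    have h3 : 0 < t.factorization p :=
      (Nat.prime_of_mem_primeFactors hp).factorization_pos_of_dvd ht0
        (Nat.dvd_of_mem_primeFactors hp)
    omega
  rw [prod_congr rfl h1, prod_const]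
  congr 1
  exact (List.toFinset_card_of_nodup
    ((Nat.squarefree_iff_nodup_primeFactorsList ht0).1 ht)).symm

theorem omega_mul {a b : ℕ} (ha : a ≠ 0) (hb : b ≠ 0) :
    (a * b).primeFactorsList.length = a.primeFactorsList.length + b.primeFactorsList.length := by
  rw [(Nat.perm_primeFactorsList_mul ha hb).length_eq, List.length_append]

theorem omega_le_of_dvd {a b : ℕ} (h : a ∣ b) (hb : b ≠ 0) :
    a.primeFactorsList.length ≤ b.primeFactorsList.length := by
  obtain ⟨k, rfl⟩ := h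
  rw [omega_mul (left_ne_zero_of_mul hb) (right_ne_zero_of_mul hb)]
  omega

variable {κ : Consts} {E : Type} [Field E] [NumberField E] [IsCMField E] {φ₀ : E →+* ℂ}
  {M : (E →+* ℂ) → ℤ} {n g : ℕ}

/-- The number of the classes of codimension at most two. -/
theorem Fam.card_two (hCHAIN : S_CHAIN) (hCLS : S_CLS) (𝓕 : Fam κ φ₀ M n g)
    (hg : finrank ℚ E = 2 * g)
    (T : Finset (Submodule ℚ ((E →+* ℂ) → ℚ))) (hT : T ⊆ 𝓕.Ws) (hT2 : ∀ W ∈ T, 𝓕.c W ≤ 2)
    {s t : ℕ} (hst2 : 2 * g = s * t) (hst : s.Coprime t) (ht : Squarefree t) (hto : Odd t) :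
    T.card ≤ t.divisors.card ^ 2 * s ^ 2 := by
  classical
  obtain ⟨c, hc, hcc, hcen⟩ := exists_conj E
  have hfun : (fun φ : E →+* ℂ => c • φ) = ComplexEmbedding.conjugate (K := E) := funext hc
  have hmin : ∀ W ∈ 𝓕.Ws, 𝓕.rep W ∈ MinInv (Gal E) (fun ψ : E →+* ℂ => c • ψ) := by
    intro W hW
    rw [hfun]
    exact (minInv_iff _).2 (𝓕.hrep W hW)
  have hg0 : 0 < g := by
    have := Module.finrank_pos (R := ℚ) (M := E)
    omega
  have hs0 : s ≠ 0 := by
    rintro rfl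
    omega
  have ht0 : t ≠ 0 := ht.ne_zero
  set H := MulAction.stabilizer (Gal E) φ₀ with hH
  set 𝒦 : Finset (Subgroup (Gal E)) := T.image (fun W => ker0 (Gal E) (𝓕.rep W)) with h𝒦
  have hnor : ∀ K ∈ 𝒦, K.Normal := by
    intro K hK
    rw [h𝒦, mem_image] at hK
    obtain ⟨W, hW, rfl⟩ := hK
    exact ker0_normal (G := Gal E) (hmin W (hT hW)).2.1
  have hrel : ∀ K ∈ 𝒦, K.relIndex H ≤ 2 := by
    intro K hK
    rw [h𝒦, mem_image] at hK
    obtain ⟨W, hW, rfl⟩ := hK
    exact (𝓕.est W (hT hW)).rel (hT2 W hW)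
  have hcent : ∀ K ∈ 𝒦, ∀ h ∈ H, (∀ x : Gal E, x * h * x⁻¹ * h⁻¹ ∈ K) → h ∈ K := by
    intro K hK
    rw [h𝒦, mem_image] at hK
    obtain ⟨W, hW, rfl⟩ := hK
    intro h hh hx
    exact mem_ker0_of_central hcc hcen (hmin W (hT hW)) φ₀ h hh hx
  obtain ⟨a, ha, haΩ⟩ := hCHAIN (Gal E) H 𝒦 hnor hrel hcent
  set L : Subgroup (Gal E) := 𝒦.inf id with hL
  have hmemL : ∀ γ : Gal E, γ ∈ L ↔ ∀ W ∈ T, γ ∈ ker0 (Gal E) (𝓕.rep W) := by
    intro γ
    rw [hL, h𝒦, Finset.inf_eq_iInf]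
    simp only [Subgroup.mem_iInf, mem_image, id_eq, forall_exists_index, and_imp,
      forall_apply_eq_imp_iff₂]
  have hLn : L.Normal := by
    constructor
    intro γ hγ x
    rw [hmemL] at hγ ⊢
    intro W hW
    exact (ker0_normal (G := Gal E) (hmin W (hT hW)).2.1).conj_mem γ (hγ W hW) x
  have hHind : H.index = 2 * g := by
    have hcard : Fintype.card (E →+* ℂ) = 2 * g := by rw [Embeddings.card, hg]
    have h1 := card_stab_mul (G := Gal E) hcard φ₀
    have h2 := Subgroup.card_mul_index H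
    rw [← h2] at h1
    have h3 : 0 < Nat.card H := Nat.card_pos
    exact (Nat.eq_of_mul_eq_mul_left h3 h1).symm
  have hdvd : (H ⊔ L).index ∣ 2 * g := by
    rw [← hHind]
    exact Subgroup.index_dvd_of_le le_sup_left
  have h2g0 : 2 * g ≠ 0 := by omega
  set Ω := (2 * g).primeFactorsList.length with hΩ
  have haΩ' : a ≤ Ω := haΩ.trans (omega_le_of_dvd hdvd h2g0)
  have hcardG : Nat.card (Gal E ⧸ L) ∣ (s * 2 ^ Ω) * t := by
    change L.index ∣ _
    rw [ha]
    have h1 : (H ⊔ L).index * 2 ^ a ∣ (2 * g) * 2 ^ Ω :=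
      Nat.mul_dvd_mul hdvd (Nat.pow_dvd_pow 2 haΩ')
    refine h1.trans (dvd_of_eq ?_)
    rw [hst2]
    ring
  have hs'0 : s * 2 ^ Ω ≠ 0 := Nat.mul_ne_zero hs0 (pow_ne_zero _ two_ne_zero)
  have hcop : (s * 2 ^ Ω).Coprime t := by
    refine Nat.Coprime.mul_left hst ?_
    exact Nat.Coprime.pow_left _ (Nat.coprime_two_left.2 hto)
  obtain ⟨q, hq⟩ := exists_classes hs'0 hcop ht (Gal E ⧸ L) hcardG
  have h3 := hCLS (Gal E) (E →+* ℂ) (fun ψ : E →+* ℂ => c • ψ) T (fun W => 𝓕.rep W) L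
    (fun W => hmin W (hT W.2))
    (fun W W' hWW => 𝓕.hne W (hT W.2) W' (hT W'.2) (fun h => hWW (Subtype.ext h)))
    (fun W γ hγ => (hmemL γ).1 hγ W W.2) _ q hq
  rw [Fintype.card_coe] at h3
  refine h3.trans ?_
  have h4 : Ω = s.primeFactorsList.length + t.primeFactorsList.length := by
    rw [hΩ, hst2, omega_mul hs0 ht0]
  rw [h4, pow_add, two_pow_omega_squarefree ht]
  have h5 := two_pow_omega_le hs0
  calc t.divisors.card * (s * (2 ^ s.primeFactorsList.length * t.divisors.card)) =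
      t.divisors.card ^ 2 * (s * 2 ^ s.primeFactorsList.length) := by ring
    _ ≤ t.divisors.card ^ 2 * (s * s) :=
        Nat.mul_le_mul_left _ (Nat.mul_le_mul_left _ h5)
    _ = _ := by ring

end Pool.Agent.Q29.TE
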