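import Mathlib
import Pool.Agent.Q29.TE.CountTwo
import Pool.Agent.Q29.DP.Laws

/-!
# The polynomial bound for the number of the degenerate types
-/

set_option linter.unusedSectionVars false
set_option linter.unusedVariables false

namespace Pool.Agent.Q29.TE

open NumberField Finset Module Pool.Agent.H204R3.CM Pool.Agent.TH170.MF Pool.Agent.TH170.QC
  Pool.Agent.TH170.QE Pool.Agent.TH170.FW Pool.Agent.TH170.CM Pool.Agent.TH170.GC
  Pool.Agent.Y1.KN Pool.Agent.Q29.TD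

theorem cnt_le_two_pow {E : Type} [Field E] [NumberField E] [IsCMField E] {g : ℕ}
    (hg : finrank ℚ E = 2 * g) (M : (E →+* ℂ) → ℤ) (S : Submodule ℚ ((E →+* ℂ) → ℚ)) :
    (cnt M S : ℝ) ≤ 2 ^ g := by
  have h1 : cnt M S ≤ {Φ : Set (E →+* ℂ) | IsCMType Φ}.ncard :=
    Set.ncard_le_ncard (fun Φ hΦ => hΦ.1) (Set.toFinite _)
  rw [Pool.Agent.Q29.DP.ncard_cmTypes E hg] at h1
  exact_mod_cast h1

theorem degTypes_le_two_pow {E : Type} [Field E] [NumberField E] [IsCMField E] {g : ℕ}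
    (hg : finrank ℚ E = 2 * g) (M : (E →+* ℂ) → ℤ) :
    ((degTypes M).ncard : ℝ) ≤ 2 ^ g := by
  have h1 : (degTypes M).ncard ≤ {Φ : Set (E →+* ℂ) | IsCMType Φ}.ncard :=
    Set.ncard_le_ncard (fun Φ hΦ => hΦ.1) (Set.toFinite _)
  rw [Pool.Agent.Q29.DP.ncard_cmTypes E hg] at h1
  exact_mod_cast h1

section est

variable {κ : Consts} {E : Type} [Field E] [NumberField E] [IsCMField E] {φ₀ : E →+* ℂ}
  {M : (E →+* ℂ) → ℤ} {n g : ℕ} {S : Submodule ℚ ((E →+* ℂ) → ℚ)} {F : IntermediateField ℚ E}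
  {d e h c gF m : ℕ}

theorem Est.d1 (hE : Est κ φ₀ M n g S F d e h c gF m) : 1 ≤ d := by
  have h1 := hE.e1
  have h2 := hE.eh
  have h3 := hE.hd
  omega

theorem Est.c1 (hE : Est κ φ₀ M n g S F d e h c gF m) : 1 ≤ c := by
  have h1 := hE.e1
  have h2 := hE.ceq
  omega

/-- The multiplicity times the dimension for codimension one. -/
theorem Est.mult_one (hE : Est κ φ₀ M n g S F d e h c gF m) (hc : c = 1) :
    (h * d / e : ℝ) = (d : ℝ) ^ 2 := by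
  have h1 := hE.e1
  have h2 := hE.eh
  have h3 := hE.hd
  have h4 := hE.ceq
  obtain rfl : e = 1 := by omega
  obtain rfl : h = d := by omega
  rw [Nat.cast_one, div_one, pow_two]

/-- The multiplicity times the dimension for codimension two. -/
theorem Est.mult_two (hE : Est κ φ₀ M n g S F d e h c gF m) (hc : c = 2) :
    (d : ℝ) ^ 2 ≤ 2 * (h * d / e : ℝ) := by
  have h1 := hE.e1
  have h2 := hE.eh
  have h3 := hE.hd
  have h4 := hE.ceq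
  rcases Nat.lt_or_ge 1 e with he | he
  · obtain rfl : e = 2 := by omega
    obtain rfl : h = d := by omega
    push_cast
    linarith [sq_nonneg (h : ℝ)]
  · obtain rfl : e = 1 := by omega
    obtain rfl : d = h + 1 := by omega
    have hh : (1 : ℝ) ≤ h := by exact_mod_cast h2
    push_cast
    nlinarith

theorem Est.mult_two_two (hE : Est κ φ₀ M n g S F d e h c gF m) (hc : c = 2) (hd : d = 2) :
    (h * d / e : ℝ) = 2 := by
  have h1 := hE.e1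
  have h2 := hE.eh
  have h3 := hE.hd
  have h4 := hE.ceq
  rcases Nat.lt_or_ge 1 e with he | he
  · obtain rfl : e = 2 := by omega
    obtain rfl : h = 2 := by omega
    rw [hd]
    norm_num
  · obtain rfl : e = 1 := by omega
    obtain rfl : h = 1 := by omega
    rw [hd]
    norm_num

theorem Est.mult_nonneg (hE : Est κ φ₀ M n g S F d e h c gF m) :
    (0 : ℝ) ≤ (h * d / e : ℝ) := by positivity

/-- The estimate for one class of codimension at most two. -/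
theorem Est.le_quarter (hE : Est κ φ₀ M n g S F d e h c gF m) (hg : finrank ℚ E = 2 * g)
    (hn0 : n ≠ 0) (hc : c ≤ 2) :
    (cnt M S : ℝ) ≤ 2 ^ g * (2 * κ.K * (n : ℝ) ^ 2 * (1 + Real.log g) ^ 2 / (g : ℝ) ^ (1 / 4 : ℝ)) := by
  have hg0 : 0 < g := by
    have := Module.finrank_pos (R := ℚ) (M := E)
    omega
  have hgR : (0 : ℝ) < g := by exact_mod_cast hg0
  have hg1 : (1 : ℝ) ≤ g := by exact_mod_cast hg0
  have hlog : 0 ≤ Real.log g := Real.log_nonneg hg1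
  have hn1 : 1 ≤ n := Nat.one_le_iff_ne_zero.2 hn0
  have hn1R : (1 : ℝ) ≤ n := by exact_mod_cast hn1
  have hpow : (0 : ℝ) < 2 ^ g := by positivity
  have hK1 := κ.K1
  set y := √(κ.K * (n : ℝ) ^ 2 * (1 + Real.log g) ^ 3 * d / g) with hy
  have hyy : 0 ≤ y := Real.sqrt_nonneg _
  have hc1 := hE.c1
  have hNy : (cnt M S : ℝ) ≤ 2 ^ g * y := by
    rcases le_total y 1 with h5 | h5
    · refine (hE.two hc).trans (mul_le_mul_of_nonneg_left ?_ hpow.le)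
      calc y ^ c ≤ y ^ 1 := pow_le_pow_of_le_one hyy h5 hc1
        _ = y := pow_one y
    · refine (cnt_le_two_pow hg M S).trans ?_
      nlinarith
  refine hNy.trans (mul_le_mul_of_nonneg_left ?_ hpow.le)
  have hG4 : (0 : ℝ) < (g : ℝ) ^ (1 / 4 : ℝ) := Real.rpow_pos_of_pos hgR _
  have hfour : ((g : ℝ) ^ (1 / 4 : ℝ)) ^ 2 = √(g : ℝ) := by
    rw [Real.sqrt_eq_rpow, ← Real.rpow_natCast, ← Real.rpow_mul hgR.le]
    norm_num
  have hgFg : gF ≤ g := by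
    rw [hE.mul]
    rcases Nat.eq_zero_or_pos m with h0 | h0
    · have := hE.mul
      rw [h0, zero_mul] at this
      omega
    · exact Nat.le_mul_of_pos_left _ h0
  have hdle : (d : ℝ) ≤ 2 * √(g : ℝ) := by
    have h7 : (d : ℝ) ^ 2 ≤ 2 * g := by
      have := (hE.sq hc).trans (Nat.mul_le_mul_left 2 hgFg)
      exact_mod_cast this
    have h8 : (d : ℝ) ^ 2 ≤ (2 * √(g : ℝ)) ^ 2 := by
      rw [mul_pow, Real.sq_sqrt hgR.le]
      nlinarith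
    exact (sq_le_sq₀ (Nat.cast_nonneg _) (by positivity)).1 h8
  rw [hy]
  refine Real.sqrt_le_iff.2 ⟨by positivity, ?_⟩
  rw [div_pow, hfour]
  have h9 : (1 : ℝ) ≤ (n : ℝ) ^ 2 := one_le_pow₀ hn1R
  have h10 : (1 : ℝ) ≤ κ.K * (n : ℝ) ^ 2 := by nlinarith
  have hΛ : (1 : ℝ) ≤ 1 + Real.log g := by linarith
  have hsq : 0 < √(g : ℝ) := Real.sqrt_pos.2 hgR
  rw [div_le_div_iff₀ hgR hsq]
  have h11 : (g : ℝ) = √(g : ℝ) * √(g : ℝ) := (Real.mul_self_sqrt hgR.le).symm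
  calc κ.K * (n : ℝ) ^ 2 * (1 + Real.log g) ^ 3 * (d : ℝ) * √(g : ℝ) ≤
      κ.K * (n : ℝ) ^ 2 * (1 + Real.log g) ^ 3 * (2 * √(g : ℝ)) * √(g : ℝ) := by
        gcongr
    _ = 2 * ((κ.K * (n : ℝ) ^ 2) * 1 * (1 + Real.log g) ^ 3) * (√(g : ℝ) * √(g : ℝ)) := by ring
    _ ≤ 2 * ((κ.K * (n : ℝ) ^ 2) * (κ.K * (n : ℝ) ^ 2) * (1 + Real.log g) ^ 4) *
          (√(g : ℝ) * √(g : ℝ)) := by
        have h12 : (1 + Real.log g) ^ 3 ≤ (1 + Real.log (g : ℝ)) ^ 4 :=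
          pow_le_pow_right₀ hΛ (by norm_num)
        gcongr
    _ = 2 * ((κ.K * (n : ℝ) ^ 2) * (κ.K * (n : ℝ) ^ 2) * (1 + Real.log g) ^ 4) * (g : ℝ) := by
        rw [← h11]
    _ ≤ 4 * ((κ.K * (n : ℝ) ^ 2) * (κ.K * (n : ℝ) ^ 2) * (1 + Real.log g) ^ 4) *
          (g : ℝ) := by gcongr; norm_num
    _ = _ := by ring

end est

variable {κ : Consts} {E : Type} [Field E] [NumberField E] [IsCMField E] {φ₀ : E →+* ℂ}
  {M : (E →+* ℂ) → ℤ} {n g : ℕ}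

/-- The contribution of the classes of codimension at least three. -/
theorem Fam.sum_three (𝓕 : Fam κ φ₀ M n g) (hg : finrank ℚ E = 2 * g)
    (T : Finset (Submodule ℚ ((E →+* ℂ) → ℚ))) (hT : T ⊆ 𝓕.Ws) (hT3 : ∀ W ∈ T, 3 ≤ 𝓕.c W) :
    ((∑ W ∈ T, cnt M (𝓕.rep W) : ℕ) : ℝ) ≤
      2 ^ g * (κ.C * (n : ℝ) ^ 4 * ((1 + Real.log g) ^ 21 / √g)) := by
  have hg0 : 0 < g := by
    have := Module.finrank_pos (R := ℚ) (M := E)
    omega
  have hgR : (0 : ℝ) < g := by exact_mod_cast hg0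
  have hg1 : (1 : ℝ) ≤ g := by exact_mod_cast hg0
  have hlog : 0 ≤ Real.log g := Real.log_nonneg hg1
  have hC0 := κ.C0
  have hone : ∀ W ∈ T, (cnt M (𝓕.rep W) : ℝ) ≤
      2 ^ g * (κ.C * (n : ℝ) ^ 4 * ((1 + Real.log g) ^ 21 / √g)) *
        ((𝓕.h W * 𝓕.d W / 𝓕.e W : ℝ) / g) := by
    intro W hW
    refine ((𝓕.est W (hT hW)).three (hT3 W hW)).trans (le_of_eq ?_)
    have h0 : (0 : ℝ) < 𝓕.e W := by exact_mod_cast (𝓕.est W (hT hW)).e1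
    rw [div_div]
    ring
  rw [Nat.cast_sum]
  refine (sum_le_sum hone).trans ?_
  rw [← mul_sum, ← sum_div]
  refine mul_le_of_le_one_right (by positivity) ?_
  rw [div_le_one hgR]
  exact 𝓕.sum_all_le hg T hT

/-- The bound for the proportion of the degenerate types, for `4 g = s t`. -/
noncomputable def rate (g s t : ℕ) : ℝ :=
  (1 + Real.log (2 * g)) ^ 16 * (t.divisors.card : ℝ) ^ 2 * (s : ℝ) ^ 2 / (g : ℝ) ^ (1 / 4 : ℝ)

/-- **The polynomial bound.** -/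
theorem poly_aux (hEH : S_EH) (hREL : S_REL) (hCHAIN : S_CHAIN) (hCLS : S_CLS) (κ : Consts) :
    ∃ C : ℝ, 0 ≤ C ∧ ∀ (E : Type) [Field E] [NumberField E] [IsCMField E] (M : (E →+* ℂ) → ℤ)
    (n g s t : ℕ), n ≠ 0 → (∀ φ, M φ ∣ (n : ℤ)) →
    (∀ φ, M (ComplexEmbedding.conjugate φ) = M φ) →
    finrank ℚ E = 2 * g → 4 * g = s * t → s.Coprime t → Squarefree t →
    ((degTypes M).ncard : ℝ) ≤ 2 ^ g * (C * (n : ℝ) ^ 2 * rate g s t) := by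
  classical
  refine ⟨(1 + κ.C) + 2 * κ.K, by have := κ.C0; have := κ.K1; positivity, ?_⟩
  intro E _ _ _ M n g s t hn0 hMn hMc hg hgst hst ht
  obtain ⟨φ₀⟩ : Nonempty (E →+* ℂ) := inferInstance
  obtain ⟨𝓕⟩ := exists_fam hEH hREL κ E φ₀ hn0 hMn hMc hg
  have hC0 := κ.C0
  have hK1 := κ.K1
  have hg0 : 0 < g := by
    have := Module.finrank_pos (R := ℚ) (M := E)
    omega
  have hgR : (0 : ℝ) < g := by exact_mod_cast hg0
  have hg1 : (1 : ℝ) ≤ g := by exact_mod_cast hg0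
  have hlog : 0 ≤ Real.log g := Real.log_nonneg hg1
  have hn1 : 1 ≤ n := Nat.one_le_iff_ne_zero.2 hn0
  have hn1R : (1 : ℝ) ≤ n := by exact_mod_cast hn1
  have hpow : (0 : ℝ) < 2 ^ g := by positivity
  -- the factors
  have hto : Odd t := by
    rw [← Nat.not_even_iff_odd]
    intro hte
    have h2t : 2 ∣ t := hte.two_dvd
    have h1 : s.Coprime 2 := Nat.Coprime.coprime_dvd_right h2t hst
    have h2 : 2 ^ 2 ∣ s * t := ⟨g, by rw [← hgst]; norm_num⟩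
    have h3 : 2 ^ 2 ∣ t := (Nat.Coprime.pow_right 2 h1).symm.dvd_of_dvd_mul_left h2
    have h4 := ht 2 (by rw [← pow_two]; exact h3)
    exact absurd h4 (by decide)
  have hs2 : 2 ∣ s := by
    have h2 : 2 ∣ s * t := ⟨2 * g, by rw [← hgst]; ring⟩
    exact (Nat.coprime_two_left.2 hto).dvd_of_dvd_mul_right h2
  obtain ⟨s₁, rfl⟩ := hs2
  have h2g : 2 * g = s₁ * t := by
    have : 2 * (2 * g) = 2 * (s₁ * t) := by
      rw [← mul_assoc, ← mul_assoc]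
      omega
    exact Nat.eq_of_mul_eq_mul_left two_pos this
  have hst₁ : s₁.Coprime t := Nat.Coprime.coprime_dvd_left ⟨2, by ring⟩ hst
  have hs₁ : 1 ≤ s₁ := by
    rw [Nat.one_le_iff_ne_zero]
    rintro rfl
    omega
  have ht1 : 1 ≤ t.divisors.card :=
    Finset.card_pos.2 ⟨1, Nat.one_mem_divisors.2 ht.ne_zero⟩
  set A := 𝓕.Ws.filter (fun W => 3 ≤ 𝓕.c W) with hA
  set B := 𝓕.Ws.filter (fun W => ¬ 3 ≤ 𝓕.c W) with hB
  have hAs : A ⊆ 𝓕.Ws := filter_subset _ _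
  have hBs : B ⊆ 𝓕.Ws := filter_subset _ _
  have hsplit : ∑ W ∈ 𝓕.Ws, cnt M (𝓕.rep W) =
      ∑ W ∈ A, cnt M (𝓕.rep W) + ∑ W ∈ B, cnt M (𝓕.rep W) := by
    rw [hA, hB, sum_filter_add_sum_filter_not]
  have hsumA := 𝓕.sum_three hg A hAs (fun W hW => (mem_filter.1 hW).2)
  have hcardB := 𝓕.card_two hCHAIN hCLS hg B hBs (fun W hW => by
    have := (mem_filter.1 hW).2
    omega) h2g hst₁ ht hto
  have hG4 : (0 : ℝ) < (g : ℝ) ^ (1 / 4 : ℝ) := Real.rpow_pos_of_pos hgR _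
  have hsumB : ((∑ W ∈ B, cnt M (𝓕.rep W) : ℕ) : ℝ) ≤
      ((t.divisors.card ^ 2 * s₁ ^ 2 : ℕ) : ℝ) * (2 ^ g * (2 * κ.K * (n : ℝ) ^ 2 *
        (1 + Real.log g) ^ 2 / (g : ℝ) ^ (1 / 4 : ℝ))) := by
    rw [Nat.cast_sum]
    refine (sum_le_sum fun W hW => (𝓕.est W (hBs hW)).le_quarter hg hn0 (by
      have := (mem_filter.1 hW).2
      omega)).trans ?_
    rw [sum_const, nsmul_eq_mul]
    have h3 : (B.card : ℝ) ≤ ((t.divisors.card ^ 2 * s₁ ^ 2 : ℕ) : ℝ) := by exact_mod_cast hcardB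
    gcongr
  set Λ := 1 + Real.log (2 * (g : ℝ)) with hΛ
  have hl2 : Real.log g ≤ Real.log (2 * g) := Real.log_le_log hgR (by linarith)
  have hΛ1 : (1 : ℝ) ≤ Λ := by linarith
  have hls : 1 + Real.log g ≤ Λ := by linarith
  have hl0 : 0 ≤ 1 + Real.log (g : ℝ) := by linarith
  set T : ℝ := (t.divisors.card : ℝ) ^ 2 * (((2 * s₁ : ℕ) : ℝ)) ^ 2 with hT
  have hτR : (1 : ℝ) ≤ (t.divisors.card : ℝ) := by exact_mod_cast ht1
  have hs₁R : (1 : ℝ) ≤ (s₁ : ℝ) := by exact_mod_cast hs₁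
  have hT1 : (1 : ℝ) ≤ T := by
    rw [hT]
    push_cast
    have h1 : (1 : ℝ) ≤ (t.divisors.card : ℝ) ^ 2 := one_le_pow₀ hτR
    have h2 : (1 : ℝ) ≤ (2 * (s₁ : ℝ)) ^ 2 := one_le_pow₀ (by linarith)
    nlinarith
  have hrate : rate g (2 * s₁) t = Λ ^ 16 * T / (g : ℝ) ^ (1 / 4 : ℝ) := by
    unfold rate
    rw [hT]
    ring
  -- the first part
  have hfirst : min (2 ^ g : ℝ) (2 ^ g * (κ.C * (n : ℝ) ^ 4 * ((1 + Real.log g) ^ 21 / √g))) ≤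
      2 ^ g * ((1 + κ.C) * (n : ℝ) ^ 2 * (Λ ^ 16 * T / (g : ℝ) ^ (1 / 4 : ℝ))) := by
    set X : ℝ := κ.C * (n : ℝ) ^ 4 * ((1 + Real.log g) ^ 21 / √g) with hX
    have hsq : 0 < √(g : ℝ) := Real.sqrt_pos.2 hgR
    have hX0 : 0 ≤ X := by positivity
    have h1 : min (2 ^ g : ℝ) (2 ^ g * X) ≤ 2 ^ g * √X := by
      rcases le_total X 1 with h5 | h5
      · refine (min_le_right _ _).trans (mul_le_mul_of_nonneg_left ?_ hpow.le)
        refine Real.le_sqrt_of_sq_le ?_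
        nlinarith
      · refine (min_le_left _ _).trans ?_
        have h6 : 1 ≤ √X := Real.one_le_sqrt.2 h5
        nlinarith
    refine h1.trans (mul_le_mul_of_nonneg_left ?_ hpow.le)
    refine Real.sqrt_le_iff.2 ⟨by positivity, ?_⟩
    have hfour : ((g : ℝ) ^ (1 / 4 : ℝ)) ^ 2 = √(g : ℝ) := by
      rw [Real.sqrt_eq_rpow, ← Real.rpow_natCast, ← Real.rpow_mul hgR.le]
      norm_num
    have h7 : ((1 + κ.C) * (n : ℝ) ^ 2 * (Λ ^ 16 * T / (g : ℝ) ^ (1 / 4 : ℝ))) ^ 2 =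
        (1 + κ.C) ^ 2 * (n : ℝ) ^ 4 * ((Λ ^ 32 * T ^ 2) / √g) := by
      rw [mul_pow, mul_pow, div_pow, hfour]
      ring
    rw [h7, hX]
    have h8 : κ.C ≤ (1 + κ.C) ^ 2 := by nlinarith
    have h9 : (1 + Real.log g) ^ 21 ≤ Λ ^ 32 * T ^ 2 := by
      calc (1 + Real.log g) ^ 21 ≤ Λ ^ 21 := pow_le_pow_left₀ hl0 hls 21
        _ ≤ Λ ^ 32 := pow_le_pow_right₀ hΛ1 (by norm_num)
        _ = Λ ^ 32 * 1 := (mul_one _).symm
        _ ≤ Λ ^ 32 * T ^ 2 := by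
          have : (1 : ℝ) ≤ T ^ 2 := one_le_pow₀ hT1
          gcongr
    gcongr
  have hsecond : ((t.divisors.card ^ 2 * s₁ ^ 2 : ℕ) : ℝ) * (2 ^ g * (2 * κ.K * (n : ℝ) ^ 2 *
        (1 + Real.log g) ^ 2 / (g : ℝ) ^ (1 / 4 : ℝ))) ≤
      2 ^ g * (2 * κ.K * (n : ℝ) ^ 2 * (Λ ^ 16 * T / (g : ℝ) ^ (1 / 4 : ℝ))) := by
    have h1 : ((t.divisors.card ^ 2 * s₁ ^ 2 : ℕ) : ℝ) ≤ T := by
      rw [hT]
      push_cast
      have h3 : (s₁ : ℝ) ^ 2 ≤ (2 * (s₁ : ℝ)) ^ 2 :=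
        pow_le_pow_left₀ (by linarith) (by linarith) 2
      gcongr
    have h2 : (1 + Real.log g) ^ 2 ≤ Λ ^ 16 :=
      (pow_le_pow_left₀ hl0 hls 2).trans (pow_le_pow_right₀ hΛ1 (by norm_num))
    calc ((t.divisors.card ^ 2 * s₁ ^ 2 : ℕ) : ℝ) * (2 ^ g * (2 * κ.K * (n : ℝ) ^ 2 *
        (1 + Real.log g) ^ 2 / (g : ℝ) ^ (1 / 4 : ℝ))) ≤
        T * (2 ^ g * (2 * κ.K * (n : ℝ) ^ 2 * Λ ^ 16 / (g : ℝ) ^ (1 / 4 : ℝ))) := by gcongr
      _ = _ := by ring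
  -- the end
  have hmin : ((∑ W ∈ A, cnt M (𝓕.rep W) : ℕ) : ℝ) ≤
      2 ^ g * (κ.C * (n : ℝ) ^ 4 * ((1 + Real.log g) ^ 21 / √g)) := hsumA
  have htot : ((degTypes M).ncard : ℝ) ≤
      ((∑ W ∈ A, cnt M (𝓕.rep W) : ℕ) : ℝ) + ((∑ W ∈ B, cnt M (𝓕.rep W) : ℕ) : ℝ) := by
    rw [← Nat.cast_add, ← hsplit]
    exact_mod_cast 𝓕.tot
  have hdeg := degTypes_le_two_pow hg M
  rw [hrate]
  have hB0 : (0 : ℝ) ≤ ((∑ W ∈ B, cnt M (𝓕.rep W) : ℕ) : ℝ) := Nat.cast_nonneg _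
  have hfin : ((degTypes M).ncard : ℝ) ≤
      min (2 ^ g : ℝ) (2 ^ g * (κ.C * (n : ℝ) ^ 4 * ((1 + Real.log g) ^ 21 / √g))) +
        ((∑ W ∈ B, cnt M (𝓕.rep W) : ℕ) : ℝ) := by
    rcases min_choice (2 ^ g : ℝ) (2 ^ g * (κ.C * (n : ℝ) ^ 4 * ((1 + Real.log g) ^ 21 / √g)))
      with h5 | h5 <;> rw [h5]
    · linarith
    · linarith
  calc ((degTypes M).ncard : ℝ) ≤ _ := hfin
    _ ≤ 2 ^ g * ((1 + κ.C) * (n : ℝ) ^ 2 * (Λ ^ 16 * T / (g : ℝ) ^ (1 / 4 : ℝ))) +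
        2 ^ g * (2 * κ.K * (n : ℝ) ^ 2 * (Λ ^ 16 * T / (g : ℝ) ^ (1 / 4 : ℝ))) :=
      add_le_add hfirst (hsumB.trans hsecond)
    _ = _ := by ring

end Pool.Agent.Q29.TE
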