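import Mathlib
import Pool.Agent.Q29.TE.Bound
import Pool.Agent.Q29.TE.RowsDefs

/-!
# Almost all types for odd degrees, and for fields with few small subfields
-/

set_option linter.unusedSectionVars false
set_option linter.unusedVariables false

namespace Pool.Agent.Q29.TE

open NumberField Finset Module Pool.Agent.H204R3.CM Pool.Agent.TH170.MF Pool.Agent.TH170.QC
  Pool.Agent.TH170.QE Pool.Agent.TH170.FW Pool.Agent.TH170.CM Pool.Agent.TH170.GC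
  Pool.Agent.Y1.KN Pool.Agent.Q29.TD

section est

variable {κ : Consts} {E : Type} [Field E] [NumberField E] [IsCMField E] {φ₀ : E →+* ℂ}
  {M : (E →+* ℂ) → ℤ} {n g : ℕ} {S : Submodule ℚ ((E →+* ℂ) → ℚ)} {F : IntermediateField ℚ E}
  {d e h c gF m : ℕ}

theorem Est.gF1 (hE : Est κ φ₀ M n g S F d e h c gF m) (hg : finrank ℚ E = 2 * g) : 1 ≤ gF := by
  have hg0 : 0 < g := by
    have := Module.finrank_pos (R := ℚ) (M := E)
    omega
  rcases Nat.eq_zero_or_pos gF with h0 | h0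
  · have := hE.mul
    rw [h0, mul_zero] at this
    omega
  · exact h0

theorem Est.gF_le (hE : Est κ φ₀ M n g S F d e h c gF m) (hg : finrank ℚ E = 2 * g) :
    gF ≤ g := by
  have h1 := hE.mul
  have hg0 : 0 < g := by
    have := Module.finrank_pos (R := ℚ) (M := E)
    omega
  have hm1 : 1 ≤ m := by
    rcases Nat.eq_zero_or_pos m with h0 | h0
    · rw [h0, zero_mul] at h1
      omega
    · exact h0
  rw [h1]
  exact Nat.le_mul_of_pos_left _ hm1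

/-- The quotient by the index. -/
theorem Est.div_m (hE : Est κ φ₀ M n g S F d e h c gF m) (hg : finrank ℚ E = 2 * g) {C : ℝ}
    (hC : 0 ≤ C) {P : ℕ} (hP : gF ≤ P) : C / m ≤ C * P / g := by
  have hg0 : 0 < g := by
    have := Module.finrank_pos (R := ℚ) (M := E)
    omega
  have hm0 : 0 < m := by
    rcases Nat.eq_zero_or_pos m with h0 | h0
    · have := hE.mul
      rw [h0, zero_mul] at this
      omega
    · exact h0
  have hmR : (0 : ℝ) < m := by exact_mod_cast hm0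
  have hgR : (0 : ℝ) < g := by exact_mod_cast hg0
  rw [div_le_div_iff₀ hmR hgR]
  have h1 : (g : ℝ) = m * gF := by exact_mod_cast hE.mul
  have h2 : (gF : ℝ) ≤ P := by exact_mod_cast hP
  rw [h1]
  calc C * (m * gF) ≤ C * (m * P) := by gcongr
    _ = _ := by ring

theorem Est.m_ge (hE : Est κ φ₀ M n g S F d e h c gF m) (hg : finrank ℚ E = 2 * g) {P m₀ : ℕ}
    (hP : gF ≤ P) (hgP : m₀ * P ≤ g) : m₀ ≤ m := by
  have h1 := hE.gF1 hg
  have h2 := hE.mul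
  have h3 : m₀ * gF ≤ m * gF := by
    rw [← h2]
    exact (Nat.mul_le_mul_left _ hP).trans hgP
  exact Nat.le_of_mul_le_mul_right h3 h1

theorem Est.d2 (hE : Est κ φ₀ M n g S F d e h c gF m) (hc : c = 2) : 2 ≤ d := by
  have h1 := hE.e1
  have h2 := hE.eh
  have h3 := hE.hd
  have h4 := hE.ceq
  omega

end est

/-- The contribution of the classes of codimension at least three, and of those of codimension two
and dimension at least three. -/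
theorem main_small (hSMALL : S_SMALL) (hLIM : S_LIM) (κ : Consts) (n : ℕ) {ε : ℝ} (hε : 0 < ε) :
    ∃ g₀ : ℕ, ∀ (E : Type) [Field E] [NumberField E] [IsCMField E] (φ₀ : E →+* ℂ)
      (M : (E →+* ℂ) → ℤ) (g : ℕ) (𝓕 : Fam κ φ₀ M n g), finrank ℚ E = 2 * g → g₀ ≤ g →
      ∀ T : Finset (Submodule ℚ ((E →+* ℂ) → ℚ)), T ⊆ 𝓕.Ws →
      (∀ W ∈ T, 3 ≤ 𝓕.c W ∨ (𝓕.c W = 2 ∧ 3 ≤ 𝓕.d W)) →
      ((∑ W ∈ T, cnt M (𝓕.rep W) : ℕ) : ℝ) ≤ 2 ^ g * ε := by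
  classical
  obtain ⟨l1, l2, l3⟩ := hLIM
  obtain ⟨g₁, hg₁⟩ := l1 n
  obtain ⟨g₂, hg₂⟩ := l2 (κ.C * (n : ℝ) ^ 4) (ε / 3) 21 (by positivity)
  obtain ⟨D₀, hD₀3, hD₀⟩ := l3 (ε / 192) (by positivity)
  set P : ℕ := 3 ^ (D₀ ^ 2) with hP
  have hP0 : 0 < P := by rw [hP]; positivity
  have hPR : (0 : ℝ) < P := by exact_mod_cast hP0
  obtain ⟨m₀, hm₀⟩ := hSMALL (2 * P) n (ε / (3 * P)) (by positivity)
  refine ⟨max (max g₁ g₂) (m₀ * P), ?_⟩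
  intro E _ _ _ φ₀ M g 𝓕 hg hgg T hT hTc
  have hgg₁ : g₁ ≤ g := (le_max_left _ _).trans ((le_max_left _ _).trans hgg)
  have hgg₂ : g₂ ≤ g := (le_max_right _ _).trans ((le_max_left _ _).trans hgg)
  have hgg₃ : m₀ * P ≤ g := (le_max_right _ _).trans hgg
  have hg0 : 0 < g := by
    have := Module.finrank_pos (R := ℚ) (M := E)
    omega
  have hgR : (0 : ℝ) < g := by exact_mod_cast hg0
  have hpow : (0 : ℝ) < 2 ^ g := by positivity
  set A := T.filter (fun W => 3 ≤ 𝓕.c W) with hA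
  set R := T.filter (fun W => ¬ 3 ≤ 𝓕.c W) with hR
  set R₁ := R.filter (fun W => D₀ ≤ 𝓕.d W) with hR₁
  set R₂ := R.filter (fun W => ¬ D₀ ≤ 𝓕.d W) with hR₂
  have hAT : A ⊆ T := filter_subset _ _
  have hRT : R ⊆ T := filter_subset _ _
  have hR₁R : R₁ ⊆ R := filter_subset _ _
  have hR₂R : R₂ ⊆ R := filter_subset _ _
  have hRc : ∀ W ∈ R, 𝓕.c W = 2 ∧ 3 ≤ 𝓕.d W := by
    intro W hW
    have h1 := (mem_filter.1 hW).2
    rcases hTc W (hRT hW) with h2 | h2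
    · exact absurd h2 h1
    · exact h2
  have hsplit : ((∑ W ∈ T, cnt M (𝓕.rep W) : ℕ) : ℝ) =
      ((∑ W ∈ A, cnt M (𝓕.rep W) : ℕ) : ℝ) + (((∑ W ∈ R₁, cnt M (𝓕.rep W) : ℕ) : ℝ) +
        ((∑ W ∈ R₂, cnt M (𝓕.rep W) : ℕ) : ℝ)) := by
    rw [← Nat.cast_add, ← Nat.cast_add, hR₁, hR₂, sum_filter_add_sum_filter_not, hA, hR,
      sum_filter_add_sum_filter_not]
  -- codimension at least three
  have sA : ((∑ W ∈ A, cnt M (𝓕.rep W) : ℕ) : ℝ) ≤ 2 ^ g * (ε / 3) := by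
    refine (𝓕.sum_three hg A (hAT.trans hT) (fun W hW => (mem_filter.1 hW).2)).trans ?_
    exact mul_le_mul_of_nonneg_left (hg₂ g hgg₂) hpow.le
  -- a general summation
  have hgen : ∀ T' : Finset (Submodule ℚ ((E →+* ℂ) → ℚ)), T' ⊆ 𝓕.Ws →
      (∀ W ∈ T', (cnt M (𝓕.rep W) : ℝ) ≤ 2 ^ g * (ε / 3) *
        ((𝓕.h W * 𝓕.d W / 𝓕.e W : ℝ) / g)) →
      ((∑ W ∈ T', cnt M (𝓕.rep W) : ℕ) : ℝ) ≤ 2 ^ g * (ε / 3) := by
    intro T' hT' hle
    rw [Nat.cast_sum]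
    refine (sum_le_sum hle).trans ?_
    rw [← mul_sum, ← sum_div]
    refine mul_le_of_le_one_right (by positivity) ?_
    rw [div_le_one hgR]
    exact 𝓕.sum_all_le hg T' hT'
  -- codimension two, large dimension
  have s1 : ((∑ W ∈ R₁, cnt M (𝓕.rep W) : ℕ) : ℝ) ≤ 2 ^ g * (ε / 3) := by
    refine hgen R₁ (hR₁R.trans (hRT.trans hT)) fun W hW => ?_
    have hWR := hR₁R hW
    obtain ⟨hc, hd3⟩ := hRc W hWR
    have hdD : D₀ ≤ 𝓕.d W := (mem_filter.1 hW).2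
    have hE := 𝓕.est W (hT (hRT hWR))
    have hd1 : 1 ≤ 𝓕.d W := by omega
    have hd2 : 𝓕.d W ^ 2 ≤ 2 * g :=
      (hE.sq hc.le).trans (Nat.mul_le_mul_left 2 (hE.gF_le hg))
    have h1 := hE.two' hc.le (hg₁ g (𝓕.d W) hgg₁ hd1 hd2)
    have h2 := hD₀ (𝓕.d W) hdD
    have hl0 : 0 ≤ Real.log (4 * 𝓕.d W) := by
      refine Real.log_nonneg ?_
      have : (1 : ℝ) ≤ 𝓕.d W := by exact_mod_cast hd1
      linarith
    have h3 := hE.mult_two hc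
    refine h1.trans ?_
    rw [hc, Real.sq_sqrt (by positivity), mul_assoc (2 ^ g : ℝ)]
    refine mul_le_mul_of_nonneg_left ?_ hpow.le
    calc 32 * Real.log (4 * 𝓕.d W) * 𝓕.d W / g ≤ 32 * (ε / 192 * 𝓕.d W) * 𝓕.d W / g := by
          gcongr
      _ = ε / 6 * ((𝓕.d W : ℝ) ^ 2 / g) := by ring
      _ ≤ ε / 6 * ((2 * (𝓕.h W * 𝓕.d W / 𝓕.e W : ℝ)) / g) := by gcongr
      _ = _ := by ring
  -- codimension two, small dimension
  have s2 : ((∑ W ∈ R₂, cnt M (𝓕.rep W) : ℕ) : ℝ) ≤ 2 ^ g * (ε / 3) := by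
    refine hgen R₂ (hR₂R.trans (hRT.trans hT)) fun W hW => ?_
    have hWR := hR₂R hW
    obtain ⟨hc, hd3⟩ := hRc W hWR
    have hdD : ¬ D₀ ≤ 𝓕.d W := (mem_filter.1 hW).2
    have hE := 𝓕.est W (hT (hRT hWR))
    have h1 : 2 * 𝓕.gF W ≤ P := by
      refine hE.mink.trans (Nat.pow_le_pow_right (by norm_num) ?_)
      exact Nat.pow_le_pow_left (by omega) 2
    have hgP : 𝓕.gF W ≤ P := by omega
    have h2 := hE.small (2 * P) m₀ (ε / (3 * P)) hm₀ hc.ge hc.le hd3 (by omega)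
      (hE.m_ge hg hgP hgg₃)
    have h3 := hE.div_m hg (C := ε / (3 * P)) (by positivity) hgP
    have h4 := hE.mult_two hc
    have hd3R : (3 : ℝ) ≤ 𝓕.d W := by exact_mod_cast hd3
    refine h2.trans ?_
    rw [mul_assoc (2 ^ g : ℝ)]
    refine mul_le_mul_of_nonneg_left (h3.trans ?_) hpow.le
    have h5 : ε / (3 * P) * P = ε / 3 := by
      field_simp
    rw [h5, mul_div_assoc']
    refine div_le_div_of_nonneg_right ?_ hgR.le
    have h6 : (1 : ℝ) ≤ (𝓕.h W * 𝓕.d W / 𝓕.e W : ℝ) := by nlinarith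
    nlinarith
  rw [hsplit]
  calc _ ≤ 2 ^ g * (ε / 3) + (2 ^ g * (ε / 3) + 2 ^ g * (ε / 3)) :=
        add_le_add sA (add_le_add s1 s2)
    _ = _ := by ring

/-- The estimate for the classes of codimension one. -/
theorem Est.one_le {κ : Consts} {E : Type} [Field E] [NumberField E] [IsCMField E] {φ₀ : E →+* ℂ}
    {M : (E →+* ℂ) → ℤ} {n g : ℕ} {S : Submodule ℚ ((E →+* ℂ) → ℚ)} {F : IntermediateField ℚ E}
    {d e h c gF m : ℕ} (hE : Est κ φ₀ M n g S F d e h c gF m) (hg : finrank ℚ E = 2 * g)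
    (hc : c = 1) : (cnt M S : ℝ) ≤
      2 ^ g * (√(κ.K * (n : ℝ) ^ 2) * (√((1 + Real.log g) ^ 3) / √g) * √d) := by
  have hg0 : 0 < g := by
    have := Module.finrank_pos (R := ℚ) (M := E)
    omega
  have hgR : (0 : ℝ) < g := by exact_mod_cast hg0
  have hg1 : (1 : ℝ) ≤ g := by exact_mod_cast hg0
  have hlog : 0 ≤ Real.log g := Real.log_nonneg hg1
  have hK1 := κ.K1
  have hd1 : (1 : ℝ) ≤ d := by exact_mod_cast hE.d1
  refine (hE.two (by omega)).trans (mul_le_mul_of_nonneg_left ?_ (by positivity))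
  rw [hc, pow_one, Real.sqrt_div' _ hgR.le, Real.sqrt_mul' _ (by linarith),
    Real.sqrt_mul' _ (by positivity)]
  refine le_of_eq ?_
  ring

theorem sqrt_le_sq {d : ℕ} (hd : 1 ≤ d) : √(d : ℝ) ≤ (d : ℝ) ^ 2 := by
  have hd1 : (1 : ℝ) ≤ d := by exact_mod_cast hd
  refine Real.sqrt_le_iff.2 ⟨by positivity, ?_⟩
  rw [← pow_mul]
  exact le_self_pow₀ hd1 (by norm_num)

/-- A number with small prime factors that divides twice an odd number. -/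
theorem dvd_two_of {q g : ℕ} (hg : Odd g) (hq : q ∣ 2 * g)
    (hp : ∀ p : ℕ, p.Prime → p ∣ q → p ≤ 2) : q ∣ 2 := by
  have h1 : q.Coprime g := by
    refine Nat.Coprime.symm (Nat.coprime_of_dvd fun p hpp hpg hpq => ?_)
    have h2 := hp p hpp hpq
    have h3 := hpp.two_le
    obtain rfl : p = 2 := by omega
    exact (Nat.not_even_iff_odd.2 hg) (even_iff_two_dvd.2 hpg)
  exact h1.dvd_of_dvd_mul_right hq

theorem le_two_gcd {q g : ℕ} (hg : g ≠ 0) (hq : q ∣ 2 * g) : q ≤ 2 * Nat.gcd q g := by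
  have h1 : q ∣ Nat.gcd (2 * q) (2 * g) := Nat.dvd_gcd (Dvd.intro_left 2 rfl) hq
  rw [Nat.gcd_mul_left] at h1
  have h2 : 0 < Nat.gcd q g := Nat.gcd_pos_of_pos_right _ (Nat.pos_of_ne_zero hg)
  exact Nat.le_of_dvd (by omega) h1

theorem eq_two_three {q : ℕ} (hq : q ≠ 0) (hp : ∀ p : ℕ, p.Prime → p ∣ q → p ≤ 3) :
    ∃ a b : ℕ, q = 2 ^ a * 3 ^ b := by
  obtain ⟨a, r, hr, hqr⟩ := Nat.exists_eq_pow_mul_and_not_dvd hq 2 (by norm_num)
  have hr0 : r ≠ 0 := by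
    rintro rfl
    exact hr (dvd_zero 2)
  obtain ⟨b, t, ht, hrt⟩ := Nat.exists_eq_pow_mul_and_not_dvd hr0 3 (by norm_num)
  have h1 : t = 1 := by
    by_contra hne
    obtain ⟨p, hpp, hpt⟩ := Nat.exists_prime_and_dvd hne
    have hpr : p ∣ r := hpt.trans (Dvd.intro_left (3 ^ b) hrt.symm)
    have hpq : p ∣ q := hpr.trans (Dvd.intro_left (2 ^ a) hqr.symm)
    have h2 := hp p hpp hpq
    have h3 := hpp.two_le
    rcases Nat.lt_or_ge p 3 with h4 | h4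
    · obtain rfl : p = 2 := by omega
      exact hr hpr
    · obtain rfl : p = 3 := by omega
      exact ht hpt
  exact ⟨a, b, by rw [hqr, hrt, h1, mul_one]⟩

section parts

variable (κ : Consts) (n : ℕ) {ε : ℝ}

/-- The classes of codimension one, odd degree. -/
theorem one_odd (hFS : S_FS) (hIDX : S_IDX) (hLIM : S_LIM) (hε : 0 < ε) :
    ∃ g₀ : ℕ, ∀ (E : Type) [Field E] [NumberField E] [IsCMField E] (φ₀ : E →+* ℂ)
      (M : (E →+* ℂ) → ℤ) (g : ℕ) (𝓕 : Fam κ φ₀ M n g), finrank ℚ E = 2 * g → g₀ ≤ g →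
      Odd g → ∀ T : Finset (Submodule ℚ ((E →+* ℂ) → ℚ)), T ⊆ 𝓕.Ws → (∀ W ∈ T, 𝓕.c W = 1) →
      ((∑ W ∈ T, cnt M (𝓕.rep W) : ℕ) : ℝ) ≤ 2 ^ g * ε := by
  classical
  obtain ⟨g₁, hg₁⟩ := hLIM.2.1 (√(κ.K * (n : ℝ) ^ 2)) ε 3 hε
  refine ⟨g₁, ?_⟩
  intro E _ _ _ φ₀ M g 𝓕 hg hgg hodd T hT hTc
  have hg0 : 0 < g := by
    have := Module.finrank_pos (R := ℚ) (M := E)
    omega
  have hgR : (0 : ℝ) < g := by exact_mod_cast hg0
  have hg1 : (1 : ℝ) ≤ g := by exact_mod_cast hg0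
  have hlog : 0 ≤ Real.log g := Real.log_nonneg hg1
  have hpow : (0 : ℝ) < 2 ^ g := by positivity
  have hd1 : ∀ W ∈ T, 𝓕.d W = 1 := by
    intro W hW
    have hE := 𝓕.est W (hT hW)
    refine hE.odd hFS (hTc W hW) ?_
    have h1 := hE.mul
    rw [h1] at hodd
    exact (Nat.odd_mul.1 hodd).2
  have hcard1 : (T.card : ℝ) ≤ 1 := by
    obtain ⟨q, hq1, hq2, hq3⟩ := 𝓕.few hIDX hg T hT 1 (fun W hW => (hd1 W hW).le)
    have h1 : q ∣ 2 := dvd_two_of hodd hq1 fun p hp hpq => by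
      have := hq2 p hp hpq
      omega
    have h2 : q ≤ 2 := Nat.le_of_dvd (by norm_num) h1
    have h4 : ∑ W ∈ T, (𝓕.h W * 𝓕.d W / 𝓕.e W : ℝ) = T.card := by
      rw [sum_congr rfl (g := fun _ => (1 : ℝ)) fun W hW => ?_, sum_const, nsmul_eq_mul, mul_one]
      rw [(𝓕.est W (hT hW)).mult_one (hTc W hW), hd1 W hW]
      norm_num
    rw [h4] at hq3
    have h5 : (q : ℝ) ≤ 2 := by exact_mod_cast h2
    linarith
  have h1 : ∀ W ∈ T, (cnt M (𝓕.rep W) : ℝ) ≤ 2 ^ g * ε := by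
    intro W hW
    refine ((𝓕.est W (hT hW)).one_le hg (hTc W hW)).trans ?_
    refine mul_le_mul_of_nonneg_left ?_ hpow.le
    refine le_trans ?_ (hg₁ g hgg)
    rw [hd1 W hW, Nat.cast_one, Real.sqrt_one, mul_one]
    refine mul_le_mul_of_nonneg_left ?_ (Real.sqrt_nonneg _)
    refine div_le_div_of_nonneg_right ?_ (Real.sqrt_nonneg _)
    refine Real.sqrt_le_iff.2 ⟨by positivity, ?_⟩
    rw [← pow_mul]
    exact pow_le_pow_right₀ (by linarith) (by norm_num)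
  rw [Nat.cast_sum]
  refine (sum_le_sum h1).trans ?_
  rw [sum_const, nsmul_eq_mul]
  calc (T.card : ℝ) * (2 ^ g * ε) ≤ 1 * (2 ^ g * ε) := by gcongr
    _ = _ := one_mul _

/-- The end of the estimate for codimension one. -/
theorem one_end (hε : 0 < ε) : ∃ g₀ : ℕ, ∀ (E : Type) [Field E] [NumberField E] [IsCMField E]
      (φ₀ : E →+* ℂ) (M : (E →+* ℂ) → ℤ) (g : ℕ) (𝓕 : Fam κ φ₀ M n g), finrank ℚ E = 2 * g →
      g₀ ≤ g → ∀ T : Finset (Submodule ℚ ((E →+* ℂ) → ℚ)), T ⊆ 𝓕.Ws → (∀ W ∈ T, 𝓕.c W = 1) →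
      (∑ W ∈ T, √(𝓕.d W : ℝ)) * (1 + Real.log g) ^ 2 ≤ 6 * √g →
      ((∑ W ∈ T, cnt M (𝓕.rep W) : ℕ) : ℝ) ≤ 2 ^ g * ε := by
  classical
  set Kn : ℝ := √(κ.K * (n : ℝ) ^ 2) with hKn
  have hKn0 : 0 ≤ Kn := Real.sqrt_nonneg _
  refine ⟨⌈Real.exp ((6 * Kn / ε) ^ 2)⌉₊, ?_⟩
  intro E _ _ _ φ₀ M g 𝓕 hg hgg T hT hTc hsum
  have hg0 : 0 < g := by
    have := Module.finrank_pos (R := ℚ) (M := E)
    omega
  have hgR : (0 : ℝ) < g := by exact_mod_cast hg0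
  have hg1 : (1 : ℝ) ≤ g := by exact_mod_cast hg0
  have hlog : 0 ≤ Real.log g := Real.log_nonneg hg1
  have hpow : (0 : ℝ) < 2 ^ g := by positivity
  set ℓ : ℝ := 1 + Real.log g with hℓ
  have hℓ1 : 1 ≤ ℓ := by linarith
  have hℓ0 : 0 < ℓ := by linarith
  rw [Nat.cast_sum]
  refine (sum_le_sum fun W hW => (𝓕.est W (hT hW)).one_le hg (hTc W hW)).trans ?_
  rw [← mul_sum, ← mul_sum]
  refine mul_le_mul_of_nonneg_left ?_ hpow.le
  have hsq : 0 < √(g : ℝ) := Real.sqrt_pos.2 hgR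
  have h1 : ∑ W ∈ T, √(𝓕.d W : ℝ) ≤ 6 * √g / ℓ ^ 2 := by
    rw [le_div_iff₀ (by positivity)]
    exact hsum
  have h2 : √(ℓ ^ 3) ≤ ℓ ^ 2 / √ℓ := by
    rw [le_div_iff₀ (Real.sqrt_pos.2 hℓ0), ← Real.sqrt_mul (by positivity)]
    refine le_of_eq ?_
    rw [show ℓ ^ 3 * ℓ = (ℓ ^ 2) ^ 2 by ring, Real.sqrt_sq (by positivity)]
  have h3 : 6 * Kn / ε ≤ √ℓ := by
    refine Real.le_sqrt_of_sq_le ?_
    have h4 : Real.exp ((6 * Kn / ε) ^ 2) ≤ g := by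
      refine (Nat.le_ceil _).trans ?_
      exact_mod_cast hgg
    have h5 : (6 * Kn / ε) ^ 2 ≤ Real.log g := by
      rw [Real.le_log_iff_exp_le hgR]
      exact h4
    linarith
  have hsℓ : 0 < √ℓ := Real.sqrt_pos.2 hℓ0
  calc Kn * (√(ℓ ^ 3) / √g) * ∑ W ∈ T, √(𝓕.d W : ℝ) ≤
      Kn * ((ℓ ^ 2 / √ℓ) / √g) * (6 * √g / ℓ ^ 2) := by gcongr
    _ = 6 * Kn / √ℓ := by
      field_simp
    _ ≤ ε := by
      rw [div_le_iff₀ hsℓ]
      rw [div_le_iff₀ hε] at h3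
      linarith

/-- The classes of codimension one, small normal part. -/
theorem one_normal (hNORMAL : S_NORMAL) {E : Type} [Field E] [NumberField E]
    [IsCMField E] {φ₀ : E →+* ℂ} {M : (E →+* ℂ) → ℤ} {g : ℕ} (𝓕 : Fam κ φ₀ M n g)
    (hsmall : SmallNormalPart E g) (T : Finset (Submodule ℚ ((E →+* ℂ) → ℚ))) (hT : T ⊆ 𝓕.Ws)
    (hTc : ∀ W ∈ T, 𝓕.c W = 1) :
    (∑ W ∈ T, √(𝓕.d W : ℝ)) * (1 + Real.log g) ^ 2 ≤ 6 * √g := by
  classical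
  obtain ⟨L, hL, hLd⟩ := hsmall
  have hsum1 : 2 * ∑ W ∈ T, (𝓕.d W : ℝ) ^ 2 ≤ finrank ℚ L := by
    have h1 := 𝓕.sum_le T hT L fun W hW => by
      have hE := 𝓕.est W (hT hW)
      exact homeFields_mono (hL _ (hNORMAL _ (hE.normal (hTc W hW)))) hE.home
    refine le_trans (le_of_eq ?_) h1
    congr 1
    exact sum_congr rfl fun W hW => ((𝓕.est W (hT hW)).mult_one (hTc W hW)).symm
  have h2 : ∑ W ∈ T, √(𝓕.d W : ℝ) ≤ ∑ W ∈ T, (𝓕.d W : ℝ) ^ 2 :=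
    sum_le_sum fun W hW => sqrt_le_sq (𝓕.est W (hT hW)).d1
  have h3 : 0 ≤ ∑ W ∈ T, (𝓕.d W : ℝ) ^ 2 := sum_nonneg fun W _ => by positivity
  have hsq : 0 ≤ √(g : ℝ) := Real.sqrt_nonneg _
  calc (∑ W ∈ T, √(𝓕.d W : ℝ)) * (1 + Real.log g) ^ 2 ≤
      (finrank ℚ L : ℝ) * (1 + Real.log g) ^ 2 := by
        refine mul_le_mul_of_nonneg_right ?_ (by positivity)
        linarith
    _ ≤ √g := hLd
    _ ≤ 6 * √g := by linarith

/-- The classes of codimension one, small smooth parts. -/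
theorem one_smooth (hIDX : S_IDX) {E : Type} [Field E] [NumberField E]
    [IsCMField E] {φ₀ : E →+* ℂ} {M : (E →+* ℂ) → ℤ} {g : ℕ} (𝓕 : Fam κ φ₀ M n g)
    (hg : finrank ℚ E = 2 * g)
    (hsmall : SmallSmoothParts g) (T : Finset (Submodule ℚ ((E →+* ℂ) → ℚ))) (hT : T ⊆ 𝓕.Ws)
    (hTc : ∀ W ∈ T, 𝓕.c W = 1) :
    (∑ W ∈ T, √(𝓕.d W : ℝ)) * (1 + Real.log g) ^ 2 ≤ 6 * √g := by
  classical
  have hg0 : 0 < g := by
    have := Module.finrank_pos (R := ℚ) (M := E)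
    omega
  have hgR : (0 : ℝ) < g := by exact_mod_cast hg0
  have hg1 : (1 : ℝ) ≤ g := by exact_mod_cast hg0
  have hlog : 0 ≤ Real.log g := Real.log_nonneg hg1
  set ℓ : ℝ := 1 + Real.log g with hℓ
  have hℓ1 : 1 ≤ ℓ := by linarith
  have hℓ0 : 0 < ℓ := by linarith
  set J := Nat.log 2 (2 * g) + 1 with hJ
  have hmaps : ∀ W ∈ T, Nat.log 2 (𝓕.d W) ∈ range J := by
    intro W hW
    have hE := 𝓕.est W (hT hW)
    rw [mem_range, hJ, Nat.lt_succ_iff]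
    refine Nat.log_mono_right ?_
    have h1 := hE.sq (by rw [hTc W hW]; norm_num)
    have h2 := hE.gF_le hg
    have h3 := hE.d1
    nlinarith
  have hone : ∀ j ∈ range J, (∑ W ∈ T.filter (fun W => Nat.log 2 (𝓕.d W) = j), √(𝓕.d W : ℝ)) *
      ℓ ^ 3 ≤ 3 * √g := by
    intro j _
    set Tj := T.filter (fun W => Nat.log 2 (𝓕.d W) = j) with hTj
    have hTjT : Tj ⊆ T := filter_subset _ _
    have hdj : ∀ W ∈ Tj, 2 ^ j ≤ 𝓕.d W ∧ 𝓕.d W < 2 ^ (j + 1) := by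
      intro W hW
      have h1 := (mem_filter.1 hW).2
      have h2 := (𝓕.est W (hT (hTjT hW))).d1
      constructor
      · rw [← h1]
        exact Nat.pow_log_le_self 2 (by omega)
      · rw [← h1]
        exact Nat.lt_pow_succ_log_self (by norm_num) _
    obtain ⟨q, hq1, hq2, hq3⟩ := 𝓕.few hIDX hg Tj (hTjT.trans hT) (2 ^ (j + 1) - 1)
      (fun W hW => by
        have := (hdj W hW).2
        omega)
    have hy2 : 2 ≤ 2 ^ (j + 1) := by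
      calc 2 = 2 ^ 1 := (pow_one 2).symm
        _ ≤ 2 ^ (j + 1) := Nat.pow_le_pow_right (by norm_num) (by omega)
    have hq4 := le_two_gcd hg0.ne' hq1
    have hq5 := hsmall (2 ^ (j + 1)) (Nat.gcd q g) hy2 (Nat.gcd_dvd_right q g)
      (fun p hp hpq => by
        have := hq2 p hp (hpq.trans (Nat.gcd_dvd_left q g))
        omega)
    rw [← hℓ] at hq5
    have h4 : ∑ W ∈ Tj, (𝓕.h W * 𝓕.d W / 𝓕.e W : ℝ) = ∑ W ∈ Tj, (𝓕.d W : ℝ) ^ 2 :=
      sum_congr rfl fun W hW =>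
        (𝓕.est W (hT (hTjT hW))).mult_one (hTc W (hTjT hW))
    rw [h4] at hq3
    set Y : ℝ := (2 : ℝ) ^ j with hY
    have hY0 : 0 < Y := by positivity
    have hY3 : 0 < √(Y ^ 3) := Real.sqrt_pos.2 (by positivity)
    have h5 : ∀ W ∈ Tj, √(𝓕.d W : ℝ) * √(Y ^ 3) ≤ (𝓕.d W : ℝ) ^ 2 := by
      intro W hW
      have h6 : Y ≤ (𝓕.d W : ℝ) := by
        rw [hY]
        exact_mod_cast (hdj W hW).1
      have h7 : (0 : ℝ) ≤ 𝓕.d W := Nat.cast_nonneg _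
      rw [← Real.sqrt_mul h7]
      calc √((𝓕.d W : ℝ) * Y ^ 3) ≤ √((𝓕.d W : ℝ) * (𝓕.d W : ℝ) ^ 3) := by
            refine Real.sqrt_le_sqrt ?_
            gcongr
        _ = (𝓕.d W : ℝ) ^ 2 := by
            rw [show (𝓕.d W : ℝ) * (𝓕.d W : ℝ) ^ 3 = ((𝓕.d W : ℝ) ^ 2) ^ 2 by ring,
              Real.sqrt_sq (by positivity)]
    have h8 : (∑ W ∈ Tj, √(𝓕.d W : ℝ)) * √(Y ^ 3) ≤ (Nat.gcd q g : ℝ) := by
      rw [sum_mul]
      refine (sum_le_sum h5).trans ?_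
      have h9 : (q : ℝ) ≤ 2 * (Nat.gcd q g : ℝ) := by exact_mod_cast hq4
      linarith
    have h10 : √(g * ((2 ^ (j + 1) : ℕ) : ℝ) ^ 3) ≤ 3 * √g * √(Y ^ 3) := by
      have h11 : (g : ℝ) * ((2 ^ (j + 1) : ℕ) : ℝ) ^ 3 = 8 * (g * Y ^ 3) := by
        rw [hY]
        push_cast
        ring
      rw [h11, mul_assoc, ← Real.sqrt_mul hgR.le]
      refine Real.sqrt_le_iff.2 ⟨by positivity, ?_⟩
      rw [mul_pow, Real.sq_sqrt (by positivity)]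
      have : (0 : ℝ) ≤ g * Y ^ 3 := by positivity
      linarith
    have h12 : (∑ W ∈ Tj, √(𝓕.d W : ℝ)) * ℓ ^ 3 * √(Y ^ 3) ≤ 3 * √g * √(Y ^ 3) := by
      calc (∑ W ∈ Tj, √(𝓕.d W : ℝ)) * ℓ ^ 3 * √(Y ^ 3) =
          ((∑ W ∈ Tj, √(𝓕.d W : ℝ)) * √(Y ^ 3)) * ℓ ^ 3 := by ring
        _ ≤ (Nat.gcd q g : ℝ) * ℓ ^ 3 := by gcongr
        _ ≤ _ := hq5.trans h10
    exact le_of_mul_le_mul_right h12 hY3
  have hJle : (J : ℝ) ≤ 2 * ℓ := by
    have h1 : Nat.log 2 (2 * g) = Nat.log 2 g + 1 := by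
      rw [mul_comm]
      exact Nat.log_mul_base (by norm_num) hg0.ne'
    have h2 : (Nat.log 2 g : ℝ) * Real.log 2 ≤ Real.log g := by
      have h3 : 2 ^ Nat.log 2 g ≤ g := Nat.pow_log_le_self 2 hg0.ne'
      have h4 : ((2 : ℝ) ^ Nat.log 2 g) ≤ g := by exact_mod_cast h3
      have h5 := Real.log_le_log (by positivity) h4
      rwa [Real.log_pow] at h5
    have h3 : (0.69 : ℝ) < Real.log 2 := by
      have := Real.log_two_gt_d9
      linarith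
    have h4 : (0 : ℝ) ≤ (Nat.log 2 g : ℝ) := Nat.cast_nonneg _
    rw [hJ, h1, hℓ]
    push_cast
    nlinarith
  have hsum : (∑ W ∈ T, √(𝓕.d W : ℝ)) * ℓ ^ 3 ≤ J * (3 * √g) := by
    rw [← sum_fiberwise_of_maps_to hmaps, sum_mul]
    refine (sum_le_sum hone).trans (le_of_eq ?_)
    rw [sum_const, card_range, nsmul_eq_mul]
  have h1 : (∑ W ∈ T, √(𝓕.d W : ℝ)) * ℓ ^ 2 * ℓ ≤ 6 * √g * ℓ := by
    calc (∑ W ∈ T, √(𝓕.d W : ℝ)) * ℓ ^ 2 * ℓ = (∑ W ∈ T, √(𝓕.d W : ℝ)) * ℓ ^ 3 := by ring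
      _ ≤ J * (3 * √g) := hsum
      _ ≤ (2 * ℓ) * (3 * √g) := by gcongr
      _ = _ := by ring
  exact le_of_mul_le_mul_right h1 hℓ0

/-- The classes of codimension and dimension two. -/
theorem two_two (hIDX : S_IDX) (hTWO : S_TWO) (hSMALL2 : S_SMALL2) (hε : 0 < ε) :
    ∃ u : ℕ, ∀ (E : Type) [Field E] [NumberField E] [IsCMField E] (φ₀ : E →+* ℂ)
      (M : (E →+* ℂ) → ℤ) (g : ℕ) (𝓕 : Fam κ φ₀ M n g), finrank ℚ E = 2 * g → u ≤ g →
      ((∀ a b : ℕ, 2 ^ a * 3 ^ b ∣ g → 2 ^ a * 3 ^ b * u ≤ g) ∨ {F : IntermediateField ℚ E |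
        IsCMField F ∧ (finrank ℚ F = 4 ∨ finrank ℚ F = 6)}.ncard * u ≤ g) →
      ∀ T : Finset (Submodule ℚ ((E →+* ℂ) → ℚ)), T ⊆ 𝓕.Ws →
      (∀ W ∈ T, 𝓕.c W = 2 ∧ 𝓕.d W = 2) →
      ((∑ W ∈ T, cnt M (𝓕.rep W) : ℕ) : ℝ) ≤ 2 ^ g * ε := by
  classical
  obtain ⟨C, m₀, hC0, hC⟩ := hSMALL2 12 n
  set u₁ : ℕ := ⌈3 * C / ε⌉₊ + 1 with hu₁
  refine ⟨max (m₀ * 3) u₁, ?_⟩
  intro E _ _ _ φ₀ M g 𝓕 hg hgu hcond T hT hTc
  have hgm : m₀ * 3 ≤ g := (le_max_left _ _).trans hgu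
  have hg0 : 0 < g := by
    have := Module.finrank_pos (R := ℚ) (M := E)
    omega
  have hgR : (0 : ℝ) < g := by exact_mod_cast hg0
  have hpow : (0 : ℝ) < 2 ^ g := by positivity
  have hgF : ∀ W ∈ T, 𝓕.gF W = 2 ∨ 𝓕.gF W = 3 := fun W hW =>
    (𝓕.est W (hT hW)).twod hTWO (hTc W hW).1 (hTc W hW).2
  have hone : ∀ W ∈ T, (cnt M (𝓕.rep W) : ℝ) ≤ 2 ^ g * (C * (3 : ℕ) / g) := by
    intro W hW
    have hE := 𝓕.est W (hT hW)
    obtain ⟨hc, hd⟩ := hTc W hW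
    have h6 := hgF W hW
    refine (hE.small2 12 m₀ C hC hc.ge hc.le hd.ge (by omega)
      (hE.m_ge hg (P := 3) (by omega) hgm)).trans ?_
    exact mul_le_mul_of_nonneg_left (hE.div_m hg hC0 (by omega)) hpow.le
  -- the number of the classes
  have hcard : T.card * u₁ ≤ g := by
    rcases hcond with hcond | hcond
    · obtain ⟨q, hq1, hq2, hq3⟩ := 𝓕.few hIDX hg T hT 2 (fun W hW => (hTc W hW).2.le)
      have hq4 := le_two_gcd hg0.ne' hq1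
      have hgcd0 : Nat.gcd q g ≠ 0 := (Nat.gcd_pos_of_pos_right _ hg0).ne'
      obtain ⟨a, b, hab⟩ := eq_two_three hgcd0 (fun p hp hpq =>
        hq2 p hp (hpq.trans (Nat.gcd_dvd_left q g)))
      have h1 := hcond a b (by rw [← hab]; exact Nat.gcd_dvd_right q g)
      rw [← hab] at h1
      have h4 : ∑ W ∈ T, (𝓕.h W * 𝓕.d W / 𝓕.e W : ℝ) = T.card * 2 := by
        rw [sum_congr rfl (g := fun _ => (2 : ℝ)) fun W hW => ?_, sum_const, nsmul_eq_mul]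
        exact (𝓕.est W (hT hW)).mult_two_two (hTc W hW).1 (hTc W hW).2
      rw [h4] at hq3
      have h5 : 4 * T.card ≤ q := by
        have h6 : (4 : ℝ) * T.card ≤ q := by linarith
        exact_mod_cast h6
      have h6 : T.card ≤ Nat.gcd q g := by omega
      calc T.card * u₁ ≤ Nat.gcd q g * max (m₀ * 3) u₁ := Nat.mul_le_mul h6 (le_max_right _ _)
        _ ≤ g := h1
    · have hinj : Set.InjOn 𝓕.F (T : Set (Submodule ℚ ((E →+* ℂ) → ℚ))) := by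
        intro W hW W' hW' hFF
        by_contra hne
        have h1 : ({W, W'} : Finset (Submodule ℚ ((E →+* ℂ) → ℚ))) ⊆ T := by
          intro V hV
          rcases mem_insert.1 hV with rfl | hV
          · exact hW
          · rw [mem_singleton.1 hV]
            exact hW'
        have h2 := 𝓕.sum_le {W, W'} (h1.trans hT) (𝓕.F W) fun V hV => by
          rcases mem_insert.1 hV with rfl | hV
          · exact (𝓕.est V (hT hW)).home
          · rw [mem_singleton.1 hV, hFF]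
            exact (𝓕.est W' (hT hW')).home
        rw [sum_pair hne, (𝓕.est W (hT hW)).mult_two_two (hTc W hW).1 (hTc W hW).2,
          (𝓕.est W' (hT hW')).mult_two_two (hTc W' hW').1 (hTc W' hW').2,
          (𝓕.est W (hT hW)).deg] at h2
        have h3 : ((2 * 𝓕.gF W : ℕ) : ℝ) ≤ 6 := by
          have := hgF W hW
          have h4 : 2 * 𝓕.gF W ≤ 6 := by omega
          exact_mod_cast h4
        linarith
      have h1 : (T.image 𝓕.F : Set (IntermediateField ℚ E)) ⊆ {F : IntermediateField ℚ E |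
          IsCMField F ∧ (finrank ℚ F = 4 ∨ finrank ℚ F = 6)} := by
        intro F hF
        rw [mem_coe, mem_image] at hF
        obtain ⟨W, hW, rfl⟩ := hF
        have hE := 𝓕.est W (hT hW)
        refine ⟨hE.cm, ?_⟩
        have h2 := hgF W hW
        have h3 := hE.deg
        omega
      have hfin : {F : IntermediateField ℚ E |
          IsCMField F ∧ (finrank ℚ F = 4 ∨ finrank ℚ F = 6)}.Finite := Set.toFinite _
      have h2 := Set.ncard_le_ncard h1 hfin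
      rw [Set.ncard_coe_finset, card_image_of_injOn hinj] at h2
      exact (Nat.mul_le_mul h2 (le_max_right _ _)).trans hcond
  rw [Nat.cast_sum]
  refine (sum_le_sum hone).trans ?_
  rw [sum_const, nsmul_eq_mul]
  have h8 : (T.card : ℝ) * u₁ ≤ g := by exact_mod_cast hcard
  have h9 : 3 * C / ε ≤ u₁ := by
    rw [hu₁]
    push_cast
    have := Nat.le_ceil (3 * C / ε)
    linarith
  have h10 : 3 * C ≤ u₁ * ε := by rwa [div_le_iff₀ hε] at h9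
  calc (T.card : ℝ) * (2 ^ g * (C * (3 : ℕ) / g)) = 2 ^ g * ((T.card : ℝ) * (3 * C) / g) := by
        push_cast
        ring
    _ ≤ 2 ^ g * ((T.card : ℝ) * (u₁ * ε) / g) := by gcongr
    _ = 2 ^ g * (((T.card : ℝ) * u₁) * ε / g) := by ring
    _ ≤ 2 ^ g * ((g : ℝ) * ε / g) := by gcongr
    _ = 2 ^ g * ε := by
      field_simp

end parts

/-- **Typical fields.** -/
theorem typical_aux (hEH : S_EH) (hREL : S_REL) (hFS : S_FS) (hIDX : S_IDX) (hNORMAL : S_NORMAL)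
    (hTWO : S_TWO) (hSMALL : S_SMALL) (hSMALL2 : S_SMALL2) (hLIM : S_LIM) (κ : Consts) (n : ℕ)
    (hn0 : n ≠ 0) {ε : ℝ} (hε : 0 < ε) :
    ∃ u : ℕ, ∀ (E : Type) [Field E] [NumberField E] [IsCMField E]
      (M : (E →+* ℂ) → ℤ) (g : ℕ),
      (∀ φ, M φ ∣ (n : ℤ)) → (∀ φ, M (ComplexEmbedding.conjugate φ) = M φ) →
      finrank ℚ E = 2 * g → Typical u E g →
      ((degTypes M).ncard : ℝ) ≤ 2 ^ g * ε := by
  classical
  obtain ⟨g₀, hg₀⟩ := main_small hSMALL hLIM κ n (ε := ε / 2) (by positivity)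
  obtain ⟨g₁, hg₁⟩ := one_odd κ n hFS hIDX hLIM (ε := ε / 4) (by positivity)
  obtain ⟨g₂, hg₂⟩ := one_end κ n (ε := ε / 4) (by positivity)
  obtain ⟨u₃, hu₃⟩ := two_two κ n hIDX hTWO hSMALL2 (ε := ε / 4) (by positivity)
  refine ⟨max (max g₀ g₁) (max g₂ u₃), ?_⟩
  rintro E _ _ _ M g hMn hMc hg ⟨hgu, hcond1, hcond2⟩
  obtain ⟨φ₀⟩ : Nonempty (E →+* ℂ) := inferInstance
  obtain ⟨𝓕⟩ := exists_fam hEH hREL κ E φ₀ hn0 hMn hMc hg
  have hgg₀ : g₀ ≤ g := (le_max_left _ _).trans ((le_max_left _ _).trans hgu)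
  have hgg₁ : g₁ ≤ g := (le_max_right _ _).trans ((le_max_left _ _).trans hgu)
  have hgg₂ : g₂ ≤ g := (le_max_left _ _).trans ((le_max_right _ _).trans hgu)
  have huu : u₃ ≤ max (max g₀ g₁) (max g₂ u₃) := (le_max_right _ _).trans (le_max_right _ _)
  set T₁ := 𝓕.Ws.filter (fun W => 𝓕.c W = 1) with hT₁
  set R := 𝓕.Ws.filter (fun W => ¬ 𝓕.c W = 1) with hR
  set T₂ := R.filter (fun W => 𝓕.c W = 2 ∧ 𝓕.d W = 2) with hT₂
  set T₀ := R.filter (fun W => ¬ (𝓕.c W = 2 ∧ 𝓕.d W = 2)) with hT₀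
  have hT₁s : T₁ ⊆ 𝓕.Ws := filter_subset _ _
  have hRs : R ⊆ 𝓕.Ws := filter_subset _ _
  have hT₂s : T₂ ⊆ 𝓕.Ws := (filter_subset _ _).trans hRs
  have hT₀s : T₀ ⊆ 𝓕.Ws := (filter_subset _ _).trans hRs
  have hT₁c : ∀ W ∈ T₁, 𝓕.c W = 1 := fun W hW => (mem_filter.1 hW).2
  have hsplit : ((∑ W ∈ 𝓕.Ws, cnt M (𝓕.rep W) : ℕ) : ℝ) =
      ((∑ W ∈ T₁, cnt M (𝓕.rep W) : ℕ) : ℝ) + (((∑ W ∈ T₂, cnt M (𝓕.rep W) : ℕ) : ℝ) +
        ((∑ W ∈ T₀, cnt M (𝓕.rep W) : ℕ) : ℝ)) := by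
    rw [← Nat.cast_add, ← Nat.cast_add, hT₂, hT₀, sum_filter_add_sum_filter_not, hT₁, hR,
      sum_filter_add_sum_filter_not]
  have s0 : ((∑ W ∈ T₀, cnt M (𝓕.rep W) : ℕ) : ℝ) ≤ 2 ^ g * (ε / 2) := by
    refine hg₀ E φ₀ M g 𝓕 hg hgg₀ T₀ hT₀s fun W hW => ?_
    have h1 := (mem_filter.1 hW).2
    have h2 := (mem_filter.1 (mem_filter.1 hW).1).2
    have h4 := (𝓕.est W (hT₀s hW)).c1
    rcases Nat.lt_or_ge (𝓕.c W) 3 with h5 | h5
    · right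
      have h6 : 𝓕.c W = 2 := by omega
      have h7 := (𝓕.est W (hT₀s hW)).d2 h6
      refine ⟨h6, ?_⟩
      by_contra h8
      exact h1 ⟨h6, by omega⟩
    · exact Or.inl h5
  have s1 : ((∑ W ∈ T₁, cnt M (𝓕.rep W) : ℕ) : ℝ) ≤ 2 ^ g * (ε / 4) := by
    rcases hcond1 with h1 | h1 | h1
    · exact hg₁ E φ₀ M g 𝓕 hg hgg₁ h1 T₁ hT₁s hT₁c
    · exact hg₂ E φ₀ M g 𝓕 hg hgg₂ T₁ hT₁s hT₁c (one_smooth κ n hIDX 𝓕 hg h1 T₁ hT₁s hT₁c)
    · exact hg₂ E φ₀ M g 𝓕 hg hgg₂ T₁ hT₁s hT₁c (one_normal κ n hNORMAL 𝓕 h1 T₁ hT₁s hT₁c)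
  have s2 : ((∑ W ∈ T₂, cnt M (𝓕.rep W) : ℕ) : ℝ) ≤ 2 ^ g * (ε / 4) := by
    refine hu₃ E φ₀ M g 𝓕 hg (huu.trans hgu) ?_ T₂ hT₂s fun W hW => (mem_filter.1 hW).2
    rcases hcond2 with h1 | h1
    · exact Or.inl fun a b hab => (Nat.mul_le_mul_left _ huu).trans (h1 a b hab)
    · exact Or.inr ((Nat.mul_le_mul_left _ huu).trans h1)
  have htot : ((degTypes M).ncard : ℝ) ≤ ((∑ W ∈ 𝓕.Ws, cnt M (𝓕.rep W) : ℕ) : ℝ) := by
    exact_mod_cast 𝓕.tot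
  rw [hsplit] at htot
  calc ((degTypes M).ncard : ℝ) ≤ _ := htot
    _ ≤ 2 ^ g * (ε / 4) + (2 ^ g * (ε / 4) + 2 ^ g * (ε / 2)) :=
      add_le_add s1 (add_le_add s2 s0)
    _ = _ := by ring

end Pool.Agent.Q29.TE
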