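import Mathlib
import Pool.Agent.Q29.TE.Limit
import Pool.Agent.Q29.TE.RowsDefs
import Pool.Agent.Q29.OS.Law
import Pool.Agent.Q29.DP.Fam
import Pool.Agent.Q204.TE.NUM
import Pool.Agent.Q204.TE.FS
import Pool.Agent.Q275.TE.Chain
import Pool.Agent.Q275.TE.Cos
import Pool.Agent.Q275.TE.Dens
import Pool.Agent.Q275.TE.Rate
import Pool.Agent.Q275.TE.Two
import Pool.Agent.Q275.TE.Small2
import Pool.Agent.Q275.TE.Lim
import Pool.Agent.Q227.TE.GAUSS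
import Pool.Agent.Q227.TE.GRAM
import Pool.Agent.Q227.TE.EH
import Pool.Agent.Q227.TE.CLS
import Pool.Agent.Q24.TE.REL
import Pool.Agent.Q38.TE.NORMAL
import Pool.Agent.Q29.TE.Idx

/-!
# The law for almost all families of types of all CM fields of given degrees
-/

set_option autoImplicit false
set_option linter.unusedSectionVars false

namespace Pool.Agent.Q29.TE

open NumberField Module MulAction Finset Pool.Agent.H204R3.CM Pool.Agent.H977R3.CM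
  Pool.Agent.TH170.CM Pool.Agent.TH170.FW Pool.Agent.Y1.KN Pool.Agent.Q29.DP Pool.Agent.Q29.OS

theorem small_holds : S_SMALL :=
  small_bound Q275.TE.t_COS Q227.TE.t_GAUSS Q227.TE.t_GRAM

theorem small2_holds : S_SMALL2 :=
  Q275.TE.t_SMALL2 Q275.TE.t_COS Q227.TE.t_GAUSS Q227.TE.t_GRAM

/-- **The polynomial bound**, for one field. -/
theorem poly_holds : ∃ C : ℝ, 0 ≤ C ∧ ∀ (E : Type) [Field E] [NumberField E] [IsCMField E]
    (M : (E →+* ℂ) → ℤ) (n g s t : ℕ), n ≠ 0 → (∀ φ, M φ ∣ (n : ℤ)) →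
    (∀ φ, M (ComplexEmbedding.conjugate φ) = M φ) →
    finrank ℚ E = 2 * g → 4 * g = s * t → s.Coprime t → Squarefree t →
    ((degTypes M).ncard : ℝ) ≤ 2 ^ g * (C * (n : ℝ) ^ 2 * rate g s t) := by
  obtain ⟨κ⟩ := exists_consts Q204.TE.t_NUM
  exact poly_aux Q227.TE.t_EH Q24.TE.t_REL Q275.TE.t_CHAIN Q227.TE.t_CLS κ

/-- **Typical fields**, for one field. -/
theorem typical_holds (n : ℕ) (hn0 : n ≠ 0) {ε : ℝ} (hε : 0 < ε) :
    ∃ u : ℕ, ∀ (E : Type) [Field E] [NumberField E] [IsCMField E]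
      (M : (E →+* ℂ) → ℤ) (g : ℕ),
      (∀ φ, M φ ∣ (n : ℤ)) → (∀ φ, M (ComplexEmbedding.conjugate φ) = M φ) →
      finrank ℚ E = 2 * g → Typical u E g →
      ((degTypes M).ncard : ℝ) ≤ 2 ^ g * ε := by
  obtain ⟨κ⟩ := exists_consts Q204.TE.t_NUM
  exact typical_aux Q227.TE.t_EH Q24.TE.t_REL Q204.TE.t_FS idx Q38.TE.t_NORMAL Q275.TE.t_TWO
    small_holds small2_holds Q275.TE.t_LIM κ n hn0 hε

/-- The rate for numbers with small square divisors. -/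
theorem rate_holds (k : ℕ) {ε : ℝ} (hk : 1 ≤ k) (hε : 0 < ε) : ∃ C : ℝ, 0 ≤ C ∧ ∀ g : ℕ, 0 < g →
    SquaresLE k g → ∃ s t : ℕ, 4 * g = s * t ∧ s.Coprime t ∧ Squarefree t ∧
      rate g s t ≤ C * (g : ℝ) ^ (6 / (k : ℝ) - 1 / 4 + ε) :=
  Q275.TE.t_RATE k ε hk hε

theorem almostAllDegrees : AlmostAllDegrees := Q275.TE.t_DENS

section fam

/-- A property which holds for all families of types without relations: the bound for all degrees
`2 g` with `4 g = s t`. -/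
theorem fam_poly : ∃ C : ℝ, 0 ≤ C ∧ ∀ (ι : Type) [Fintype ι] (E : ι → Type)
    [∀ i, Field (E i)] [∀ i, NumberField (E i)] [∀ i, IsCMField (E i)]
    (M : ∀ i, (E i →+* ℂ) → ℤ) (n g s t : ι → ℕ) (P : (∀ i, Set (E i →+* ℂ)) → Prop),
    (∀ i φ, M i (ComplexEmbedding.conjugate φ) = M i φ) → (∀ i, n i ≠ 0) →
    (∀ i φ, M i φ ∣ (n i : ℤ)) → (∀ i, finrank ℚ (E i) = 2 * g i) →
    (∀ i, 4 * g i = s i * t i) → (∀ i, (s i).Coprime (t i)) → (∀ i, Squarefree (t i)) →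
    (∀ Φ : ∀ i, Set (E i →+* ℂ), (∀ i, IsCMType (Φ i)) →
      (∀ i, NoRelations (M i) (Φ i)) → P Φ) →
    (({Φ : ∀ i, Set (E i →+* ℂ) | (∀ i, IsCMType (Φ i)) ∧ ¬ P Φ}.ncard : ℕ) : ℝ) ≤
      2 ^ (∑ i, g i) * ∑ i, C * (n i : ℝ) ^ 2 * rate (g i) (s i) (t i) := by
  obtain ⟨C, hC0, hC⟩ := poly_holds
  refine ⟨C, hC0, ?_⟩
  intro ι _ E _ _ _ M n g s t P hMc hn hMn hg hgst hst ht hP
  exact ncard_families_gen E hg (fun i => degTypes (M i))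
    (fun i => C * (n i : ℝ) ^ 2 * rate (g i) (s i) (t i)) (fun i Φ hΦ => hΦ.1)
    (fun i => hC (E i) (M i) (n i) (g i) (s i) (t i) (hn i) (hMn i)
      (hMc i) (hg i) (hgst i) (hst i) (ht i)) P
    fun Φ hΦ hnd => hP Φ hΦ fun i => noRelations_of_notMem (hΦ i) (hnd i)

/-- The same for numbers with small square divisors. -/
theorem fam_squares (k : ℕ) {ε : ℝ} (hk : 1 ≤ k) (hε : 0 < ε) : ∃ C : ℝ, 0 ≤ C ∧
    ∀ (ι : Type) [Fintype ι] (E : ι → Type)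
    [∀ i, Field (E i)] [∀ i, NumberField (E i)] [∀ i, IsCMField (E i)]
    (M : ∀ i, (E i →+* ℂ) → ℤ) (n g : ι → ℕ) (P : (∀ i, Set (E i →+* ℂ)) → Prop),
    (∀ i φ, M i (ComplexEmbedding.conjugate φ) = M i φ) → (∀ i, n i ≠ 0) →
    (∀ i φ, M i φ ∣ (n i : ℤ)) → (∀ i, finrank ℚ (E i) = 2 * g i) →
    (∀ i, SquaresLE k (g i)) →
    (∀ Φ : ∀ i, Set (E i →+* ℂ), (∀ i, IsCMType (Φ i)) →
      (∀ i, NoRelations (M i) (Φ i)) → P Φ) →
    (({Φ : ∀ i, Set (E i →+* ℂ) | (∀ i, IsCMType (Φ i)) ∧ ¬ P Φ}.ncard : ℕ) : ℝ) ≤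
      2 ^ (∑ i, g i) * ∑ i, C * (n i : ℝ) ^ 2 * (g i : ℝ) ^ (6 / (k : ℝ) - 1 / 4 + ε) := by
  obtain ⟨C₁, hC₁0, hC₁⟩ := fam_poly
  obtain ⟨C₂, hC₂0, hC₂⟩ := rate_holds k hk hε
  refine ⟨C₁ * C₂, by positivity, ?_⟩
  intro ι _ E _ _ _ M n g P hMc hn hMn hg hns hP
  have hpos : ∀ i, 0 < g i := by
    intro i
    have h1 : 0 < finrank ℚ (E i) := Module.finrank_pos
    have h2 := hg i
    omega
  choose s t h1 h2 h3 h4 using fun i => hC₂ (g i) (hpos i) (hns i)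
  refine (hC₁ ι E M n g s t P hMc hn hMn hg h1 h2 h3 hP).trans ?_
  refine mul_le_mul_of_nonneg_left (sum_le_sum fun i _ => ?_) (by positivity)
  calc C₁ * (n i : ℝ) ^ 2 * rate (g i) (s i) (t i) ≤
      C₁ * (n i : ℝ) ^ 2 * (C₂ * (g i : ℝ) ^ (6 / (k : ℝ) - 1 / 4 + ε)) :=
        mul_le_mul_of_nonneg_left (h4 i) (by positivity)
    _ = _ := by ring

/-- The same for typical fields. -/
theorem fam_typical (n : ℕ) (hn0 : n ≠ 0) {ε : ℝ} (hε : 0 < ε) : ∃ u : ℕ,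
    ∀ (ι : Type) [Fintype ι] (E : ι → Type)
    [∀ i, Field (E i)] [∀ i, NumberField (E i)] [∀ i, IsCMField (E i)]
    (M : ∀ i, (E i →+* ℂ) → ℤ) (g : ι → ℕ) (P : (∀ i, Set (E i →+* ℂ)) → Prop),
    (∀ i φ, M i (ComplexEmbedding.conjugate φ) = M i φ) →
    (∀ i φ, M i φ ∣ (n : ℤ)) → (∀ i, finrank ℚ (E i) = 2 * g i) →
    (∀ i, Typical u (E i) (g i)) →
    (∀ Φ : ∀ i, Set (E i →+* ℂ), (∀ i, IsCMType (Φ i)) →
      (∀ i, NoRelations (M i) (Φ i)) → P Φ) →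
    (({Φ : ∀ i, Set (E i →+* ℂ) | (∀ i, IsCMType (Φ i)) ∧ ¬ P Φ}.ncard : ℕ) : ℝ) ≤
      2 ^ (∑ i, g i) * (Fintype.card ι * ε) := by
  obtain ⟨u, hu⟩ := typical_holds n hn0 hε
  refine ⟨u, ?_⟩
  intro ι _ E _ _ _ M g P hMc hMn hg htyp hP
  refine (ncard_families_gen E hg (fun i => degTypes (M i))
    (fun _ => ε) (fun i Φ hΦ => hΦ.1)
    (fun i => hu (E i) (M i) (g i) (hMn i) (hMc i) (hg i) (htyp i)) P
    fun Φ hΦ hnd => hP Φ hΦ fun i => noRelations_of_notMem (hΦ i) (hnd i)).trans (le_of_eq ?_)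
  rw [sum_const, nsmul_eq_mul, card_univ]

end fam

section rows

/-- `Q` holds for all families of slope types without relations. -/
def WithoutRelations (Q : TypeProperty) : Prop :=
  ∀ (p : ℕ) [hp : Fact p.Prime] (ν : PadicAlgCl p ≃+* ℂ) (I : Type) [hI : Fintype I]
    (K : I → Type) [hK : ∀ i, Field (K i)] [hN : ∀ i, NumberField (K i)]
    [hC : ∀ i, IsCMField (K i)] (M : ∀ i, (K i →+* ℂ) → ℤ) (Φ : ∀ i, Set (K i →+* ℂ)),
    PairwiseIndep K → (∀ i φ, M i (ComplexEmbedding.conjugate φ) = M i φ) →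
    (∀ i, IsCMType (Φ i)) → (∀ i, NoRelations (M i) (Φ i)) → Q p hp ν I hI K hK hN hC M Φ

variable {Q : TypeProperty} (h : WithoutRelations Q)

include h

theorem almostAllTypes : AlmostAllTypes Q := by
  intro k ε hk hε
  obtain ⟨C, hC0, h1⟩ := fam_squares k hk hε
  refine ⟨C, hC0, ?_⟩
  intro p _ ν I _ K _ _ _ M n g hind hMc hn hMn hg hns
  exact h1 I K M n g _ hMc hn hMn hg hns fun Φ hΦ hno => h p ν I K M Φ hind hMc hΦ hno

theorem explicitBound : ExplicitBound Q := by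
  obtain ⟨C, hC0, h1⟩ := fam_poly
  refine ⟨C, hC0, ?_⟩
  intro p _ ν I _ K _ _ _ M n g s t hind hMc hn hMn hg hgst hst ht
  exact h1 I K M n g s t _ hMc hn hMn hg hgst hst ht fun Φ hΦ hno =>
    h p ν I K M Φ hind hMc hΦ hno

theorem typicalFields : TypicalFields Q := by
  intro n ε hn hε
  obtain ⟨u, h1⟩ := fam_typical n hn hε
  refine ⟨u, ?_⟩
  intro p _ ν I _ K _ _ _ M g hind hMc hMn hg htyp
  exact h1 I K M g _ hMc hMn hg htyp fun Φ hΦ hno => h p ν I K M Φ hind hMc hΦ hno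

end rows

end Pool.Agent.Q29.TE
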