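import Mathlib
import Pool.Agent.Q29.TE.RowsDefs

/-!
# Properties of slope types for at least 32 percent of all slope types of all CM fields of degree
`2 g`, `g` odd
-/

set_option autoImplicit false

namespace Pool.Agent.Q29.TE

open NumberField Module Pool.Agent.H204R3.CM Pool.Agent.H977R3.CM

/-- The first condition of `Typical`: `g` is odd, or the smooth parts of `g` are small, or the
subfields of `K` that are normal over `ℚ` are small. -/
def SmallNormal (K : Type) [Field K] [NumberField K] (g : ℕ) : Prop :=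
  Odd g ∨ SmallSmoothParts g ∨ SmallNormalPart K g

variable (Q : TypeProperty)

/-- **At least 32 percent of all slope types of all CM fields of degree** `2 g`, `g` odd and large:
for all `n` there is a `u` such that for all pairwise independent CM fields `K i` of degrees `2 g i`,
`g i ≥ u`, with `g i` odd, or small smooth parts of `g i`, or a small part of `K i` that is normal
over `ℚ` (`SmallNormal`), and all weights with values dividing `n`, the property `Q` is true for at
least `(8 / 25) ^ |I| * 2 ^ (∑ g i)` of the `2 ^ (∑ g i)` families of types. -/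
def OneThird : Prop :=
  ∀ n : ℕ, n ≠ 0 → ∃ u : ℕ, ∀ (p : ℕ) [hp : Fact p.Prime]
    (ν : PadicAlgCl p ≃+* ℂ) (I : Type) [hI : Fintype I] (K : I → Type) [hK : ∀ i, Field (K i)]
    [hN : ∀ i, NumberField (K i)] [hC : ∀ i, IsCMField (K i)]
    (M : ∀ i, (K i →+* ℂ) → ℤ) (g : I → ℕ), PairwiseIndep K →
    (∀ i φ, M i (ComplexEmbedding.conjugate φ) = M i φ) →
    (∀ i φ, M i φ ∣ (n : ℤ)) → (∀ i, finrank ℚ (K i) = 2 * g i) →
    (∀ i, u ≤ g i ∧ SmallNormal (K i) (g i)) →
    (8 / 25 : ℝ) ^ Fintype.card I * 2 ^ (∑ i, g i) ≤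
      (({Φ : ∀ i, Set (K i →+* ℂ) |
        (∀ i, IsCMType (Φ i)) ∧ Q p hp ν I hI K hK hN hC M Φ}.ncard : ℕ) : ℝ)

end Pool.Agent.Q29.TE
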