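import Mathlib
import Pool.Agent.Q29.AB.Stm2
import Pool.Agent.Q178.AB.ELO

/-!
# Two linear conditions on the subsets of a set
-/

set_option linter.unusedSectionVars false
set_option linter.unusedVariables false

namespace Pool.Agent.Q29.TE

open Finset

/-- Rational weights become integral after multiplication with an integer. -/
theorem exists_int {Y : Type} (S : Finset Y) (p : Y → ℚ) :
    ∃ (D : ℕ) (P : Y → ℤ), D ≠ 0 ∧ ∀ i ∈ S, (P i : ℚ) = p i * D := by
  classical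
  refine ⟨∏ i ∈ S, (p i).den, fun i => (p i * (∏ i ∈ S, (p i).den : ℕ)).num, ?_, ?_⟩
  · exact Finset.prod_ne_zero_iff.2 fun i _ => (p i).den_ne_zero
  · intro i hi
    obtain ⟨k, hk⟩ := Finset.dvd_prod_of_mem (fun i => (p i).den) hi
    have h1 : p i * ((∏ i ∈ S, (p i).den : ℕ) : ℚ) = (((p i).num * k : ℤ) : ℚ) := by
      rw [hk]
      push_cast
      rw [← mul_assoc, Rat.mul_den_eq_num]
    have h2 : (p i * ((∏ i ∈ S, (p i).den : ℕ) : ℚ)).num = (p i).num * k := by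
      rw [h1, Rat.num_intCast]
    change (((p i * ((∏ i ∈ S, (p i).den : ℕ) : ℚ)).num : ℤ) : ℚ) = _
    rw [h2, h1]

/-- The theorem of Erdos for rational weights. -/
theorem elo_rat {Y : Type} (S : Finset Y) (p : Y → ℚ) (hp : ∀ i ∈ S, p i ≠ 0) (a : ℚ) :
    (S.powerset.filter fun U => ∑ i ∈ U, p i = a).card ≤ S.card.choose (S.card / 2) := by
  classical
  obtain ⟨D, P, hD, hP⟩ := exists_int S p
  have hDQ : (D : ℚ) ≠ 0 := by exact_mod_cast hD
  have hP0 : ∀ i ∈ S, P i ≠ 0 := by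
    intro i hi h
    have h1 := hP i hi
    rw [h, Int.cast_zero] at h1
    exact mul_ne_zero (hp i hi) hDQ h1.symm
  have hsum : ∀ U ∈ S.powerset, ((∑ i ∈ U, P i : ℤ) : ℚ) = (∑ i ∈ U, p i) * D := by
    intro U hU
    rw [Int.cast_sum, sum_mul]
    exact sum_congr rfl fun i hi => hP i (mem_powerset.1 hU hi)
  rcases (S.powerset.filter fun U => ∑ i ∈ U, p i = a).eq_empty_or_nonempty with h | ⟨U₀, hU₀⟩
  · rw [h, card_empty]
    exact Nat.zero_le _
  · rw [mem_filter] at hU₀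
    refine le_trans (card_le_card ?_)
      (Pool.Agent.Q178.AB.t_ELO Y S P (∑ i ∈ U₀, P i) hP0)
    intro U hU
    rw [mem_filter] at hU ⊢
    refine ⟨hU.1, ?_⟩
    have h1 : ((∑ i ∈ U, P i : ℤ) : ℚ) = ((∑ i ∈ U₀, P i : ℤ) : ℚ) := by
      rw [hsum U hU.1, hsum U₀ hU₀.1, hU.2, hU₀.2]
    exact_mod_cast h1

/-- Two linear conditions. -/
theorem pair_count {Y : Type} [DecidableEq Y] (A B : Finset Y) (hAB : Disjoint A B) (p q : Y → ℚ)
    (hpA : ∀ y ∈ A, p y ≠ 0) (hpB : ∀ y ∈ B, p y = 0) (hqB : ∀ y ∈ B, q y ≠ 0) (w₁ w₂ : ℚ) :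
    ((A ∪ B).powerset.filter fun U => ∑ y ∈ U, p y = w₁ ∧ ∑ y ∈ U, q y = w₂).card ≤
      A.card.choose (A.card / 2) * B.card.choose (B.card / 2) := by
  classical
  set F := (A ∪ B).powerset.filter fun U => ∑ y ∈ U, p y = w₁ ∧ ∑ y ∈ U, q y = w₂ with hF
  set FA := A.powerset.filter fun U => ∑ y ∈ U, p y = w₁ with hFA
  have hdec : ∀ U ∈ (A ∪ B).powerset, U = (U ∩ A) ∪ (U ∩ B) := by
    intro U hU
    rw [← inter_union_distrib_left, inter_eq_left.2 (mem_powerset.1 hU)]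
  have hdisj : ∀ U : Finset Y, Disjoint (U ∩ A) (U ∩ B) := fun U =>
    hAB.mono inter_subset_right inter_subset_right
  have hsum : ∀ (r : Y → ℚ), ∀ U ∈ (A ∪ B).powerset,
      ∑ y ∈ U, r y = ∑ y ∈ U ∩ A, r y + ∑ y ∈ U ∩ B, r y := by
    intro r U hU
    conv_lhs => rw [hdec U hU]
    rw [sum_union (hdisj U)]
  have hmaps : ∀ U ∈ F, U ∩ A ∈ FA := by
    intro U hU
    rw [hF, mem_filter] at hU
    rw [hFA, mem_filter, mem_powerset]
    refine ⟨inter_subset_right, ?_⟩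
    have h1 := hsum p U hU.1
    have h2 : ∑ y ∈ U ∩ B, p y = 0 := sum_eq_zero fun y hy => hpB y (mem_inter.1 hy).2
    rw [h2, add_zero, hU.2.1] at h1
    exact h1.symm
  have hfib : ∀ V ∈ FA, (F.filter fun U => U ∩ A = V).card ≤ B.card.choose (B.card / 2) := by
    intro V _
    refine le_trans ?_ (elo_rat B q hqB (w₂ - ∑ y ∈ V, q y))
    refine card_le_card_of_injOn (fun U => U ∩ B) ?_ ?_
    · intro U hU
      rw [mem_coe, mem_filter, hF, mem_filter] at hU
      obtain ⟨⟨h1, -, h2⟩, h3⟩ := hU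
      rw [mem_coe, mem_filter, mem_powerset]
      refine ⟨inter_subset_right, ?_⟩
      have h4 := hsum q U h1
      rw [h2, h3] at h4
      change ∑ y ∈ U ∩ B, q y = _
      linarith
    · intro U hU U' hU' h
      rw [mem_coe, mem_filter, hF, mem_filter] at hU hU'
      rw [hdec U hU.1.1, hdec U' hU'.1.1, hU.2, hU'.2]
      change U ∩ B = U' ∩ B at h
      rw [h]
  calc F.card = ∑ V ∈ FA, (F.filter fun U => U ∩ A = V).card :=
        card_eq_sum_card_fiberwise hmaps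
    _ ≤ ∑ V ∈ FA, B.card.choose (B.card / 2) := sum_le_sum hfib
    _ = FA.card * B.card.choose (B.card / 2) := by rw [sum_const, smul_eq_mul]
    _ ≤ _ := Nat.mul_le_mul_right _ (elo_rat A p hpA w₁)

end Pool.Agent.Q29.TE
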