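import Mathlib
import Pool.Agent.Q29.TE.Pair
import Pool.Agent.Q29.TE.Comp
import Pool.Agent.Q261.AB.RHO

/-!
# The number of the types orthogonal to a space of dimension two that comes from a field of
degree four or six
-/

set_option linter.unusedSectionVars false
set_option linter.unusedVariables false

namespace Pool.Agent.Q29.TE

open Finset Module Pool.Agent.TH170.MF Pool.Agent.TH170.QC Pool.Agent.TH170.QE
  Pool.Agent.TH170.FW Pool.Agent.TH170.GC Pool.Agent.Y1.KN

section

variable {G X : Type} [Group G] [Fintype G] [MulAction G X] [Fintype X] [DecidableEq X]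
  [MulAction.IsPretransitive G X] {m n g : ℕ} [NeZero m] {M : PX X m → ℤ} {c : G}

/-- A space of odd functions has at most the dimension `g`. -/
theorem finrank_le_of_odd {T : Finset X} (hT : ∀ x, x ∈ T ↔ c • x ∉ T) (V : Submodule ℚ (X → ℚ))
    (hV : AllOdd (fun x : X => c • x) V) : finrank ℚ V ≤ T.card := by
  classical
  let r : V →ₗ[ℚ] (T → ℚ) :=
    { toFun := fun v t => (v : X → ℚ) t
      map_add' := fun u v => rfl
      map_smul' := fun a u => rfl }
  have hr : Function.Injective r := by
    rw [← LinearMap.ker_eq_bot, LinearMap.ker_eq_bot']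
    intro v hv
    have h1 : ∀ t ∈ T, (v : X → ℚ) t = 0 := fun t ht => congrFun hv ⟨t, ht⟩
    refine Subtype.ext (funext fun x => ?_)
    by_cases hx : x ∈ T
    · exact h1 x hx
    · have h2 : c • x ∈ T := by
        by_contra h3
        exact hx ((hT x).2 h3)
      have h4 := hV v v.2 x
      have h5 := h1 _ h2
      change (v : X → ℚ) (c • x) = - (v : X → ℚ) x at h4
      rw [h5] at h4
      change (v : X → ℚ) x = 0
      linarith
  have h1 := LinearMap.finrank_le_finrank_of_injective hr
  rwa [Module.finrank_fintype_fun_eq_card, Fintype.card_coe] at h1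

theorem zero_of_transversal {T : Finset X} (hT : ∀ x, x ∈ T ↔ c • x ∉ T) {u : X → ℚ}
    (hu : ∀ x, u (c • x) = - u x) (h : ∀ x ∈ T, u x = 0) : u = 0 := by
  funext x
  by_cases hx : x ∈ T
  · exact h x hx
  · have h2 : c • x ∈ T := by
      by_contra h3
      exact hx ((hT x).2 h3)
    have h4 := hu x
    rw [h _ h2] at h4
    change u x = 0
    linarith

/-- The spaces of dimension two in a space of dimension at most three are unique. -/
theorem unique_space {T : Finset X} (hT : ∀ x, x ∈ T ↔ c • x ∉ T) (hT3 : T.card ≤ 3)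
    {S S' : Submodule ℚ (X → ℚ)} (hS : S ∈ MinInv G (fun x : X => c • x))
    (hS' : S' ∈ MinInv G (fun x : X => c • x)) (hd : finrank ℚ S = 2)
    (hK : killers G (S' : Set (X → ℚ)) = killers G (S : Set (X → ℚ))) : S' = S := by
  classical
  obtain ⟨h0, hi, ho, hmin⟩ := hS
  obtain ⟨h0', hi', ho', hmin'⟩ := hS'
  obtain ⟨A, hA, hAS, s₀, hs₀, hne⟩ := exists_equivariant hi' h0' hi h0 hK
  have hd' : 2 ≤ finrank ℚ S' := by
    rcases hmin (S'.map A) (by
        rintro γ _ ⟨s, hs, rfl⟩
        refine ⟨fun x => s (γ • x), hi' γ s hs, ?_⟩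
        funext x
        exact hA γ s x) (by
        rintro _ ⟨s, hs, rfl⟩
        exact hAS s) with h | h
    · exfalso
      have h1 : A s₀ ∈ S'.map A := ⟨s₀, hs₀, rfl⟩
      rw [h, Submodule.mem_bot] at h1
      exact hne h1
    · have h1 := Submodule.finrank_map_le A S'
      rw [h, hd] at h1
      exact h1
  by_contra hSS
  have hinf : S' ⊓ S = ⊥ := by
    have hinv : Invariant G (S' ⊓ S) := fun γ s hs => ⟨hi' γ s hs.1, hi γ s hs.2⟩
    rcases hmin (S' ⊓ S) hinv inf_le_right with h | h
    · exact h
    · rcases hmin' (S' ⊓ S) hinv inf_le_left with h' | h'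
      · exact h'
      · exact absurd (h'.symm.trans h) hSS
  have hodd : AllOdd (fun x : X => c • x) (S' ⊔ S) := by
    intro s hs x
    obtain ⟨u, hu, v, hv, rfl⟩ := Submodule.mem_sup.1 hs
    have h1 := ho' u hu x
    have h2 := ho v hv x
    change u (c • x) + v (c • x) = - (u x + v x)
    change u (c • x) = - u x at h1
    change v (c • x) = - v x at h2
    rw [h1, h2]
    ring
  have h1 := finrank_le_of_odd hT _ hodd
  have h2 := Submodule.finrank_sup_add_finrank_inf_eq S' S
  rw [hinf, finrank_bot, add_zero, hd] at h2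
  omega

/-- Two functions in the space, for a point `d` of the transversal. -/
theorem exists_two {T : Finset X} (hT : ∀ x, x ∈ T ↔ c • x ∉ T) (hT3 : T.card ≤ 3)
    (hcen : ∀ x, c * x = x * c) (hcc : c * c = 1)
    {S : Submodule ℚ (X → ℚ)} (hS : S ∈ MinInv G (fun x : X => c • x)) (hd : finrank ℚ S = 2)
    {d : X} (hdT : d ∈ T) :
    ∃ u ∈ S, ∃ v ∈ S, u d = 0 ∧ (∀ x ∈ T, x ≠ d → u x ≠ 0) ∧ v d ≠ 0 := by
  classical
  obtain ⟨h0, hi, ho, hmin⟩ := hS
  have hodd : ∀ s ∈ S, ∀ x, s (c • x) = - s x := fun s hs x => ho s hs x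
  -- the second function
  obtain ⟨w, hw, hw0⟩ := Submodule.exists_mem_ne_zero_of_ne_bot h0
  obtain ⟨x₀, hx₀⟩ := Function.ne_iff.1 hw0
  obtain ⟨γ, hγ⟩ := MulAction.exists_smul_eq G d x₀
  have hv : (fun x => w (γ • x)) ∈ S := hi γ w hw
  -- the first function
  let ev : S →ₗ[ℚ] ℚ :=
    { toFun := fun s => (s : X → ℚ) d
      map_add' := fun u v => rfl
      map_smul' := fun a u => rfl }
  have hker : ∃ u : S, u ≠ 0 ∧ ev u = 0 := by
    by_contra h
    push Not at h
    have hinj : Function.Injective ev := by
      rw [← LinearMap.ker_eq_bot, LinearMap.ker_eq_bot']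
      intro u hu
      by_contra hne
      exact h u hne hu
    have h1 := LinearMap.finrank_le_finrank_of_injective hinj
    rw [hd, Module.finrank_self] at h1
    omega
  obtain ⟨⟨u, huS⟩, hu0, hud⟩ := hker
  have hu0' : u ≠ 0 := fun h => hu0 (Subtype.ext h)
  have hud' : u d = 0 := hud
  refine ⟨u, huS, _, hv, hud', ?_, ?_⟩
  · intro a ha had hua
    -- the function is supported at one place
    have hcard : (T.erase d).erase a = ∅ ∨ ∃ b, (T.erase d).erase a = {b} := by
      have h1 : a ∈ T.erase d := mem_erase.2 ⟨had, ha⟩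
      have h2 : ((T.erase d).erase a).card ≤ 1 := by
        rw [card_erase_of_mem h1, card_erase_of_mem hdT]
        omega
      rcases Nat.le_one_iff_eq_zero_or_eq_one.1 h2 with h3 | h3
      · exact Or.inl (card_eq_zero.1 h3)
      · exact Or.inr (card_eq_one.1 h3)
    rcases hcard with hE | ⟨b, hb⟩
    · apply hu0'
      refine zero_of_transversal hT (hodd u huS) fun x hx => ?_
      by_cases h1 : x = d
      · rw [h1]; exact hud'
      · by_cases h2 : x = a
        · rw [h2]; exact hua
        · exfalso
          have h3 : x ∈ (T.erase d).erase a := mem_erase.2 ⟨h2, mem_erase.2 ⟨h1, hx⟩⟩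
          rw [hE] at h3
          exact absurd h3 (notMem_empty x)
    · have hbT : b ∈ T ∧ b ≠ d ∧ b ≠ a := by
        have h1 : b ∈ (T.erase d).erase a := by rw [hb]; exact mem_singleton_self b
        rw [mem_erase, mem_erase] at h1
        exact ⟨h1.2.2, h1.2.1, h1.1⟩
      have hub : ∀ x ∈ T, x ≠ b → u x = 0 := by
        intro x hx hxb
        by_cases h1 : x = d
        · rw [h1]; exact hud'
        · by_cases h2 : x = a
          · rw [h2]; exact hua
          · exfalso
            have h3 : x ∈ (T.erase d).erase a := mem_erase.2 ⟨h2, mem_erase.2 ⟨h1, hx⟩⟩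
            rw [hb, mem_singleton] at h3
            exact hxb h3
      have hub0 : u b ≠ 0 := by
        intro h
        apply hu0'
        refine zero_of_transversal hT (hodd u huS) fun x hx => ?_
        by_cases h1 : x = b
        · rw [h1]; exact h
        · exact hub x hx h1
      -- the support
      have hsupp : ∀ x, u x ≠ 0 → x = b ∨ x = c • b := by
        intro x hx
        by_cases h1 : x ∈ T
        · left
          by_contra h2
          exact hx (hub x h1 h2)
        · have h2 : c • x ∈ T := by
            by_contra h3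
            exact h1 ((hT x).2 h3)
          right
          have h3 : c • x = b := by
            by_contra h4
            have h5 := hub _ h2 h4
            rw [hodd u huS] at h5
            exact hx (by linarith)
          rw [← h3, ← mul_smul, hcc, one_smul]
      -- the evaluation at the transversal is onto
      let r : S →ₗ[ℚ] (T → ℚ) :=
        { toFun := fun v t => (v : X → ℚ) t
          map_add' := fun u v => rfl
          map_smul' := fun a u => rfl }
      have hr : Function.Surjective r := by
        rw [← LinearMap.range_eq_top, eq_top_iff]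
        rintro f -
        have h1 : f = ∑ t : T, f t • (Pi.single t (1 : ℚ) : T → ℚ) := by
          funext s
          rw [Finset.sum_apply, sum_eq_single s]
          · rw [Pi.smul_apply, Pi.single_eq_same, smul_eq_mul, mul_one]
          · intro t _ hts
            rw [Pi.smul_apply, Pi.single_eq_of_ne hts.symm, smul_zero]
          · intro h
            exact absurd (mem_univ s) h
        rw [h1]
        refine Submodule.sum_mem _ fun t _ => Submodule.smul_mem _ _ ?_
        obtain ⟨δ, hδ⟩ := MulAction.exists_smul_eq G (t : X) b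
        have h2 : (fun x => u (δ • x)) ∈ S := hi δ u huS
        refine ⟨(u b)⁻¹ • ⟨_, h2⟩, ?_⟩
        funext s
        change (u b)⁻¹ * u (δ • (s : X)) = _
        by_cases hst : s = t
        · rw [hst, hδ, Pi.single_eq_same, inv_mul_cancel₀ hub0]
        · rw [Pi.single_eq_of_ne hst]
          have h3 : u (δ • (s : X)) = 0 := by
            by_contra h4
            rcases hsupp _ h4 with h5 | h5
            · apply hst
              rw [← hδ] at h5
              exact Subtype.ext (MulAction.injective δ h5)
            · have h6 : δ • (s : X) = δ • c • (t : X) := by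
                rw [h5, ← hδ, ← mul_smul, ← mul_smul, hcen]
              have h7 : (s : X) = c • (t : X) := MulAction.injective δ h6
              exact (hT t).1 t.2 (h7 ▸ s.2)
          rw [h3, mul_zero]
      have h1 := LinearMap.finrank_le_finrank_of_surjective hr
      rw [Module.finrank_fintype_fun_eq_card, Fintype.card_coe, hd] at h1
      have h2 : ({d, a, b} : Finset X) ⊆ T := by
        intro x hx
        rw [mem_insert, mem_insert, mem_singleton] at hx
        rcases hx with rfl | rfl | rfl
        · exact hdT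
        · exact ha
        · exact hbT.1
      have h3 : ({d, a, b} : Finset X).card = 3 := by
        rw [card_insert_of_notMem, card_insert_of_notMem, card_singleton]
        · rw [mem_singleton]
          exact hbT.2.2.symm
        · rw [mem_insert, mem_singleton]
          rintro (h | h)
          · exact had h.symm
          · exact hbT.2.1 h.symm
      have h4 := card_le_card h2
      rw [h3] at h4
      omega
  · change w (γ • d) ≠ 0
    rw [hγ]
    exact hx₀

/-- The number of the sign functions orthogonal to a space of dimension two, for at most three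
places. -/
theorem cntO_two (D : PData G X m n g M c) (hg3 : g ≤ 3) (hg1 : 1 ≤ g)
    {S : Submodule ℚ (X → ℚ)} (hS : S ∈ MinInv G (fun x : X => c • x)) (hd : finrank ℚ S = 2) :
    cntO M c S ≤ (m * (g - 1)).choose (m * (g - 1) / 2) * m.choose (m / 2) := by
  classical
  have hccX : ∀ x : X, c • c • x = x := fun x => by rw [← mul_smul, D.cc, one_smul]
  obtain ⟨T, hT⟩ := exists_transversal (c := fun x : X => c • x) hccX D.free
  have hT' : ∀ x, x ∈ T ↔ c • x ∉ T := hT
  have hTc : T.card = g := by
    have h1 := card_transversal (c := fun x : X => c • x) hccX hT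
    rw [D.card] at h1
    omega
  obtain ⟨d, hdT⟩ : T.Nonempty := by
    rw [← card_pos]
    omega
  obtain ⟨u, hu, v, hv, hud, hu0, hvd⟩ := exists_two hT' (by omega) D.cen D.cc hS hd hdT
  have hodd : ∀ s ∈ S, ∀ x, s (c • x) = - s x := fun s hs x => hS.2.2.1 s hs x
  set A : Finset (PX X m) := univ.filter fun x => x.fst ∈ T.erase d with hA
  set B : Finset (PX X m) := univ.filter fun x => x.fst = d with hB
  have hcardY : ∀ R : Finset X, (univ.filter fun x : PX X m => x.fst ∈ R).card = m * R.card := by
    intro R
    have h1 : (univ.filter fun x : PX X m => x.fst ∈ R).card = (R ×ˢ (univ : Finset (ZMod m))).card := by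
      refine card_bij (fun x _ => (x.fst, x.snd)) ?_ ?_ ?_
      · intro x hx
        rw [mem_product]
        exact ⟨(mem_filter.1 hx).2, mem_univ _⟩
      · intro x hx y hy h
        rw [Prod.mk.injEq] at h
        exact PX.ext' h.1 h.2
      · rintro ⟨x, z⟩ hx
        exact ⟨⟨x, z⟩, mem_filter.2 ⟨mem_univ _, (mem_product.1 hx).1⟩, rfl⟩
    rw [h1, card_product, card_univ, ZMod.card, mul_comm]
  have hAc : A.card = m * (g - 1) := by
    rw [hA, hcardY, card_erase_of_mem hdT, hTc]
  have hBc : B.card = m := by
    have h1 := hcardY {d}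
    simp only [mem_singleton, card_singleton, mul_one] at h1
    exact h1
  have hAB : Disjoint A B := by
    rw [Finset.disjoint_left]
    intro x hx hx'
    rw [hA, mem_filter, mem_erase] at hx
    rw [hB, mem_filter] at hx'
    exact hx.2.1 hx'.2
  have hABT : ∀ x : PX X m, x ∈ A ∪ B ↔ x.fst ∈ T := by
    intro x
    rw [mem_union, hA, hB, mem_filter, mem_filter, mem_erase]
    constructor
    · rintro (h | h)
      · exact h.2.2
      · rw [h.2]; exact hdT
    · intro h
      by_cases h1 : x.fst = d
      · exact Or.inr ⟨mem_univ _, h1⟩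
      · exact Or.inl ⟨mem_univ _, h1, h⟩
  have hAB' : ∀ x : PX X m, x ∈ A ∪ B ↔
      ((c, 1) : G × Multiplicative (ZMod m)) • x ∉ A ∪ B := by
    intro x
    rw [hABT, hABT, px_smul]
    exact hT' x.fst
  have hccP : ∀ x : PX X m, ((c, 1) : G × Multiplicative (ZMod m)) •
      ((c, 1) : G × Multiplicative (ZMod m)) • x = x := fun x => by
    rw [← mul_smul, D.cc', one_smul]
  have hM0 : ∀ x, (M x : ℚ) ≠ 0 := by
    intro x h
    have h1 : M x = 0 := by exact_mod_cast h
    have h2 := D.Mn x
    rw [h1, zero_dvd_iff] at h2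
    exact D.n0 (by exact_mod_cast h2)
  set p : PX X m → ℚ := fun x => M x * u x.fst with hp
  set q : PX X m → ℚ := fun x => M x * v x.fst with hq
  have hhalf : ∀ (f : PX X m → ℤ), f ∈ oddSigns (PX X m)
      (fun x => ((c, 1) : G × Multiplicative (ZMod m)) • x) → ∀ s ∈ S,
      ∑ x : PX X m, ((f x * M x : ℤ) : ℚ) * s x.fst = 0 →
      ∑ x ∈ (A ∪ B).filter (fun x => f x = 1), (M x : ℚ) * s x.fst =
        (∑ x ∈ A ∪ B, (M x : ℚ) * s x.fst) / 2 := by
    intro f hf s hs h
    rw [sum_transversal (c := fun x : PX X m => ((c, 1) : G × Multiplicative (ZMod m)) • x) hccP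
      hAB'] at h
    have h1 : ∀ x ∈ A ∪ B, ((f x * M x : ℤ) : ℚ) * s x.fst +
        ((f (((c, 1) : G × Multiplicative (ZMod m)) • x) *
          M (((c, 1) : G × Multiplicative (ZMod m)) • x) : ℤ) : ℚ) *
            s (((c, 1) : G × Multiplicative (ZMod m)) • x).fst =
        2 * (f x * ((M x : ℚ) * s x.fst)) := by
      intro x _
      have h2 : f (((c, 1) : G × Multiplicative (ZMod m)) • x) = - f x := hf.2 x
      have h3 : s (((c, 1) : G × Multiplicative (ZMod m)) • x).fst = - s x.fst := hodd s hs x.fst
      rw [h2, D.Mc, h3]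
      push_cast
      ring
    rw [sum_congr rfl h1, ← mul_sum] at h
    have h4 : ∑ x ∈ A ∪ B, (f x : ℚ) * ((M x : ℚ) * s x.fst) = 0 := by linarith
    have h5 : ∑ x ∈ A ∪ B, (f x : ℚ) * ((M x : ℚ) * s x.fst) =
        2 * ∑ x ∈ (A ∪ B).filter (fun x => f x = 1), (M x : ℚ) * s x.fst -
          ∑ x ∈ A ∪ B, (M x : ℚ) * s x.fst := by
      rw [sum_filter, mul_sum, ← sum_sub_distrib]
      refine sum_congr rfl fun x _ => ?_
      rcases hf.1 x with h6 | h6
      · rw [if_pos h6, h6]
        push_cast
        ring
      · rw [if_neg (by rw [h6]; norm_num), h6]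
        push_cast
        ring
    rw [h5] at h4
    linarith
  have hsub : Set.InjOn (fun f : PX X m → ℤ => (A ∪ B).filter (fun x => f x = 1))
      (orthP M c (killers G (S : Set (X → ℚ)))) := by
    intro f hf f' hf' h
    have hf1 := hf.1
    have hf2 := hf'.1
    have h1 : ∀ x ∈ A ∪ B, f x = f' x := by
      intro x hx
      have h2 : f x = 1 ↔ f' x = 1 := by
        have h3 := Finset.ext_iff.1 h x
        simp only [mem_filter, hx, true_and] at h3
        exact h3
      rcases hf1.1 x with h4 | h4
      · rw [h4, h2.1 h4]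
      · rcases hf2.1 x with h5 | h5
        · rw [h2.2 h5, h5]
        · rw [h4, h5]
    funext x
    by_cases hx : x ∈ A ∪ B
    · exact h1 x hx
    · have h2 : ((c, 1) : G × Multiplicative (ZMod m)) • x ∈ A ∪ B := by
        by_contra h3
        exact hx ((hAB' x).2 h3)
      have h3 := h1 _ h2
      have h4 : f (((c, 1) : G × Multiplicative (ZMod m)) • x) = - f x := hf1.2 x
      have h5 : f' (((c, 1) : G × Multiplicative (ZMod m)) • x) = - f' x := hf2.2 x
      rw [h4, h5] at h3
      linarith
  have hmaps : ∀ f ∈ orthP M c (killers G (S : Set (X → ℚ))),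
      (A ∪ B).filter (fun x => f x = 1) ∈ (A ∪ B).powerset.filter fun U =>
        ∑ y ∈ U, p y = (∑ x ∈ A ∪ B, p x) / 2 ∧ ∑ y ∈ U, q y = (∑ x ∈ A ∪ B, q x) / 2 := by
    rintro f ⟨hf, S', hS', hK, horth⟩
    have hSS : S' = S := unique_space hT' (by omega) hS hS' hd hK
    subst hSS
    rw [mem_filter, mem_powerset]
    exact ⟨filter_subset _ _, hhalf f hf u hu (horth u hu), hhalf f hf v hv (horth v hv)⟩
  have hcount : cntO M c S ≤ ((A ∪ B).powerset.filter fun U =>
        ∑ y ∈ U, p y = (∑ x ∈ A ∪ B, p x) / 2 ∧ ∑ y ∈ U, q y = (∑ x ∈ A ∪ B, q x) / 2).card := by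
    rw [← Set.ncard_coe_finset]
    exact Set.ncard_le_ncard_of_injOn _ hmaps hsub (Finset.finite_toSet _)
  refine hcount.trans ?_
  have h1 := pair_count A B hAB p q ?_ ?_ ?_ ((∑ x ∈ A ∪ B, p x) / 2) ((∑ x ∈ A ∪ B, q x) / 2)
  · rwa [hAc, hBc] at h1
  · intro x hx
    rw [hA, mem_filter, mem_erase] at hx
    exact mul_ne_zero (hM0 x) (hu0 _ hx.2.2 hx.2.1)
  · intro x hx
    rw [hB, mem_filter] at hx
    rw [hp]
    dsimp only
    rw [hx.2, hud, mul_zero]
  · intro x hx
    rw [hB, mem_filter] at hx
    rw [hq]
    dsimp only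
    rw [hx.2]
    exact mul_ne_zero (hM0 x) hvd

end

end Pool.Agent.Q29.TE
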