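import Mathlib
import Pool.Agent.Q29.TE.Expl

/-!
# The contribution of a component of dimension two from a field of degree four or six
-/

set_option linter.unusedSectionVars false
set_option linter.unusedVariables false

namespace Pool.Agent.Q29.TE

open NumberField Finset Module Pool.Agent.H204R3.CM Pool.Agent.TH170.MF Pool.Agent.TH170.QC
  Pool.Agent.TH170.QE Pool.Agent.TH170.FW Pool.Agent.TH170.CM Pool.Agent.TH170.GC
  Pool.Agent.Y1.KN Pool.Agent.Q29.TD Pool.Agent.Q29.AB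

theorem choose_rho (k : ℕ) : (k.choose (k / 2) : ℝ) = 2 ^ k * Pool.Agent.Q29.AB.rho k := by
  unfold Pool.Agent.Q29.AB.rho
  field_simp

/-- The product of two central binomial coefficients. -/
theorem two_rho {m : ℕ} (hm : 1 ≤ m) :
    ((m.choose (m / 2) * m.choose (m / 2) : ℕ) : ℝ) ≤ 2 ^ (m * 2) * (1.351 / (m * 2 : ℕ)) := by
  obtain ⟨h0, -, h1, -⟩ := Pool.Agent.Q261.AB.t_RHO
  have hmR : (0 : ℝ) < m := by exact_mod_cast hm
  have hpi : (0 : ℝ) < Real.pi := Real.pi_pos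
  have h3 := h1 m
  have h4 : Pool.Agent.Q29.AB.rho m ^ 2 ≤ 2 / (Real.pi * m) := by
    rw [le_div_iff₀ (by positivity)]
    exact h3
  rw [Nat.cast_mul, choose_rho]
  have h5 : (2 : ℝ) ^ m * Pool.Agent.Q29.AB.rho m * (2 ^ m * Pool.Agent.Q29.AB.rho m) = 2 ^ (m * 2) * Pool.Agent.Q29.AB.rho m ^ 2 := by
    rw [pow_mul]
    ring
  rw [h5]
  refine mul_le_mul_of_nonneg_left (h4.trans ?_) (by positivity)
  push_cast
  rw [div_le_div_iff₀ (by positivity) (by positivity)]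
  have h6 : (3.1415 : ℝ) < Real.pi := Real.pi_gt_d4
  nlinarith

theorem three_rho {m : ℕ} (hm : 1 ≤ m) :
    (((m * 2).choose (m * 2 / 2) * m.choose (m / 2) : ℕ) : ℝ) ≤
      2 ^ (m * 3) * (1.351 / (m * 3 : ℕ)) := by
  obtain ⟨h0, -, h1, h2⟩ := Pool.Agent.Q261.AB.t_RHO
  have hmR : (0 : ℝ) < m := by exact_mod_cast hm
  have hpi : (0 : ℝ) < Real.pi := Real.pi_pos
  have hpm : (0 : ℝ) < Real.pi * m := by positivity
  have h3 := h1 m
  have h4 := h2 m
  rw [Nat.cast_mul, choose_rho, choose_rho, mul_comm m 2]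
  have h5 : (2 : ℝ) ^ (2 * m) * Pool.Agent.Q29.AB.rho (2 * m) * (2 ^ m * Pool.Agent.Q29.AB.rho m) =
      2 ^ (m * 3) * (Pool.Agent.Q29.AB.rho (2 * m) * Pool.Agent.Q29.AB.rho m) := by
    have : (2 : ℝ) ^ (m * 3) = 2 ^ (2 * m) * 2 ^ m := by
      rw [← pow_add]
      congr 1
      ring
    rw [this]
    ring
  rw [h5]
  refine mul_le_mul_of_nonneg_left ?_ (by positivity)
  have h6 : (3.1415 : ℝ) < Real.pi := Real.pi_gt_d4
  have h7 : (Pool.Agent.Q29.AB.rho (2 * m) * Pool.Agent.Q29.AB.rho m * (Real.pi * m)) ^ 2 ≤ 2 := by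
    calc (Pool.Agent.Q29.AB.rho (2 * m) * Pool.Agent.Q29.AB.rho m * (Real.pi * m)) ^ 2 =
        (Pool.Agent.Q29.AB.rho (2 * m) ^ 2 * (Real.pi * m)) * (Pool.Agent.Q29.AB.rho m ^ 2 * (Real.pi * m)) := by ring
      _ ≤ 1 * 2 := by
        refine mul_le_mul h4 h3 ?_ (by norm_num)
        positivity
      _ = 2 := by norm_num
  have h8 : Pool.Agent.Q29.AB.rho (2 * m) * Pool.Agent.Q29.AB.rho m * (Real.pi * m) ≤ 1.41422 := by
    refine abs_le_of_sq_le_sq' (h7.trans (by norm_num)) (by norm_num) |>.2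
  push_cast
  rw [le_div_iff₀ (by positivity)]
  have h9 : 0 < Pool.Agent.Q29.AB.rho (2 * m) * Pool.Agent.Q29.AB.rho m := mul_pos (h0 _).1 (h0 _).1
  have h10 : Pool.Agent.Q29.AB.rho (2 * m) * Pool.Agent.Q29.AB.rho m * ((3.1415 : ℝ) * m) ≤ 1.41422 := by
    refine le_trans ?_ h8
    gcongr
  nlinarith

/-- **The explicit estimate.** -/
theorem Est.explicit {κ : Consts} {E : Type} [Field E] [NumberField E] [IsCMField E]
    {φ₀ : E →+* ℂ} {M : (E →+* ℂ) → ℤ} {n g : ℕ} (hn0 : n ≠ 0)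
    (hMn : ∀ φ, M φ ∣ (n : ℤ)) (hMc : ∀ φ, M (ComplexEmbedding.conjugate φ) = M φ)
    (hg : finrank ℚ E = 2 * g) {S : Submodule ℚ ((E →+* ℂ) → ℚ)} (hS : S ∈ minimalSpaces E)
    {F : IntermediateField ℚ E} {d e h c gF m : ℕ} (hE : Est κ φ₀ M n g S F d e h c gF m)
    (hd : d = 2) (hgF : gF = 2 ∨ gF = 3) : (cnt M S : ℝ) ≤ 2 ^ g * (1.351 / g) := by
  classical
  have hdesc := Pool.Agent.Y46.KN1.desc
  have hcmF := hE.cm
  have hhome : F ∈ homeFields S := hE.home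
  have hle : S ≤ resSpace F := hhome S hS rfl
  have hdeg := hE.deg
  have hmul : finrank ℚ F * finrank F E = finrank ℚ E := finrank_mul_finrank ℚ F E
  have hg0 : 0 < g := by
    have := Module.finrank_pos (R := ℚ) (M := E)
    omega
  have hgm := hE.mul
  have hgF0 : 0 < gF := by omega
  have hm0 : m ≠ 0 := by
    rintro rfl
    omega
  have hm1 : 1 ≤ m := Nat.one_le_iff_ne_zero.2 hm0
  have hmE : finrank F E = m := by
    rw [hdeg, hg, hgm] at hmul
    have h1 : 2 * gF * finrank F E = 2 * gF * m := by rw [hmul]; ring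
    exact Nat.eq_of_mul_eq_mul_left (by omega) h1
  have : NeZero m := ⟨hm0⟩
  obtain ⟨c', hc, hcc, hcen⟩ := exists_conj F
  have hfun : (fun ψ : F →+* ℂ => c' • ψ) = ComplexEmbedding.conjugate (K := F) := funext hc
  obtain ⟨hd1, -, hd3, -⟩ := hdesc E F S hS hle
  have hS'm : desc F S ∈ MinInv (Gal F) (fun ψ : F →+* ℂ => c' • ψ) := by
    rw [hfun]
    exact (minInv_iff _).2 hd1
  subst hmE
  obtain ⟨M', D, hcnt⟩ := ncard_types_le_cntO hdesc Pool.Agent.Y46.KN1.bij E F hdeg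
    (by rw [hg, hgm]) M hn0 hMn hMc hS hhome hc hcc hcen
  have hcnt' : cnt M S ≤ cntO M' c' (desc F S) := hcnt
  have h1 := cntO_two D (by omega) (by omega) hS'm (by rw [hd3, hE.dim, hd])
  have h2 := hcnt'.trans h1
  have h3 : (cnt M S : ℝ) ≤ (((finrank F E * (gF - 1)).choose (finrank F E * (gF - 1) / 2) *
      (finrank F E).choose (finrank F E / 2) : ℕ) : ℝ) := by exact_mod_cast h2
  refine h3.trans ?_
  rcases hgF with h | h
  · rw [hgm, h]
    have h4 : finrank F E * (2 - 1) = finrank F E := by simp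
    rw [h4]
    exact two_rho hm1
  · rw [hgm, h]
    exact three_rho hm1

end Pool.Agent.Q29.TE
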