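import Mathlib
import Pool.Agent.Q29.TE.Expl2
import Pool.Agent.Q29.TE.Limit

/-!
# At least 32 percent of all types
-/

set_option linter.unusedSectionVars false
set_option linter.unusedVariables false

namespace Pool.Agent.Q29.TE

open NumberField Finset Module Pool.Agent.H204R3.CM Pool.Agent.TH170.MF Pool.Agent.TH170.QC
  Pool.Agent.TH170.QE Pool.Agent.TH170.FW Pool.Agent.TH170.CM Pool.Agent.TH170.GC
  Pool.Agent.Y1.KN Pool.Agent.Q29.TD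

/-- **All fields with small normal subfields.** -/
theorem third_aux (hEH : S_EH) (hREL : S_REL) (hFS : S_FS) (hIDX : S_IDX) (hNORMAL : S_NORMAL)
    (hTWO : S_TWO) (hSMALL : S_SMALL) (hLIM : S_LIM) (κ : Consts) (n : ℕ)
    (hn0 : n ≠ 0) :
    ∃ u : ℕ, ∀ (E : Type) [Field E] [NumberField E] [IsCMField E]
      (M : (E →+* ℂ) → ℤ) (g : ℕ),
      (∀ φ, M φ ∣ (n : ℤ)) → (∀ φ, M (ComplexEmbedding.conjugate φ) = M φ) →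
      finrank ℚ E = 2 * g → u ≤ g → (Odd g ∨ SmallSmoothParts g ∨ SmallNormalPart E g) →
      ((degTypes M).ncard : ℝ) ≤ 2 ^ g * (17 / 25) := by
  classical
  have hε : (0 : ℝ) < 0.0045 := by norm_num
  obtain ⟨g₀, hg₀⟩ := main_small hSMALL hLIM κ n (ε := 0.0045 / 2) (by norm_num)
  obtain ⟨g₁, hg₁⟩ := one_odd κ n hFS hIDX hLIM (ε := 0.0045 / 2) (by norm_num)
  obtain ⟨g₂, hg₂⟩ := one_end κ n (ε := 0.0045 / 2) (by norm_num)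
  refine ⟨max (max g₀ g₁) g₂, ?_⟩
  intro E _ _ _ M g hMn hMc hg hgu hcond1
  obtain ⟨φ₀⟩ : Nonempty (E →+* ℂ) := inferInstance
  obtain ⟨𝓕⟩ := exists_fam hEH hREL κ E φ₀ hn0 hMn hMc hg
  have hgg₀ : g₀ ≤ g := (le_max_left _ _).trans ((le_max_left _ _).trans hgu)
  have hgg₁ : g₁ ≤ g := (le_max_right _ _).trans ((le_max_left _ _).trans hgu)
  have hgg₂ : g₂ ≤ g := (le_max_right _ _).trans hgu
  have hg0 : 0 < g := by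
    have := Module.finrank_pos (R := ℚ) (M := E)
    omega
  have hgR : (0 : ℝ) < g := by exact_mod_cast hg0
  set T₁ := 𝓕.Ws.filter (fun W => 𝓕.c W = 1) with hT₁
  set R := 𝓕.Ws.filter (fun W => ¬ 𝓕.c W = 1) with hR
  set T₂ := R.filter (fun W => 𝓕.c W = 2 ∧ 𝓕.d W = 2) with hT₂
  set T₀ := R.filter (fun W => ¬ (𝓕.c W = 2 ∧ 𝓕.d W = 2)) with hT₀
  have hT₁s : T₁ ⊆ 𝓕.Ws := filter_subset _ _
  have hRs : R ⊆ 𝓕.Ws := filter_subset _ _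
  have hT₂s : T₂ ⊆ 𝓕.Ws := (filter_subset _ _).trans hRs
  have hT₀s : T₀ ⊆ 𝓕.Ws := (filter_subset _ _).trans hRs
  have hT₁c : ∀ W ∈ T₁, 𝓕.c W = 1 := fun W hW => (mem_filter.1 hW).2
  have hT₂c : ∀ W ∈ T₂, 𝓕.c W = 2 ∧ 𝓕.d W = 2 := fun W hW => (mem_filter.1 hW).2
  have hsplit : ((∑ W ∈ 𝓕.Ws, cnt M (𝓕.rep W) : ℕ) : ℝ) =
      ((∑ W ∈ T₁, cnt M (𝓕.rep W) : ℕ) : ℝ) + (((∑ W ∈ T₂, cnt M (𝓕.rep W) : ℕ) : ℝ) +
        ((∑ W ∈ T₀, cnt M (𝓕.rep W) : ℕ) : ℝ)) := by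
    rw [← Nat.cast_add, ← Nat.cast_add, hT₂, hT₀, sum_filter_add_sum_filter_not, hT₁, hR,
      sum_filter_add_sum_filter_not]
  have s0 : ((∑ W ∈ T₀, cnt M (𝓕.rep W) : ℕ) : ℝ) ≤ 2 ^ g * (0.0045 / 2) := by
    refine hg₀ E φ₀ M g 𝓕 hg hgg₀ T₀ hT₀s fun W hW => ?_
    have h1 := (mem_filter.1 hW).2
    have h2 := (mem_filter.1 (mem_filter.1 hW).1).2
    have h4 := (𝓕.est W (hT₀s hW)).c1
    rcases Nat.lt_or_ge (𝓕.c W) 3 with h5 | h5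
    · right
      have h6 : 𝓕.c W = 2 := by omega
      have h7 := (𝓕.est W (hT₀s hW)).d2 h6
      refine ⟨h6, ?_⟩
      by_contra h8
      exact h1 ⟨h6, by omega⟩
    · exact Or.inl h5
  have s1 : ((∑ W ∈ T₁, cnt M (𝓕.rep W) : ℕ) : ℝ) ≤ 2 ^ g * (0.0045 / 2) := by
    rcases hcond1 with h1 | h1 | h1
    · exact hg₁ E φ₀ M g 𝓕 hg hgg₁ h1 T₁ hT₁s hT₁c
    · exact hg₂ E φ₀ M g 𝓕 hg hgg₂ T₁ hT₁s hT₁c (one_smooth κ n hIDX 𝓕 hg h1 T₁ hT₁s hT₁c)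
    · exact hg₂ E φ₀ M g 𝓕 hg hgg₂ T₁ hT₁s hT₁c (one_normal κ n hNORMAL 𝓕 h1 T₁ hT₁s hT₁c)
  have hcard : (T₂.card : ℝ) * 2 ≤ g := by
    have h1 := 𝓕.sum_all_le hg T₂ hT₂s
    rwa [sum_congr rfl (g := fun _ => (2 : ℝ)) fun W hW =>
      (𝓕.est W (hT₂s hW)).mult_two_two (hT₂c W hW).1 (hT₂c W hW).2, sum_const,
      nsmul_eq_mul] at h1
  have s2 : ((∑ W ∈ T₂, cnt M (𝓕.rep W) : ℕ) : ℝ) ≤ 2 ^ g * 0.6755 := by
    have hone : ∀ W ∈ T₂, (cnt M (𝓕.rep W) : ℝ) ≤ 2 ^ g * (1.351 / g) := by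
      intro W hW
      have hE := 𝓕.est W (hT₂s hW)
      exact Est.explicit hn0 hMn hMc hg (𝓕.hrep W (hT₂s hW)) hE (hT₂c W hW).2
        (hE.twod hTWO (hT₂c W hW).1 (hT₂c W hW).2)
    rw [Nat.cast_sum]
    refine (sum_le_sum hone).trans ?_
    rw [sum_const, nsmul_eq_mul]
    calc (T₂.card : ℝ) * (2 ^ g * (1.351 / g)) = 2 ^ g * (1.351 / 2 * (T₂.card * 2) / g) := by
          ring
      _ ≤ 2 ^ g * (1.351 / 2 * g / g) := by gcongr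
      _ = 2 ^ g * 0.6755 := by
        field_simp
        norm_num
  have htot : ((degTypes M).ncard : ℝ) ≤ ((∑ W ∈ 𝓕.Ws, cnt M (𝓕.rep W) : ℕ) : ℝ) := by
    exact_mod_cast 𝓕.tot
  rw [hsplit] at htot
  calc ((degTypes M).ncard : ℝ) ≤ _ := htot
    _ ≤ 2 ^ g * (0.0045 / 2) + (2 ^ g * 0.6755 + 2 ^ g * (0.0045 / 2)) :=
      add_le_add s1 (add_le_add s2 s0)
    _ = _ := by ring

end Pool.Agent.Q29.TE
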