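import Mathlib
import Pool.Agent.Q29.TE.Law
import Pool.Agent.Q29.TE.Third
import Pool.Agent.Q29.TE.Rows2

/-!
# The law for at least 32 percent of all types of all CM fields with small normal subfields
-/

set_option autoImplicit false
set_option linter.unusedSectionVars false

namespace Pool.Agent.Q29.TE

open NumberField Module MulAction Finset Pool.Agent.H204R3.CM Pool.Agent.H977R3.CM
  Pool.Agent.TH170.CM Pool.Agent.TH170.FW Pool.Agent.Y1.KN Pool.Agent.Q29.DP Pool.Agent.Q29.OS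

/-- The bound for one field. -/
theorem third_holds (n : ℕ) (hn0 : n ≠ 0) :
    ∃ u : ℕ, ∀ (E : Type) [Field E] [NumberField E] [IsCMField E]
      (M : (E →+* ℂ) → ℤ) (g : ℕ),
      (∀ φ, M φ ∣ (n : ℤ)) → (∀ φ, M (ComplexEmbedding.conjugate φ) = M φ) →
      finrank ℚ E = 2 * g → u ≤ g → SmallNormal E g →
      ((degTypes M).ncard : ℝ) ≤ 2 ^ g * (17 / 25) := by
  obtain ⟨κ⟩ := exists_consts Q204.TE.t_NUM
  exact third_aux Q227.TE.t_EH Q24.TE.t_REL Q204.TE.t_FS idx Q38.TE.t_NORMAL Q275.TE.t_TWO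
    small_holds Q275.TE.t_LIM κ n hn0

/-- The types without relations. -/
theorem noRelations_ge {E : Type} [Field E] [NumberField E] [IsCMField E]
    {M : (E →+* ℂ) → ℤ} {g : ℕ} (hg : finrank ℚ E = 2 * g) {r : ℝ}
    (h : ((degTypes M).ncard : ℝ) ≤ 2 ^ g * r) :
    (1 - r) * 2 ^ g ≤
      (({Φ : Set (E →+* ℂ) | IsCMType Φ ∧ NoRelations M Φ}.ncard : ℕ) : ℝ) := by
  have h1 := ncard_cmTypes E hg
  have h2 : {Φ : Set (E →+* ℂ) | IsCMType Φ} ⊆
      {Φ : Set (E →+* ℂ) | IsCMType Φ ∧ NoRelations M Φ} ∪ degTypes M := by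
    intro Φ hΦ
    by_cases h3 : Φ ∈ degTypes M
    · exact Or.inr h3
    · exact Or.inl ⟨hΦ, noRelations_of_notMem hΦ h3⟩
  have h3 := (Set.ncard_le_ncard h2 (Set.toFinite _)).trans (Set.ncard_union_le _ _)
  rw [h1] at h3
  have h4 : (2 : ℝ) ^ g ≤
      (({Φ : Set (E →+* ℂ) | IsCMType Φ ∧ NoRelations M Φ}.ncard : ℕ) : ℝ) +
        ((degTypes M).ncard : ℝ) := by exact_mod_cast h3
  linarith

/-- A property which holds for all families of types without relations. -/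
theorem fam_third (n : ℕ) (hn0 : n ≠ 0) : ∃ u : ℕ,
    ∀ (ι : Type) [Fintype ι] (E : ι → Type)
    [∀ i, Field (E i)] [∀ i, NumberField (E i)] [∀ i, IsCMField (E i)]
    (M : ∀ i, (E i →+* ℂ) → ℤ) (g : ι → ℕ) (P : (∀ i, Set (E i →+* ℂ)) → Prop),
    (∀ i φ, M i (ComplexEmbedding.conjugate φ) = M i φ) →
    (∀ i φ, M i φ ∣ (n : ℤ)) → (∀ i, finrank ℚ (E i) = 2 * g i) →
    (∀ i, u ≤ g i ∧ SmallNormal (E i) (g i)) →
    (∀ Φ : ∀ i, Set (E i →+* ℂ), (∀ i, IsCMType (Φ i)) →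
      (∀ i, NoRelations (M i) (Φ i)) → P Φ) →
    (8 / 25 : ℝ) ^ Fintype.card ι * 2 ^ (∑ i, g i) ≤
      (({Φ : ∀ i, Set (E i →+* ℂ) | (∀ i, IsCMType (Φ i)) ∧ P Φ}.ncard : ℕ) : ℝ) := by
  obtain ⟨u, hu⟩ := third_holds n hn0
  refine ⟨u, ?_⟩
  intro ι _ E _ _ _ M g P hMc hMn hg hu0 hP
  refine le_trans ?_ (Nat.cast_le.2 (prod_le_fam hP))
  rw [Nat.cast_prod]
  calc (8 / 25 : ℝ) ^ Fintype.card ι * 2 ^ (∑ i, g i) = ∏ i, (1 - 17 / 25 : ℝ) * 2 ^ g i := by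
        rw [prod_mul_distrib, prod_const, card_univ, prod_pow_eq_pow_sum]
        norm_num
    _ ≤ _ := prod_le_prod (fun i _ => by norm_num) fun i _ =>
      noRelations_ge (hg i) (hu (E i) (M i) (g i) (hMn i) (hMc i) (hg i) (hu0 i).1 (hu0 i).2)

variable {Q : TypeProperty} (h : WithoutRelations Q)

include h in
theorem oneThird : OneThird Q := by
  intro n hn
  obtain ⟨u, h1⟩ := fam_third n hn
  refine ⟨u, ?_⟩
  intro p _ ν I _ K _ _ _ M g hind hMc hMn hg hu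
  exact h1 I K M g _ hMc hMn hg hu fun Φ hΦ hno => h p ν I K M Φ hind hMc hΦ hno

end Pool.Agent.Q29.TE
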