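import Mathlib
import Pool.Agent.Q29.TE.Rows2

/-!
# Properties of slope types for most slope types of all CM fields with small normal subfields, and
of all CM fields of degree `2 g`, `g` odd
-/

set_option autoImplicit false

namespace Pool.Agent.Q29.TE

open NumberField Module Pool.Agent.H204R3.CM Pool.Agent.H977R3.CM

/-- The number `q` is at least the part of `g` composed of the primes `2` and `3`, or at least twice
the number of the CM subfields of `K` of degree 4 or 6. -/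
def SmallPart (K : Type) [Field K] [NumberField K] (g q : ℕ) : Prop :=
  (∀ a b : ℕ, 2 ^ a * 3 ^ b ∣ g → 2 ^ a * 3 ^ b ≤ q) ∨
    2 * {F : IntermediateField ℚ K | IsCMField F ∧ (finrank ℚ F = 4 ∨ finrank ℚ F = 6)}.ncard ≤ q

variable (Q : TypeProperty)

/-- **All but a proportion of** `max (ε, 0.68 q / g)` **of the slope types of a CM field of degree**
`2 g` **with small normal subfields**, where `q` is the part of `g` composed of the primes 2 and 3: for
all `n` and `ε > 0` there is a `u` such that for all pairwise independent CM fields `K i` of degrees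
`2 g i`, `g i ≥ u`, with `SmallNormal (K i) (g i)` (for instance `g i` odd) and `SmallPart (K i) (g i)
(q i)`, `q i ≤ g i`, and all weights with values dividing `n`, the property `Q` is true for at least
`(∏ (1 - max (ε, 0.68 q i / g i))) 2 ^ (∑ g i)` of the `2 ^ (∑ g i)` families of types. -/
def MostTypes : Prop :=
  ∀ (n : ℕ) (ε : ℝ), n ≠ 0 → 0 < ε → ε ≤ 1 → ∃ u : ℕ, ∀ (p : ℕ) [hp : Fact p.Prime]
    (ν : PadicAlgCl p ≃+* ℂ) (I : Type) [hI : Fintype I] (K : I → Type) [hK : ∀ i, Field (K i)]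
    [hN : ∀ i, NumberField (K i)] [hC : ∀ i, IsCMField (K i)]
    (M : ∀ i, (K i →+* ℂ) → ℤ) (g q : I → ℕ), PairwiseIndep K →
    (∀ i φ, M i (ComplexEmbedding.conjugate φ) = M i φ) →
    (∀ i φ, M i φ ∣ (n : ℤ)) → (∀ i, finrank ℚ (K i) = 2 * g i) →
    (∀ i, u ≤ g i ∧ q i ≤ g i ∧ SmallNormal (K i) (g i) ∧ SmallPart (K i) (g i) (q i)) →
    (∏ i, (1 - max ε (17 / 25 * q i / g i))) * 2 ^ (∑ i, g i) ≤
      (({Φ : ∀ i, Set (K i →+* ℂ) |
        (∀ i, IsCMType (Φ i)) ∧ Q p hp ν I hI K hK hN hC M Φ}.ncard : ℕ) : ℝ)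

/-- **One half of all slope types, and two thirds of all slope types of weight one, of all CM fields
of degree** `2 g`, `g` **odd**: for all `n` there is a `u` such that for all pairwise independent CM
fields `K i` of degrees `2 g i` with `g i ≥ u` odd, and all weights with values dividing `n`, the
property `Q` is true for at least `2 ^ (∑ g i - |I|)` of the `2 ^ (∑ g i)` families of types; and if
all weights are one then for at least `(2 / 3) ^ |I| * 2 ^ (∑ g i)`. -/
def OddDegrees : Prop :=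
  ∀ n : ℕ, n ≠ 0 → ∃ u : ℕ, ∀ (p : ℕ) [hp : Fact p.Prime]
    (ν : PadicAlgCl p ≃+* ℂ) (I : Type) [hI : Fintype I] (K : I → Type) [hK : ∀ i, Field (K i)]
    [hN : ∀ i, NumberField (K i)] [hC : ∀ i, IsCMField (K i)]
    (M : ∀ i, (K i →+* ℂ) → ℤ) (g : I → ℕ), PairwiseIndep K →
    (∀ i φ, M i (ComplexEmbedding.conjugate φ) = M i φ) →
    (∀ i φ, M i φ ∣ (n : ℤ)) → (∀ i, finrank ℚ (K i) = 2 * g i) →
    (∀ i, u ≤ g i ∧ Odd (g i)) →
    (1 / 2 : ℝ) ^ Fintype.card I * 2 ^ (∑ i, g i) ≤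
      (({Φ : ∀ i, Set (K i →+* ℂ) |
        (∀ i, IsCMType (Φ i)) ∧ Q p hp ν I hI K hK hN hC M Φ}.ncard : ℕ) : ℝ) ∧
    ((∀ i φ, M i φ = 1) → (2 / 3 : ℝ) ^ Fintype.card I * 2 ^ (∑ i, g i) ≤
      (({Φ : ∀ i, Set (K i →+* ℂ) |
        (∀ i, IsCMType (Φ i)) ∧ Q p hp ν I hI K hK hN hC M Φ}.ncard : ℕ) : ℝ))

end Pool.Agent.Q29.TE
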