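import Mathlib
import Pool.Agent.Q29.TE.Third
import Pool.Agent.Q29.TE.Rows3

/-!
# Most types of the CM fields with small normal subfields
-/

set_option linter.unusedSectionVars false
set_option linter.unusedVariables false

namespace Pool.Agent.Q29.TE

open NumberField Finset Module Pool.Agent.H204R3.CM Pool.Agent.TH170.MF Pool.Agent.TH170.QC
  Pool.Agent.TH170.QE Pool.Agent.TH170.FW Pool.Agent.TH170.CM Pool.Agent.TH170.GC
  Pool.Agent.Y1.KN Pool.Agent.Q29.TD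

/-- The number of the classes of codimension and dimension two. -/
theorem card_two (hIDX : S_IDX) (hTWO : S_TWO) {κ : Consts} {E : Type} [Field E] [NumberField E]
    [IsCMField E] {φ₀ : E →+* ℂ} {M : (E →+* ℂ) → ℤ} {n g : ℕ} (𝓕 : Fam κ φ₀ M n g)
    (hg : finrank ℚ E = 2 * g) {q : ℕ} (hq : SmallPart E g q)
    (T : Finset (Submodule ℚ ((E →+* ℂ) → ℚ))) (hT : T ⊆ 𝓕.Ws)
    (hTc : ∀ W ∈ T, 𝓕.c W = 2 ∧ 𝓕.d W = 2) : 2 * T.card ≤ q := by
  classical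
  have hg0 : 0 < g := by
    have := Module.finrank_pos (R := ℚ) (M := E)
    omega
  have hgF : ∀ W ∈ T, 𝓕.gF W = 2 ∨ 𝓕.gF W = 3 := fun W hW =>
    (𝓕.est W (hT hW)).twod hTWO (hTc W hW).1 (hTc W hW).2
  rcases hq with hcond | hcond
  · obtain ⟨q', hq1, hq2, hq3⟩ := 𝓕.few hIDX hg T hT 2 (fun W hW => (hTc W hW).2.le)
    have hq4 := le_two_gcd hg0.ne' hq1
    have hgcd0 : Nat.gcd q' g ≠ 0 := (Nat.gcd_pos_of_pos_right _ hg0).ne'
    obtain ⟨a, b, hab⟩ := eq_two_three hgcd0 (fun p hp hpq =>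
      hq2 p hp (hpq.trans (Nat.gcd_dvd_left q' g)))
    have h1 := hcond a b (by rw [← hab]; exact Nat.gcd_dvd_right q' g)
    rw [← hab] at h1
    have h4 : ∑ W ∈ T, (𝓕.h W * 𝓕.d W / 𝓕.e W : ℝ) = T.card * 2 := by
      rw [sum_congr rfl (g := fun _ => (2 : ℝ)) fun W hW => ?_, sum_const, nsmul_eq_mul]
      exact (𝓕.est W (hT hW)).mult_two_two (hTc W hW).1 (hTc W hW).2
    rw [h4] at hq3
    have h5 : 4 * T.card ≤ q' := by
      have h6 : (4 : ℝ) * T.card ≤ q' := by linarith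
      exact_mod_cast h6
    omega
  · have hinj : Set.InjOn 𝓕.F (T : Set (Submodule ℚ ((E →+* ℂ) → ℚ))) := by
      intro W hW W' hW' hFF
      by_contra hne
      have h1 : ({W, W'} : Finset (Submodule ℚ ((E →+* ℂ) → ℚ))) ⊆ T := by
        intro V hV
        rcases mem_insert.1 hV with rfl | hV
        · exact hW
        · rw [mem_singleton.1 hV]
          exact hW'
      have h2 := 𝓕.sum_le {W, W'} (h1.trans hT) (𝓕.F W) fun V hV => by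
        rcases mem_insert.1 hV with rfl | hV
        · exact (𝓕.est V (hT hW)).home
        · rw [mem_singleton.1 hV, hFF]
          exact (𝓕.est W' (hT hW')).home
      rw [sum_pair hne, (𝓕.est W (hT hW)).mult_two_two (hTc W hW).1 (hTc W hW).2,
        (𝓕.est W' (hT hW')).mult_two_two (hTc W' hW').1 (hTc W' hW').2,
        (𝓕.est W (hT hW)).deg] at h2
      have h3 : ((2 * 𝓕.gF W : ℕ) : ℝ) ≤ 6 := by
        have := hgF W hW
        have h4 : 2 * 𝓕.gF W ≤ 6 := by omega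
        exact_mod_cast h4
      linarith
    have h1 : (T.image 𝓕.F : Set (IntermediateField ℚ E)) ⊆ {F : IntermediateField ℚ E |
        IsCMField F ∧ (finrank ℚ F = 4 ∨ finrank ℚ F = 6)} := by
      intro F hF
      rw [mem_coe, mem_image] at hF
      obtain ⟨W, hW, rfl⟩ := hF
      have hE := 𝓕.est W (hT hW)
      refine ⟨hE.cm, ?_⟩
      have h2 := hgF W hW
      have h3 := hE.deg
      omega
    have hfin : {F : IntermediateField ℚ E |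
        IsCMField F ∧ (finrank ℚ F = 4 ∨ finrank ℚ F = 6)}.Finite := Set.toFinite _
    have h2 := Set.ncard_le_ncard h1 hfin
    rw [Set.ncard_coe_finset, card_image_of_injOn hinj] at h2
    omega

/-- **All fields with small normal subfields.** -/
theorem most_aux (hEH : S_EH) (hREL : S_REL) (hFS : S_FS) (hIDX : S_IDX) (hNORMAL : S_NORMAL)
    (hTWO : S_TWO) (hSMALL : S_SMALL) (hLIM : S_LIM) (κ : Consts) (n : ℕ)
    (hn0 : n ≠ 0) {ε : ℝ} (hε : 0 < ε) :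
    ∃ u : ℕ, ∀ (E : Type) [Field E] [NumberField E] [IsCMField E]
      (M : (E →+* ℂ) → ℤ) (g q : ℕ),
      (∀ φ, M φ ∣ (n : ℤ)) → (∀ φ, M (ComplexEmbedding.conjugate φ) = M φ) →
      finrank ℚ E = 2 * g → u ≤ g → SmallNormal E g → SmallPart E g q →
      ((degTypes M).ncard : ℝ) ≤ 2 ^ g * max ε (17 / 25 * q / g) := by
  classical
  have hδ : 0 < ε * 0.003 := by positivity
  obtain ⟨g₀, hg₀⟩ := main_small hSMALL hLIM κ n hδ
  obtain ⟨g₁, hg₁⟩ := one_odd κ n hFS hIDX hLIM hδ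
  obtain ⟨g₂, hg₂⟩ := one_end κ n hδ
  refine ⟨max (max g₀ g₁) g₂, ?_⟩
  intro E _ _ _ M g q hMn hMc hg hgu hcond1 hcond2
  obtain ⟨φ₀⟩ : Nonempty (E →+* ℂ) := inferInstance
  obtain ⟨𝓕⟩ := exists_fam hEH hREL κ E φ₀ hn0 hMn hMc hg
  have hgg₀ : g₀ ≤ g := (le_max_left _ _).trans ((le_max_left _ _).trans hgu)
  have hgg₁ : g₁ ≤ g := (le_max_right _ _).trans ((le_max_left _ _).trans hgu)
  have hgg₂ : g₂ ≤ g := (le_max_right _ _).trans hgu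
  have hg0 : 0 < g := by
    have := Module.finrank_pos (R := ℚ) (M := E)
    omega
  have hgR : (0 : ℝ) < g := by exact_mod_cast hg0
  set T₁ := 𝓕.Ws.filter (fun W => 𝓕.c W = 1) with hT₁
  set R := 𝓕.Ws.filter (fun W => ¬ 𝓕.c W = 1) with hR
  set T₂ := R.filter (fun W => 𝓕.c W = 2 ∧ 𝓕.d W = 2) with hT₂
  set T₀ := R.filter (fun W => ¬ (𝓕.c W = 2 ∧ 𝓕.d W = 2)) with hT₀
  have hT₁s : T₁ ⊆ 𝓕.Ws := filter_subset _ _
  have hRs : R ⊆ 𝓕.Ws := filter_subset _ _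
  have hT₂s : T₂ ⊆ 𝓕.Ws := (filter_subset _ _).trans hRs
  have hT₀s : T₀ ⊆ 𝓕.Ws := (filter_subset _ _).trans hRs
  have hT₁c : ∀ W ∈ T₁, 𝓕.c W = 1 := fun W hW => (mem_filter.1 hW).2
  have hT₂c : ∀ W ∈ T₂, 𝓕.c W = 2 ∧ 𝓕.d W = 2 := fun W hW => (mem_filter.1 hW).2
  have hsplit : ((∑ W ∈ 𝓕.Ws, cnt M (𝓕.rep W) : ℕ) : ℝ) =
      ((∑ W ∈ T₁, cnt M (𝓕.rep W) : ℕ) : ℝ) + (((∑ W ∈ T₂, cnt M (𝓕.rep W) : ℕ) : ℝ) +
        ((∑ W ∈ T₀, cnt M (𝓕.rep W) : ℕ) : ℝ)) := by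
    rw [← Nat.cast_add, ← Nat.cast_add, hT₂, hT₀, sum_filter_add_sum_filter_not, hT₁, hR,
      sum_filter_add_sum_filter_not]
  have s0 : ((∑ W ∈ T₀, cnt M (𝓕.rep W) : ℕ) : ℝ) ≤ 2 ^ g * (ε * 0.003) := by
    refine hg₀ E φ₀ M g 𝓕 hg hgg₀ T₀ hT₀s fun W hW => ?_
    have h1 := (mem_filter.1 hW).2
    have h2 := (mem_filter.1 (mem_filter.1 hW).1).2
    have h4 := (𝓕.est W (hT₀s hW)).c1
    rcases Nat.lt_or_ge (𝓕.c W) 3 with h5 | h5
    · right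
      have h6 : 𝓕.c W = 2 := by omega
      have h7 := (𝓕.est W (hT₀s hW)).d2 h6
      refine ⟨h6, ?_⟩
      by_contra h8
      exact h1 ⟨h6, by omega⟩
    · exact Or.inl h5
  have s1 : ((∑ W ∈ T₁, cnt M (𝓕.rep W) : ℕ) : ℝ) ≤ 2 ^ g * (ε * 0.003) := by
    rcases hcond1 with h1 | h1 | h1
    · exact hg₁ E φ₀ M g 𝓕 hg hgg₁ h1 T₁ hT₁s hT₁c
    · exact hg₂ E φ₀ M g 𝓕 hg hgg₂ T₁ hT₁s hT₁c (one_smooth κ n hIDX 𝓕 hg h1 T₁ hT₁s hT₁c)
    · exact hg₂ E φ₀ M g 𝓕 hg hgg₂ T₁ hT₁s hT₁c (one_normal κ n hNORMAL 𝓕 h1 T₁ hT₁s hT₁c)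
  have hcard : ((T₂.card : ℝ)) * 2 ≤ q := by
    have h1 := card_two hIDX hTWO 𝓕 hg hcond2 T₂ hT₂s hT₂c
    have h2 : (2 : ℝ) * T₂.card ≤ q := by exact_mod_cast h1
    linarith
  have s2 : ((∑ W ∈ T₂, cnt M (𝓕.rep W) : ℕ) : ℝ) ≤ 2 ^ g * (0.6755 * (q / g)) := by
    have hone : ∀ W ∈ T₂, (cnt M (𝓕.rep W) : ℝ) ≤ 2 ^ g * (1.351 / g) := by
      intro W hW
      have hE := 𝓕.est W (hT₂s hW)
      exact Est.explicit hn0 hMn hMc hg (𝓕.hrep W (hT₂s hW)) hE (hT₂c W hW).2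
        (hE.twod hTWO (hT₂c W hW).1 (hT₂c W hW).2)
    rw [Nat.cast_sum]
    refine (sum_le_sum hone).trans ?_
    rw [sum_const, nsmul_eq_mul]
    calc (T₂.card : ℝ) * (2 ^ g * (1.351 / g)) = 2 ^ g * (1.351 / 2 * (T₂.card * 2) / g) := by
          ring
      _ ≤ 2 ^ g * (1.351 / 2 * q / g) := by gcongr
      _ = 2 ^ g * (0.6755 * (q / g)) := by ring
  have htot : ((degTypes M).ncard : ℝ) ≤ ((∑ W ∈ 𝓕.Ws, cnt M (𝓕.rep W) : ℕ) : ℝ) := by
    exact_mod_cast 𝓕.tot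
  rw [hsplit] at htot
  have hfin : 0.6755 * ((q : ℝ) / g) + 0.006 * ε ≤ max ε (17 / 25 * q / g) := by
    have h1 : (17 / 25 * q / g : ℝ) = 17 / 25 * (q / g) := by ring
    rw [h1]
    rcases le_total (17 / 25 * ((q : ℝ) / g)) ε with h2 | h2
    · refine le_trans ?_ (le_max_left _ _)
      linarith
    · refine le_trans ?_ (le_max_right _ _)
      linarith
  calc ((degTypes M).ncard : ℝ) ≤ _ := htot
    _ ≤ 2 ^ g * (ε * 0.003) + (2 ^ g * (0.6755 * (q / g)) + 2 ^ g * (ε * 0.003)) :=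
      add_le_add s1 (add_le_add s2 s0)
    _ = 2 ^ g * (0.6755 * ((q : ℝ) / g) + 0.006 * ε) := by ring
    _ ≤ _ := mul_le_mul_of_nonneg_left hfin (by positivity)

end Pool.Agent.Q29.TE
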