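import Mathlib
import Pool.Agent.Q29.TE.Law2
import Pool.Agent.Q29.TE.Most
import Pool.Agent.Q29.EP.Proportion

/-!
# The law for most types of all CM fields with small normal subfields, and for at least one half of
all types of all CM fields of degree `2 g`, `g` odd
-/

set_option autoImplicit false
set_option linter.unusedSectionVars false

namespace Pool.Agent.Q29.TE

open NumberField Module MulAction Finset Pool.Agent.H204R3.CM Pool.Agent.H977R3.CM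
  Pool.Agent.TH170.CM Pool.Agent.TH170.FW Pool.Agent.Y1.KN Pool.Agent.Q29.DP Pool.Agent.Q29.OS

/-- The bound for one field. -/
theorem most_holds (n : ℕ) (hn0 : n ≠ 0) {ε : ℝ} (hε : 0 < ε) :
    ∃ u : ℕ, ∀ (E : Type) [Field E] [NumberField E] [IsCMField E]
      (M : (E →+* ℂ) → ℤ) (g q : ℕ),
      (∀ φ, M φ ∣ (n : ℤ)) → (∀ φ, M (ComplexEmbedding.conjugate φ) = M φ) →
      finrank ℚ E = 2 * g → u ≤ g → SmallNormal E g → SmallPart E g q →
      ((degTypes M).ncard : ℝ) ≤ 2 ^ g * max ε (17 / 25 * q / g) := by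
  obtain ⟨κ⟩ := exists_consts Q204.TE.t_NUM
  exact most_aux Q227.TE.t_EH Q24.TE.t_REL Q204.TE.t_FS idx Q38.TE.t_NORMAL Q275.TE.t_TWO
    small_holds Q275.TE.t_LIM κ n hn0 hε

/-- A property which holds for all families of types without relations. -/
theorem fam_most (n : ℕ) (hn0 : n ≠ 0) {ε : ℝ} (hε : 0 < ε) (hε1 : ε ≤ 1) : ∃ u : ℕ,
    ∀ (ι : Type) [Fintype ι] (E : ι → Type)
    [∀ i, Field (E i)] [∀ i, NumberField (E i)] [∀ i, IsCMField (E i)]
    (M : ∀ i, (E i →+* ℂ) → ℤ) (g q : ι → ℕ) (P : (∀ i, Set (E i →+* ℂ)) → Prop),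
    (∀ i φ, M i (ComplexEmbedding.conjugate φ) = M i φ) →
    (∀ i φ, M i φ ∣ (n : ℤ)) → (∀ i, finrank ℚ (E i) = 2 * g i) →
    (∀ i, u ≤ g i ∧ q i ≤ g i ∧ SmallNormal (E i) (g i) ∧ SmallPart (E i) (g i) (q i)) →
    (∀ Φ : ∀ i, Set (E i →+* ℂ), (∀ i, IsCMType (Φ i)) →
      (∀ i, NoRelations (M i) (Φ i)) → P Φ) →
    (∏ i, (1 - max ε (17 / 25 * q i / g i))) * 2 ^ (∑ i, g i) ≤
      (({Φ : ∀ i, Set (E i →+* ℂ) | (∀ i, IsCMType (Φ i)) ∧ P Φ}.ncard : ℕ) : ℝ) := by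
  obtain ⟨u, hu⟩ := most_holds n hn0 hε
  refine ⟨u, ?_⟩
  intro ι _ E _ _ _ M g q P hMc hMn hg hu0 hP
  refine le_trans ?_ (Nat.cast_le.2 (prod_le_fam hP))
  rw [Nat.cast_prod]
  calc (∏ i, (1 - max ε (17 / 25 * q i / g i))) * 2 ^ (∑ i, g i) =
      ∏ i, (1 - max ε (17 / 25 * q i / g i)) * 2 ^ g i := by
        rw [prod_mul_distrib, prod_pow_eq_pow_sum]
    _ ≤ _ := prod_le_prod (fun i _ => mul_nonneg (sub_nonneg.2 (max_le hε1 ?_)) (by positivity))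
      fun i _ => noRelations_ge (hg i) (hu (E i) (M i) (g i) (q i) (hMn i) (hMc i) (hg i)
        (hu0 i).1 (hu0 i).2.2.1 (hu0 i).2.2.2)
  have hg0 : 0 < g i := by
    have := Module.finrank_pos (R := ℚ) (M := E i)
    have := hg i
    omega
  have hgR : (0 : ℝ) < g i := by exact_mod_cast hg0
  rw [div_le_one hgR]
  have h1 : (q i : ℝ) ≤ g i := by exact_mod_cast (hu0 i).2.1
  linarith

/-- The power of a prime number that divides all weights. -/
theorem exists_factor {E : Type} [Field E] [NumberField E] {M : (E →+* ℂ) → ℤ}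
    (hM0 : ∀ φ, M φ ≠ 0) (hMc : ∀ φ, M (ComplexEmbedding.conjugate φ) = M φ) {p : ℕ}
    (hp : p.Prime) : ∃ (d : ℤ) (M' : (E →+* ℂ) → ℤ), d ≠ 0 ∧ M = (fun φ => d * M' φ) ∧
      (∀ φ, M' (ComplexEmbedding.conjugate φ) = M' φ) ∧ ∃ φ, ¬ (p : ℤ) ∣ M' φ := by
  classical
  obtain ⟨φ₀, hφ₀⟩ := Finite.exists_min (fun φ : E →+* ℂ => (M φ).natAbs.factorization p)
  set v := (M φ₀).natAbs.factorization p with hv
  have hpv : ((p : ℤ) ^ v) ≠ 0 := pow_ne_zero _ (by exact_mod_cast hp.ne_zero)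
  have hdvd : ∀ φ, (p : ℤ) ^ v ∣ M φ := by
    intro φ
    have h1 : p ^ v ∣ (M φ).natAbs :=
      (pow_dvd_pow p (hφ₀ φ)).trans (Nat.ordProj_dvd _ _)
    have h2 := Int.natCast_dvd.2 h1
    exact_mod_cast h2
  refine ⟨(p : ℤ) ^ v, fun φ => M φ / (p : ℤ) ^ v, hpv, ?_,
    fun φ => by simp only [hMc], φ₀, ?_⟩
  · funext φ
    exact (Int.mul_ediv_cancel' (hdvd φ)).symm
  · intro h1
    obtain ⟨a, ha⟩ := h1
    have h2 : M φ₀ = (p : ℤ) ^ v * (p * a) := by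
      rw [← ha, Int.mul_ediv_cancel' (hdvd φ₀)]
    have h3 : p ^ (v + 1) ∣ (M φ₀).natAbs := by
      rw [h2, pow_succ, Int.natAbs_mul, Int.natAbs_mul, Int.natAbs_pow, Int.natAbs_natCast]
      exact mul_dvd_mul_left _ (Dvd.intro _ rfl)
    have h4 : (M φ₀).natAbs ≠ 0 := Int.natAbs_ne_zero.2 (hM0 φ₀)
    have h5 := (hp.pow_dvd_iff_le_factorization h4).1 h3
    omega

/-- **Odd degrees**, for one field. -/
theorem odd_holds (n : ℕ) (hn0 : n ≠ 0) :
    ∃ u : ℕ, ∀ (E : Type) [Field E] [NumberField E] [IsCMField E]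
      (M : (E →+* ℂ) → ℤ) (g : ℕ),
      (∀ φ, M φ ∣ (n : ℤ)) → (∀ φ, M (ComplexEmbedding.conjugate φ) = M φ) →
      finrank ℚ E = 2 * g → u ≤ g → Odd g →
      (1 / 2 : ℝ) * 2 ^ g ≤
        (({Φ : Set (E →+* ℂ) | IsCMType Φ ∧ NoRelations M Φ}.ncard : ℕ) : ℝ) ∧
      ((∀ φ, M φ = 1) → (2 / 3 : ℝ) * 2 ^ g ≤
        (({Φ : Set (E →+* ℂ) | IsCMType Φ ∧ NoRelations M Φ}.ncard : ℕ) : ℝ)) := by
  classical
  obtain ⟨u, hu⟩ := most_holds n hn0 (ε := 1 / 3) (by norm_num)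
  refine ⟨u, ?_⟩
  intro E _ _ _ M g hMn hMc hg hgu hodd
  have hg0 : g ≠ 0 := by
    have := Module.finrank_pos (R := ℚ) (M := E)
    omega
  have hpow : (0 : ℝ) < 2 ^ g := by positivity
  obtain ⟨b, t, ht3, hgt⟩ := Nat.exists_eq_pow_mul_and_not_dvd hg0 3 (by norm_num)
  by_cases ht1 : t = 1
  · -- a power of three
    rw [ht1, mul_one] at hgt
    have hdeg : finrank ℚ E = 2 * 3 ^ b := by rw [hg, hgt]
    constructor
    · have hM0 : ∀ φ, M φ ≠ 0 := by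
        intro φ h0
        have h1 := hMn φ
        rw [h0, zero_dvd_iff] at h1
        exact hn0 (by exact_mod_cast h1)
      obtain ⟨d, M', hd, hM, hMc', φ₀, hφ₀⟩ := exists_factor hM0 hMc Nat.prime_three
      have h1 := Pool.Agent.Q29.EP.half_noRelations (E := E) (M := M') (g := g) hMc' hg
        ⟨3, b, Nat.prime_three, hdeg, ⟨φ₀, hφ₀⟩, fun h2 => by omega⟩
      have h2 : {Φ : Set (E →+* ℂ) | IsCMType Φ ∧ NoRelations M' Φ} ⊆
          {Φ : Set (E →+* ℂ) | IsCMType Φ ∧ NoRelations M Φ} := by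
        rintro Φ ⟨h3, h4⟩
        refine ⟨h3, ?_⟩
        rw [hM]
        exact h4.mul hd
      have h3 := h1.trans (Nat.mul_le_mul_left 2 (Set.ncard_le_ncard h2 (Set.toFinite _)))
      have h4 : (2 : ℝ) ^ g ≤ 2 *
          (({Φ : Set (E →+* ℂ) | IsCMType Φ ∧ NoRelations M Φ}.ncard : ℕ) : ℝ) := by
        exact_mod_cast h3
      linarith
    · intro hM1
      have h1 := Pool.Agent.Q29.EP.proportion (E := E) Nat.prime_three hdeg (fun h => by omega)
      have h2 : M = fun _ => 1 := funext hM1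
      rw [h2, hgt]
      refine le_trans (le_of_eq ?_) h1
      norm_num
  · -- a prime factor larger than three
    have hto : Odd t := by
      rw [hgt] at hodd
      exact (Nat.odd_mul.1 hodd).2
    have ht5 : 5 ≤ t := by
      by_contra h
      interval_cases t
      · exact ht3 (dvd_zero 3)
      · exact ht1 rfl
      · exact (Nat.not_odd_iff_even.2 (by decide)) hto
      · exact ht3 (dvd_refl 3)
      · exact (Nat.not_odd_iff_even.2 (by decide)) hto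
    have hsmall : SmallPart E g (3 ^ b) := by
      left
      intro a c hac
      have ha : a = 0 := by
        by_contra ha
        have h1 : 2 ∣ g := ((dvd_pow_self 2 ha).trans (Dvd.intro _ rfl)).trans hac
        exact (Nat.not_even_iff_odd.2 hodd) (even_iff_two_dvd.2 h1)
      rw [ha, pow_zero, one_mul] at hac ⊢
      rw [hgt] at hac
      have h1 : (3 ^ c).Coprime t := (Nat.Coprime.pow_left c
        ((Nat.Prime.coprime_iff_not_dvd Nat.prime_three).2 ht3))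
      exact Nat.le_of_dvd (by positivity) (h1.dvd_of_dvd_mul_right hac)
    have h1 := hu E M g (3 ^ b) hMn hMc hg hgu (Or.inl hodd) hsmall
    have hq : (17 / 25 * ((3 ^ b : ℕ) : ℝ) / g) ≤ 1 / 3 := by
      have hgR : (0 : ℝ) < g := by exact_mod_cast Nat.pos_of_ne_zero hg0
      rw [div_le_iff₀ hgR]
      have h2 : ((3 ^ b : ℕ) : ℝ) * 5 ≤ g := by
        have h3 : 3 ^ b * 5 ≤ g := by
          rw [hgt]
          exact Nat.mul_le_mul_left _ ht5
        exact_mod_cast h3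
      linarith
    rw [max_eq_left hq] at h1
    have h2 := noRelations_ge hg h1
    constructor
    · refine le_trans ?_ h2
      nlinarith
    · intro _
      refine le_trans ?_ h2
      nlinarith

/-- The same for families. -/
theorem fam_odd (n : ℕ) (hn0 : n ≠ 0) : ∃ u : ℕ,
    ∀ (ι : Type) [Fintype ι] (E : ι → Type)
    [∀ i, Field (E i)] [∀ i, NumberField (E i)] [∀ i, IsCMField (E i)]
    (M : ∀ i, (E i →+* ℂ) → ℤ) (g : ι → ℕ) (P : (∀ i, Set (E i →+* ℂ)) → Prop),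
    (∀ i φ, M i (ComplexEmbedding.conjugate φ) = M i φ) →
    (∀ i φ, M i φ ∣ (n : ℤ)) → (∀ i, finrank ℚ (E i) = 2 * g i) →
    (∀ i, u ≤ g i ∧ Odd (g i)) →
    (∀ Φ : ∀ i, Set (E i →+* ℂ), (∀ i, IsCMType (Φ i)) →
      (∀ i, NoRelations (M i) (Φ i)) → P Φ) →
    (1 / 2 : ℝ) ^ Fintype.card ι * 2 ^ (∑ i, g i) ≤
      (({Φ : ∀ i, Set (E i →+* ℂ) | (∀ i, IsCMType (Φ i)) ∧ P Φ}.ncard : ℕ) : ℝ) ∧
    ((∀ i φ, M i φ = 1) → (2 / 3 : ℝ) ^ Fintype.card ι * 2 ^ (∑ i, g i) ≤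
      (({Φ : ∀ i, Set (E i →+* ℂ) | (∀ i, IsCMType (Φ i)) ∧ P Φ}.ncard : ℕ) : ℝ)) := by
  obtain ⟨u, hu⟩ := odd_holds n hn0
  refine ⟨u, ?_⟩
  intro ι _ E _ _ _ M g P hMc hMn hg hu0 hP
  have h1 : ∀ (r : ℝ), 0 ≤ r → (∀ i, r * 2 ^ g i ≤
      (({Φ : Set (E i →+* ℂ) | IsCMType Φ ∧ NoRelations (M i) Φ}.ncard : ℕ) : ℝ)) →
      r ^ Fintype.card ι * 2 ^ (∑ i, g i) ≤
      (({Φ : ∀ i, Set (E i →+* ℂ) | (∀ i, IsCMType (Φ i)) ∧ P Φ}.ncard : ℕ) : ℝ) := by
    intro r hr h2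
    refine le_trans ?_ (Nat.cast_le.2 (prod_le_fam hP))
    rw [Nat.cast_prod]
    calc r ^ Fintype.card ι * 2 ^ (∑ i, g i) = ∏ i, r * 2 ^ g i := by
          rw [prod_mul_distrib, prod_const, card_univ, prod_pow_eq_pow_sum]
      _ ≤ _ := prod_le_prod (fun i _ => by positivity) fun i _ => h2 i
  constructor
  · exact h1 _ (by norm_num) fun i =>
      (hu (E i) (M i) (g i) (hMn i) (hMc i) (hg i) (hu0 i).1 (hu0 i).2).1
  · intro hM1
    exact h1 _ (by norm_num) fun i =>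
      (hu (E i) (M i) (g i) (hMn i) (hMc i) (hg i) (hu0 i).1 (hu0 i).2).2 (hM1 i)

variable {Q : TypeProperty} (h : WithoutRelations Q)

include h

theorem mostTypes : MostTypes Q := by
  intro n ε hn hε hε1
  obtain ⟨u, h1⟩ := fam_most n hn hε hε1
  refine ⟨u, ?_⟩
  intro p _ ν I _ K _ _ _ M g q hind hMc hMn hg hu
  exact h1 I K M g q _ hMc hMn hg hu fun Φ hΦ hno => h p ν I K M Φ hind hMc hΦ hno

theorem oddDegrees : OddDegrees Q := by
  intro n hn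
  obtain ⟨u, h1⟩ := fam_odd n hn
  refine ⟨u, ?_⟩
  intro p _ ν I _ K _ _ _ M g hind hMc hMn hg hu
  exact h1 I K M g _ hMc hMn hg hu fun Φ hΦ hno => h p ν I K M Φ hind hMc hΦ hno

end Pool.Agent.Q29.TE
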