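import Mathlib
import Pool.Agent.H204R3.GP.MTDefs

/-!
# The motivic Tate conjecture for the first cohomology group of an abelian variety

`W = H_1(A, ℚ)`, `T` is the tangent space at the origin, `V` the rational Tate module, `comp : W → V`
the comparison map, `ρ` the action of the Galois group `Γ` of the base field and `χ` the cyclotomic
character.
-/

set_option autoImplicit false

namespace Pool.Agent.Q29.TE

open Pool.Agent.H204R3.GP

variable {k V Γ : Type} [Field k] [CharZero k] [AddCommGroup V] [Module k V] [Group Γ]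
  {W T : Type} [AddCommGroup W] [Module ℚ W] [AddCommGroup T] [Module ℂ T]

/-- The multilinear form `φ` on `V` in `2 m` variables, as an element of `(H^1 ^ {⊗ 2 m}) (m)`, is
fixed by the subgroup `Δ` of the Galois group. -/
def FixedBy (ρ : Representation k Γ V) (χ : Γ →* k) (Δ : Subgroup Γ) {m : ℕ}
    (φ : MultilinearMap k (fun _ : Fin m × Fin 2 => V) k) : Prop :=
  ∀ s ∈ Δ, ∀ v : Fin m × Fin 2 → V, φ (fun l => ρ s (v l)) = χ s ^ m * φ v

/-- The Galois group acts on the Hodge classes of degree two (which are rational combinations of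
classes of divisors on powers of `A`) through a finite quotient, and `V = W ⊗ k`. -/
structure ActsOnHodgeClasses (per : W →+ T) (comp : W →+ V) (ρ : Representation k Γ V)
    (χ : Γ →* k) : Prop where
  span : Submodule.span k (Set.range comp) = ⊤
  acts : ∀ B : W →ₗ[ℚ] W →ₗ[ℚ] ℚ, IsHodgeBilinear per B → ∃ β : V →ₗ[k] V →ₗ[k] k,
    (∀ x y, β (comp x) (comp y) = ((B x y : ℚ) : k)) ∧
    (∃ Δ : Subgroup Γ, Δ.FiniteIndex ∧ ∀ s ∈ Δ, ∀ u v, β (ρ s u) (ρ s v) = χ s * β u v) ∧
    ∀ s, ∃ B' : W →ₗ[ℚ] W →ₗ[ℚ] ℚ, IsHodgeBilinear per B' ∧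
      ∀ x y, β (ρ s (comp x)) (ρ s (comp y)) = χ s * ((B' x y : ℚ) : k)

/-- The motivic Tate conjecture for the motive `h^1(A)` over all finite extensions of the base
field: for every subgroup `Δ` of finite index of the Galois group, all tensors which are fixed by `Δ`
are linear combinations of rational classes which are fixed by `Δ` and which are rational
combinations of Hodge classes, and even of products of Hodge classes of degree two. -/
def MotivicTate (per : W →+ T) (comp : W →+ V) (ρ : Representation k Γ V) (χ : Γ →* k) : Prop :=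
  ∀ Δ : Subgroup Γ, Δ.FiniteIndex →
    ∀ (m : ℕ) (φ : MultilinearMap k (fun _ : Fin m × Fin 2 => V) k), FixedBy ρ χ Δ φ →
      φ ∈ Submodule.span k {φ' : MultilinearMap k (fun _ : Fin m × Fin 2 => V) k |
        FixedBy ρ χ Δ φ' ∧ ∃ ψ ∈ Submodule.span ℚ
          {ψ : MultilinearMap ℚ (fun _ : Fin m × Fin 2 => W) ℚ | IsHodgeTensor per ψ ∧
            IsProductOfHodgeBilinear per ψ}, Compares comp φ' ψ}

end Pool.Agent.Q29.TE
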