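import Mathlib
import Pool.Agent.Q29.TE.MotivicDefs
import Pool.Agent.H204R3.GP.MT

/-!
# From Tate classes to classes over the base field
-/

set_option autoImplicit false
set_option linter.unusedSectionVars false

namespace Pool.Agent.Q29.TE

open Pool.Agent.H204R3.GP Module

noncomputable section

variable {k V Γ : Type} [Field k] [CharZero k] [AddCommGroup V] [Module k V] [Group Γ]
  {W T : Type} [AddCommGroup W] [Module ℚ W] [AddCommGroup T] [Module ℂ T]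

/-- The action of the Galois group on the tensors. -/
def tact (ρ : Representation k Γ V) (χ : Γ →* k) {m : ℕ} (s : Γ) :
    MultilinearMap k (fun _ : Fin m × Fin 2 => V) k →ₗ[k]
      MultilinearMap k (fun _ : Fin m × Fin 2 => V) k where
  toFun φ := χ s ^ m • φ.compLinearMap fun _ => ρ s⁻¹
  map_add' φ ψ := by
    ext v
    simp [mul_add]
  map_smul' c φ := by
    ext v
    simp only [_root_.smul_apply, MultilinearMap.compLinearMap_apply, smul_eq_mul,
      RingHom.id_apply]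
    ring

theorem tact_apply (ρ : Representation k Γ V) (χ : Γ →* k) {m : ℕ} (s : Γ)
    (φ : MultilinearMap k (fun _ : Fin m × Fin 2 => V) k) (v : Fin m × Fin 2 → V) :
    tact ρ χ s φ v = χ s ^ m * φ fun l => ρ s⁻¹ (v l) := rfl

theorem tact_mul (ρ : Representation k Γ V) (χ : Γ →* k) {m : ℕ} (s t : Γ)
    (φ : MultilinearMap k (fun _ : Fin m × Fin 2 => V) k) :
    tact ρ χ (s * t) φ = tact ρ χ s (tact ρ χ t φ) := by
  ext v
  rw [tact_apply, tact_apply, tact_apply, map_mul, mul_pow, mul_assoc, mul_inv_rev, map_mul]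
  rfl

theorem fixedBy_iff (ρ : Representation k Γ V) (χ : Γ →* k) (Δ : Subgroup Γ) {m : ℕ}
    (φ : MultilinearMap k (fun _ : Fin m × Fin 2 => V) k) :
    FixedBy ρ χ Δ φ ↔ ∀ s ∈ Δ, tact ρ χ s φ = φ := by
  constructor
  · intro h s hs
    ext v
    rw [tact_apply, ← h s hs]
    congr 1
    ext l
    change (ρ s * ρ s⁻¹) (v l) = v l
    rw [← map_mul, mul_inv_cancel, map_one]
    rfl
  · intro h s hs v
    have h1 := congrArg (fun F => F fun l => ρ s (v l)) (h s hs)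
    simp only [tact_apply] at h1
    rw [← h1]
    congr 2
    ext l
    change (ρ s⁻¹ * ρ s) (v l) = v l
    rw [← map_mul, inv_mul_cancel, map_one]
    rfl

theorem tact_congr (ρ : Representation k Γ V) (χ : Γ →* k) {Δ : Subgroup Γ} {m : ℕ}
    {φ : MultilinearMap k (fun _ : Fin m × Fin 2 => V) k} (hφ : FixedBy ρ χ Δ φ) {s t : Γ}
    (h : s⁻¹ * t ∈ Δ) : tact ρ χ s φ = tact ρ χ t φ := by
  have h1 : t = s * (s⁻¹ * t) := by group
  rw [h1, tact_mul, (fixedBy_iff ρ χ Δ φ).1 hφ _ h]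

/-- The representatives in `Δ` of the cosets of `Δ'`. -/
def reps (Δ Δ' : Subgroup Γ) [Δ'.FiniteIndex] : Finset (Γ ⧸ Δ') := by
  classical
  letI := Subgroup.fintypeQuotientOfFiniteIndex (H := Δ')
  exact Finset.univ.filter (fun q : Γ ⧸ Δ' => q.out ∈ Δ)

theorem mem_reps (Δ Δ' : Subgroup Γ) [Δ'.FiniteIndex] (q : Γ ⧸ Δ') :
    q ∈ reps Δ Δ' ↔ q.out ∈ Δ := by
  classical
  simp [reps]

theorem one_mem_reps {Δ Δ' : Subgroup Γ} [Δ'.FiniteIndex] (h : Δ' ≤ Δ) :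
    ((1 : Γ) : Γ ⧸ Δ') ∈ reps Δ Δ' := by
  rw [mem_reps]
  apply h
  have h1 : (((1 : Γ) : Γ ⧸ Δ').out : Γ ⧸ Δ') = ((1 : Γ) : Γ ⧸ Δ') := Quotient.out_eq' _
  rw [QuotientGroup.eq, mul_one] at h1
  exact (Subgroup.inv_mem_iff _).1 h1

theorem out_smul (Δ' : Subgroup Γ) (s : Γ) (q : Γ ⧸ Δ') :
    (s * q.out)⁻¹ * (s • q).out ∈ Δ' := by
  rw [← QuotientGroup.eq]
  have h1 : ((s • q).out : Γ ⧸ Δ') = s • q := Quotient.out_eq' _
  have h2 : ((s * q.out : Γ) : Γ ⧸ Δ') = s • ((q.out : Γ) : Γ ⧸ Δ') := rfl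
  have h3 : ((q.out : Γ) : Γ ⧸ Δ') = q := Quotient.out_eq' _
  rw [h1, h2, h3]

/-- The sum over the conjugates. -/
def tsum (ρ : Representation k Γ V) (χ : Γ →* k) (Δ Δ' : Subgroup Γ) [Δ'.FiniteIndex] {m : ℕ} :
    MultilinearMap k (fun _ : Fin m × Fin 2 => V) k →ₗ[k]
      MultilinearMap k (fun _ : Fin m × Fin 2 => V) k :=
  ∑ q ∈ reps Δ Δ', tact ρ χ q.out

theorem tsum_eq (ρ : Representation k Γ V) (χ : Γ →* k) (Δ Δ' : Subgroup Γ) [Δ'.FiniteIndex]
    {m : ℕ} (φ : MultilinearMap k (fun _ : Fin m × Fin 2 => V) k) :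
    tsum ρ χ Δ Δ' φ = ∑ q ∈ reps Δ Δ', tact ρ χ q.out φ := by
  rw [tsum, LinearMap.sum_apply]

theorem tsum_fixed (ρ : Representation k Γ V) (χ : Γ →* k) {Δ Δ' : Subgroup Γ} [Δ'.FiniteIndex]
    (hle : Δ' ≤ Δ) {m : ℕ} {φ : MultilinearMap k (fun _ : Fin m × Fin 2 => V) k}
    (hφ : FixedBy ρ χ Δ' φ) : FixedBy ρ χ Δ (tsum ρ χ Δ Δ' φ) := by
  rw [fixedBy_iff]
  intro s hs
  rw [tsum_eq, map_sum]
  refine Finset.sum_bij (fun q _ => s • q) ?_ ?_ ?_ ?_
  · intro q hq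
    rw [mem_reps] at hq ⊢
    have h1 := hle (out_smul Δ' s q)
    have h2 := Δ.mul_mem (Δ.mul_mem hs hq) h1
    rwa [mul_inv_cancel_left] at h2
  · intro q _ q' _ h
    exact smul_left_cancel s h
  · intro q hq
    refine ⟨s⁻¹ • q, ?_, by rw [smul_inv_smul]⟩
    rw [mem_reps] at hq ⊢
    have h1 := hle (out_smul Δ' s⁻¹ q)
    have h2 := Δ.mul_mem (Δ.mul_mem (Δ.inv_mem hs) hq) h1
    rwa [mul_inv_cancel_left] at h2
  · intro q _
    rw [← tact_mul]
    exact tact_congr ρ χ hφ (out_smul Δ' s q)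

theorem tsum_of_fixed (ρ : Representation k Γ V) (χ : Γ →* k) {Δ Δ' : Subgroup Γ} [Δ'.FiniteIndex]
    {m : ℕ} {φ : MultilinearMap k (fun _ : Fin m × Fin 2 => V) k}
    (hφ : FixedBy ρ χ Δ φ) : tsum ρ χ Δ Δ' φ = ((reps Δ Δ').card : k) • φ := by
  rw [tsum_eq, Finset.sum_congr rfl (g := fun _ => φ), Finset.sum_const, Nat.cast_smul_eq_nsmul]
  intro q hq
  exact (fixedBy_iff ρ χ Δ φ).1 hφ _ ((mem_reps Δ Δ' q).1 hq)

/-- Multilinear forms which agree on the image of `W` are equal. -/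
theorem ext_comp [FiniteDimensional k V] {comp : W →+ V}
    (hspan : Submodule.span k (Set.range comp) = ⊤) {κ : Type} [Finite κ]
    {φ ψ : MultilinearMap k (fun _ : κ => V) k}
    (h : ∀ v : κ → W, φ (fun l => comp (v l)) = ψ fun l => comp (v l)) : φ = ψ := by
  classical
  obtain ⟨b, hb1, hb2, hb3⟩ := exists_linearIndependent k (Set.range comp)
  have hb4 : ⊤ ≤ Submodule.span k (Set.range ((↑) : b → V)) := by
    rw [Subtype.range_coe, hb2, hspan]
  let B : Basis b k V := Basis.mk hb3 hb4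
  refine Basis.ext_multilinear (fun _ => B) fun w => ?_
  have h1 : ∀ l, ∃ x, comp x = (w l : V) := fun l => hb1 (w l).2
  choose x hx using h1
  have h2 : (fun l => B (w l)) = fun l => comp (x l) := by
    ext l
    rw [hx, Basis.mk_apply]
  rw [h2]
  exact h x

/-- The forms over `ℚ_ℓ` given by products of Hodge classes of degree two. -/
theorem good_sum [FiniteDimensional k V] {per : W →+ T} {comp : W →+ V}
    {ρ : Representation k Γ V} {χ : Γ →* k} (hact : ActsOnHodgeClasses per comp ρ χ)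
    (Δ : Subgroup Γ) (hΔ : Δ.FiniteIndex) {m : ℕ}
    {φ : MultilinearMap k (fun _ : Fin m × Fin 2 => V) k}
    {ψ : MultilinearMap ℚ (fun _ : Fin m × Fin 2 => W) ℚ}
    (hψ : IsProductOfHodgeBilinear per ψ) (hc : Compares comp φ ψ) :
    ∃ Δ' : Subgroup Γ, Δ'.FiniteIndex ∧ Δ' ≤ Δ ∧ ∀ (Δ'' : Subgroup Γ) [Δ''.FiniteIndex],
      Δ'' ≤ Δ' → FixedBy ρ χ Δ (tsum ρ χ Δ Δ'' φ) ∧ ∃ ψ' ∈ Submodule.span ℚ
          {ψ : MultilinearMap ℚ (fun _ : Fin m × Fin 2 => W) ℚ | IsHodgeTensor per ψ ∧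
            IsProductOfHodgeBilinear per ψ}, Compares comp (tsum ρ χ Δ Δ'' φ) ψ' := by
  classical
  obtain ⟨σ, B, hB, hψB⟩ := hψ
  choose β hβ1 hβ2 hβ3 using fun l => hact.acts (B l) (hB l)
  choose D hD1 hD2 using hβ2
  have hφ : φ = mmG σ β := by
    refine ext_comp hact.span fun v => ?_
    rw [hc v, hψB, mmG_apply]
    push_cast
    exact Finset.prod_congr rfl fun l _ => (hβ1 l _ _).symm
  have hfix : FixedBy ρ χ (⨅ l, D l) φ := by
    intro s hs v
    rw [hφ, mmG_apply, mmG_apply]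
    have h1 : ∀ l, β l (ρ s (v (σ (l, 0)))) (ρ s (v (σ (l, 1)))) =
        χ s * β l (v (σ (l, 0))) (v (σ (l, 1))) := fun l =>
      hD2 l s ((Subgroup.mem_iInf.1 hs) l) _ _
    rw [Finset.prod_congr rfl fun l _ => h1 l, Finset.prod_mul_distrib, Finset.prod_const,
      Finset.card_univ, Fintype.card_fin]
  refine ⟨Δ ⊓ ⨅ l, D l, ?_, inf_le_left, ?_⟩
  · haveI := Subgroup.finiteIndex_iInf hD1
    infer_instance
  · intro Δ'' _ hle
    have hfix' : FixedBy ρ χ Δ'' φ := fun s hs v => hfix s (hle hs).2 v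
    refine ⟨tsum_fixed ρ χ (hle.trans inf_le_left) hfix', ?_⟩
    have h1 : ∀ s : Γ, ∃ B' : Fin m → (W →ₗ[ℚ] W →ₗ[ℚ] ℚ), (∀ l, IsHodgeBilinear per (B' l)) ∧
        Compares comp (tact ρ χ s φ) (mmG σ B') := by
      intro s
      choose B' hB'1 hB'2 using fun l => hβ3 l s⁻¹
      refine ⟨B', hB'1, fun v => ?_⟩
      rw [tact_apply, hφ, mmG_apply, mmG_apply,
        Finset.prod_congr rfl fun l _ => hB'2 l (v (σ (l, 0))) (v (σ (l, 1))),
        Finset.prod_mul_distrib, Finset.prod_const, Finset.card_univ, Fintype.card_fin,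
        ← mul_assoc, ← mul_pow, ← map_mul, mul_inv_cancel, map_one, one_pow, one_mul]
      push_cast
      rfl
    choose B' hB'1 hB'2 using h1
    refine ⟨∑ q ∈ reps Δ Δ'', mmG σ (B' q.out), Submodule.sum_mem _ fun q _ =>
      Submodule.subset_span ?_, fun v => ?_⟩
    · choose E hE1 hE2 using hB'1 q.out
      refine ⟨⟨mmG σ E, ?_, ?_⟩, σ, B' q.out, hB'1 q.out, fun v => rfl⟩
      · intro v
        rw [mmG_apply, mmG_apply]
        push_cast
        exact Finset.prod_congr rfl fun l _ => hE1 l _ _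
      · intro z hz u
        rw [mmG_apply, mmG_apply]
        exact Finset.prod_congr rfl fun l _ => hE2 l z hz _ _
    · rw [tsum_eq, MultilinearMap.sum_apply, MultilinearMap.sum_apply]
      push_cast
      exact Finset.sum_congr rfl fun q _ => hB'2 q.out v

/-- **From Tate classes to classes over the base field.** -/
theorem motivicTate_of [FiniteDimensional k V] {per : W →+ T} {comp : W →+ V}
    {ρ : Representation k Γ V} {χ : Γ →* k} (hact : ActsOnHodgeClasses per comp ρ χ)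
    (h : MumfordTateStrong per comp ρ χ) : MotivicTate per comp ρ χ := by
  classical
  intro Δ hΔ m φ hφ
  set S : Set (MultilinearMap k (fun _ : Fin m × Fin 2 => V) k) :=
    {φ' | FixedBy ρ χ Δ φ' ∧ ∃ ψ ∈ Submodule.span ℚ
      {ψ : MultilinearMap ℚ (fun _ : Fin m × Fin 2 => W) ℚ | IsHodgeTensor per ψ ∧
        IsProductOfHodgeBilinear per ψ}, Compares comp φ' ψ} with hS
  have key : ∀ φ' ∈ Submodule.span k {φ' : MultilinearMap k (fun _ : Fin m × Fin 2 => V) k |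
      ∃ ψ : MultilinearMap ℚ (fun _ : Fin m × Fin 2 => W) ℚ, IsHodgeTensor per ψ ∧
        IsProductOfHodgeBilinear per ψ ∧ Compares comp φ' ψ},
      ∃ Δ' : Subgroup Γ, Δ'.FiniteIndex ∧ Δ' ≤ Δ ∧ ∀ (Δ'' : Subgroup Γ) [Δ''.FiniteIndex],
        Δ'' ≤ Δ' → tsum ρ χ Δ Δ'' φ' ∈ Submodule.span k S := by
    intro φ' hφ'
    induction hφ' using Submodule.span_induction with
    | mem φ' hφ' =>
      obtain ⟨ψ, _, hψ, hc⟩ := hφ'
      obtain ⟨Δ', h1, h2, h3⟩ := good_sum hact Δ hΔ hψ hc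
      exact ⟨Δ', h1, h2, fun Δ'' _ hle => Submodule.subset_span (h3 Δ'' hle)⟩
    | zero => exact ⟨Δ, hΔ, le_rfl, fun Δ'' _ _ => by rw [map_zero]; exact Submodule.zero_mem _⟩
    | add x y _ _ hx hy =>
      obtain ⟨Δ₁, h1, h2, h3⟩ := hx
      obtain ⟨Δ₂, h4, h5, h6⟩ := hy
      refine ⟨Δ₁ ⊓ Δ₂, inferInstance, inf_le_left.trans h2, fun Δ'' _ hle => ?_⟩
      rw [map_add]
      exact Submodule.add_mem _ (h3 Δ'' (hle.trans inf_le_left)) (h6 Δ'' (hle.trans inf_le_right))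
    | smul c x _ hx =>
      obtain ⟨Δ₁, h1, h2, h3⟩ := hx
      refine ⟨Δ₁, h1, h2, fun Δ'' _ hle => ?_⟩
      rw [map_smul]
      exact Submodule.smul_mem _ _ (h3 Δ'' hle)
  obtain ⟨Δ', h1, h2, h3⟩ := key φ (h m φ ⟨Δ, hΔ, hφ⟩)
  haveI := h1
  have h4 := h3 Δ' le_rfl
  rw [tsum_of_fixed ρ χ hφ] at h4
  have h5 : ((reps Δ Δ').card : k) ≠ 0 := by
    have h6 : (reps Δ Δ').card ≠ 0 := Finset.card_ne_zero_of_mem (one_mem_reps h2)
    exact_mod_cast h6
  exact (Submodule.smul_mem_iff _ h5).1 h4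

end

end Pool.Agent.Q29.TE
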